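import Pool.Agent.H918.H.Main
import Pool.Agent.H918.S.SetThm2
import Pool.Graph.R_seed8.Y190.OP.Lift
import Pool.Graph.R_pool_sql_team_seeded_63374d34.N154.DD.KGeo

/-!
# PROJECT AH: curves of genus at most one and horizontal entire curves
-/

set_option autoImplicit false

open FF Pool.Agent.W602.GT Pool.Agent.N154.GG Pool.Agent.Y190.OP
open Filter Topology Metric Set
open Pool.Agent.H918.SS (ProjVariety HasReduction cone_smulF)
open Pool.Agent.H918.SS.H665p (lat_disc)
open Pool.Agent.H918.SP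
open scoped LinearAlgebra.Projectivization

namespace Pool.Agent.H918.AH

variable {n : ℕ} {ι : Type} {F : ι → MvPolynomial (Fin (n + 1)) ℂ} {Λ : PeriodPair}
  {α : (Fin (n + 1) → ℂ) → ℂ ⧸ Λ.lattice}

/-- Every closed curve of geometric genus at most one (not of general type) in the projective set
`X = {F = 0}` is contained in a fibre of the map `α`. -/
def LowInFibres {E : Type} (F : ι → MvPolynomial (Fin (n + 1)) ℂ) (α : (Fin (n + 1) → ℂ) → E) : Prop :=
  ∀ (K' : Type) [Field K'] [Algebra ℂ K'] (v : Fin (n + 1) → K'), SubVar F K' 1 v →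
    ¬ GeneralType ℂ K' 1 → ∃ e, ∀ u ∈ VarPts ℂ v, α u = e

theorem core_surface {K : Type} [Field K] [Algebra ℂ K] {y : Fin (n + 1) → K}
    (hX : ProjVariety F 2 y) (hα : HolToTorus (Cone F) Λ α) {B : Set (ℂ ⧸ Λ.lattice)} (hB : B.Finite)
    (hR : HasReduction F α B) {H : MvPolynomial (Fin (n + 1)) ℂ} (hH : IsForm H) (hy : val y H ≠ 0)
    (hHB : ∀ u ∈ Cone F, α u ∈ B → val u H = 0) : SpecialCore y := by
  obtain ⟨S, k, -, -, -, -, -, -, -, G, -, -, -, hG⟩ := Pool.Agent.H918.SS.allM hX le_rfl hα hB hR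
  obtain ⟨h1, h2, h3, h4, -, -⟩ := hG H hH hy hHB
  exact core_of hX.sub.dim hX.sub.ne hX.sub.gen h1 h2 (ent_conv hX h1 h4) (disc_conv hX h1 h3)

theorem no_horizontal {K : Type} [Field K] [Algebra ℂ K] {y : Fin (n + 1) → K}
    (hX : ProjVariety F 2 y) (hα : HolToTorus (Cone F) Λ α) {B : Set (ℂ ⧸ Λ.lattice)} (hB : B.Finite)
    (hR : HasReduction F α B) {H : MvPolynomial (Fin (n + 1)) ℂ} (hH : IsForm H) (hy : val y H ≠ 0)
    (hHB : ∀ u ∈ Cone F, α u ∈ B → val u H = 0) (hL : LowInFibres F α) :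
    ∀ g, HolIn F g → ¬ ∀ z, α (g z).rep = Submodule.Quotient.mk z := by
  intro g hg hgα
  obtain ⟨f, hfd, ⟨z0, hz0⟩, hf⟩ := exists_lift (φ := fun z => Phi (g z).rep)
    (holP_of_on (U := univ) fun z _ => by
      obtain ⟨V, u, hV, hz, hu, h1⟩ := hg.1 z
      exact ⟨V, u, hV, hz, hu, h1⟩)
  -- the values
  have hval : ∀ z, f z ≠ 0 → f z ∈ Cone F ∧ α (f z) = Submodule.Quotient.mk z := by
    intro z hz
    obtain ⟨c, hc, h2⟩ := Phi_inj (g z).rep_nonzero hz (hf z hz)
    have h3 : f z = c • (g z).rep ∨ (g z).rep = c • f z := by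
      first
        | exact Or.inl h2
        | exact Or.inr h2
        | exact Or.inl h2.symm
        | exact Or.inr h2.symm
    rcases h3 with h3 | h3
    · exact ⟨by rw [h3]; exact cone_smulF hX.form (hg.2 z) hc, by
        rw [h3, hα.homog _ (hg.2 z) c hc, hgα z]⟩
    · have h4 : f z = c⁻¹ • (g z).rep := by rw [h3, smul_smul, inv_mul_cancel₀ hc, one_smul]
      have hc' := inv_ne_zero hc
      exact ⟨by rw [h4]; exact cone_smulF hX.form (hg.2 z) hc', by
        rw [h4, hα.homog _ (hg.2 z) _ hc', hgα z]⟩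
  -- a second point
  obtain ⟨z1, hz1, hz1'⟩ : ∃ z1, f z1 ≠ 0 ∧ z1 - z0 ∉ Λ.lattice := by
    have h1 : ∀ᶠ z in 𝓝[≠] z0, f z ≠ 0 :=
      (hfd.continuous.continuousAt.eventually_ne hz0).filter_mono nhdsWithin_le_nhds
    have h2 : ∀ᶠ z in 𝓝[≠] z0, z - z0 ∉ (Λ.lattice : Set ℂ) := by
      have h3 := lat_disc Λ 0
      have h4 : Tendsto (fun z : ℂ => z - z0) (𝓝[≠] z0) (𝓝[≠] 0) := by
        refine tendsto_nhdsWithin_iff.2 ⟨?_, ?_⟩
        · have h5 : Tendsto (fun z : ℂ => z - z0) (𝓝 z0) (𝓝 (z0 - z0)) :=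
            (continuous_id.sub continuous_const).tendsto z0
          rw [sub_self] at h5
          exact h5.mono_left nhdsWithin_le_nhds
        · filter_upwards [self_mem_nhdsWithin] with z hz
          exact sub_ne_zero.2 hz
      exact h4.eventually h3
    obtain ⟨z1, h3, h4⟩ := (h1.and h2).exists
    exact ⟨z1, h3, h4⟩
  have hne : (Submodule.Quotient.mk z1 : ℂ ⧸ Λ.lattice) ≠ Submodule.Quotient.mk z0 := fun h =>
    hz1' ((Submodule.Quotient.eq _).1 h)
  obtain ⟨h0F, h0α⟩ := hval z0 hz0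
  obtain ⟨h1F, h1α⟩ := hval z1 hz1
  -- the meromorphic curve
  have hmer : MerIn F (fun v : Fin 1 → ℂ => f (v 0)) := by
    refine ⟨hfd.comp (differentiable_apply (0 : Fin 1)), fun v hv => (hval _ hv).1,
      fun _ => z0, fun _ => z1, ?_⟩
    rw [LinearIndependent.pair_iff]
    intro s t hst
    change s • f z0 + t • f z1 = 0 at hst
    by_contra hcon
    have key : ∀ c : ℂ, f z1 ≠ c • f z0 := by
      intro c hc
      have hc0 : c ≠ 0 := by
        rintro rfl
        rw [zero_smul] at hc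
        exact hz1 hc
      apply hne
      rw [← h1α, ← h0α, hc, hα.homog _ h0F c hc0]
    by_cases ht : t = 0
    · rw [ht, zero_smul, add_zero] at hst
      rcases smul_eq_zero.1 hst with h | h
      · exact hcon ⟨h, ht⟩
      · exact hz0 h
    · apply key (-(t⁻¹ * s))
      have h2 : t • f z1 = -(s • f z0) := eq_neg_of_add_eq_zero_right hst
      calc f z1 = t⁻¹ • (t • f z1) := by rw [smul_smul, inv_mul_cancel₀ ht, one_smul]
        _ = _ := by rw [h2, smul_neg, smul_smul, neg_smul]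
  obtain ⟨K', iF, iA, v, hv, hv1, hv2⟩ :=
    (closures hX (core_surface hX hα hB hR hH hy hHB)).2.2.1 1 _ hmer
  obtain ⟨e, he⟩ := hL K' v hv hv1
  have hmem : ∀ z, f z ≠ 0 → f z ∈ VarPts ℂ v := by
    intro z hz
    refine ⟨hz, fun G hG hGv => ?_⟩
    have h3 : G ∈ EquationsOn (range fun v : Fin 1 → ℂ => f (v 0)) := by
      rw [hv2]
      exact ⟨hG, hGv⟩
    exact h3.2 _ ⟨fun _ => z, rfl⟩
  apply hne
  rw [← h1α, ← h0α, he _ (hmem z0 hz0), he _ (hmem z1 hz1)]

end Pool.Agent.H918.AH
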