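import Pool.Agent.H918.H.Defs

/-! PROJECT AH: the bad points are isolated. -/

set_option autoImplicit false

open Polynomial FF Pool.Agent.W603.LV Pool.Agent.W603.PV Pool.Agent.W602.GT Pool.Agent.N154.GG
open Filter Topology Metric
open Pool.Agent.Y216 (OnVar CurveBound)
open Pool.Agent.H918.SS (ProjVariety HasReduction)
open Pool.Agent.H918.PF
open scoped Polynomial.Bivariate LinearAlgebra.Projectivization

namespace Pool.Agent.H918.AH

namespace H307

theorem mer (Λ : PeriodPair) (a : ℂ) : Meromorphic (Λ.weierstrassP + fun _ => -a) :=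
  fun x => (Λ.meromorphic_weierstrassP x).add (MeromorphicAt.const _ _)

theorem order_ne_top (Λ : PeriodPair) (w a : ℂ) :
    meromorphicOrderAt (Λ.weierstrassP + fun _ => -a) w ≠ ⊤ := by
  have h0 : meromorphicOrderAt (Λ.weierstrassP + fun _ => -a) 0 ≠ ⊤ := by
    have h1 : meromorphicOrderAt Λ.weierstrassP 0 < meromorphicOrderAt (fun _ : ℂ => -a) 0 := by
      rw [Λ.order_weierstrassP 0 (zero_mem _)]
      refine lt_of_lt_of_le ?_ (AnalyticAt.meromorphicOrderAt_nonneg analyticAt_const)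
      decide
    rw [meromorphicOrderAt_add_eq_left_of_lt (MeromorphicAt.const _ _) h1,
      Λ.order_weierstrassP 0 (zero_mem _)]
    decide
  exact (mer Λ a).exists_meromorphicOrderAt_ne_top_iff_forall.1 ⟨0, h0⟩ w

theorem ev_ne (Λ : PeriodPair) (w a : ℂ) : ∀ᶠ z in 𝓝[≠] w, Λ.weierstrassP z ≠ a := by
  have h := (meromorphicOrderAt_ne_top_iff_eventually_ne_zero (mer Λ a w)).1 (order_ne_top Λ w a)
  filter_upwards [h] with z hz h1
  apply hz
  change Λ.weierstrassP z + -a = 0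
  rw [h1, add_neg_cancel]

theorem ev_notMem (Λ : PeriodPair) (w : ℂ) : ∀ᶠ z in 𝓝[≠] w, z ∉ Λ.lattice := by
  filter_upwards [(Λ.meromorphic_weierstrassP w).eventually_analyticAt] with z hz h
  have h1 := hz.meromorphicOrderAt_nonneg
  rw [Λ.order_weierstrassP z h] at h1
  revert h1
  decide

theorem ev_bad (Λ : PeriodPair) (B₀ : Finset ℂ) (w : ℂ) : ∀ᶠ z in 𝓝[≠] w, z ∉ Bad Λ B₀ := by
  have h1 : ∀ᶠ z in 𝓝[≠] w, ∀ a ∈ B₀, Λ.weierstrassP z ≠ a :=
    (Filter.eventually_all_finset B₀).2 fun a _ => ev_ne Λ w a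
  filter_upwards [h1, ev_notMem Λ w] with z hz hz2 hbad
  rcases hbad with h | h
  · exact hz2 h
  · exact hz _ h rfl

end H307

/-- AH-BAD -/
theorem bad_finite (Λ : PeriodPair) (B₀ : Finset ℂ) (R : ℝ) :
    (Bad Λ B₀ ∩ closedBall 0 R).Finite := by
  by_contra h
  obtain ⟨x, -, hx⟩ := Set.Infinite.exists_accPt_of_subset_isCompact (K := closedBall (0 : ℂ) R) h
    (isCompact_closedBall 0 R) Set.inter_subset_right
  rw [accPt_iff_frequently_nhdsNE] at hx
  exact hx ((H307.ev_bad Λ B₀ x).mono fun z hz hz2 => hz hz2.1)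

end Pool.Agent.H918.AH
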