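import Pool.Agent.H918.H.Defs

/-! PROJECT AH: charts from germs (helper571 for helper918). -/

set_option autoImplicit false

open Polynomial FF Pool.Agent.W603.LV Pool.Agent.W603.PV Pool.Agent.W602.GT Pool.Agent.N154.GG
open Filter Topology Metric
open Pool.Agent.Y216 (OnVar CurveBound)
open Pool.Agent.H918.SS (ProjVariety HasReduction)
open Pool.Agent.H918.PF
open scoped Polynomial.Bivariate LinearAlgebra.Projectivization

namespace Pool.Agent.H918.AH

namespace H571

variable {L : Type} [Field L] [Algebra ℂ L]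

/-- straightening a zero of order `e` -/
theorem straight {f : ℂ → ℂ} {e : ℕ} (he : 0 < e)
    (hf : meromorphicOrderAt f 0 = ((e : ℤ) : WithTop ℤ)) :
    ∃ ψ : ℂ → ℂ, AnalyticAt ℂ ψ 0 ∧ ψ 0 = 0 ∧ deriv ψ 0 ≠ 0 ∧
      (Tendsto ψ (𝓝[≠] 0) (𝓝[≠] 0)) ∧ ∀ᶠ t in 𝓝[≠] 0, f (ψ t) = t ^ e := by
  have he0 : e ≠ 0 := he.ne'
  have hm : MeromorphicAt f 0 := by
    refine meromorphicAt_of_meromorphicOrderAt_ne_zero ?_
    rw [hf]
    intro h
    have : (e : ℤ) = 0 := by exact_mod_cast h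
    omega
  obtain ⟨g, hg, hg0, hfg⟩ := (meromorphicOrderAt_eq_int_iff hm).1 hf
  set r : ℂ → ℂ := fun z => (g 0) ^ ((e : ℂ)⁻¹) * (g z / g 0) ^ ((e : ℂ)⁻¹) with hr
  have hre : ∀ z, r z ^ e = g z := by
    intro z
    rw [hr]
    simp only
    rw [mul_pow, Complex.cpow_nat_inv_pow _ he0, Complex.cpow_nat_inv_pow _ he0,
      mul_div_cancel₀ _ hg0]
  have hr0 : r 0 ≠ 0 := by
    intro h
    have := hre 0
    rw [h, zero_pow he0] at this
    exact hg0 this.symm
  have hra : AnalyticAt ℂ r 0 := by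
    refine analyticAt_const.mul ((hg.div analyticAt_const hg0).cpow analyticAt_const ?_)
    change g 0 / g 0 ∈ Complex.slitPlane
    rw [div_self hg0]
    exact Complex.one_mem_slitPlane
  set w : ℂ → ℂ := fun z => z * r z with hw
  have hwa : AnalyticAt ℂ w 0 := analyticAt_id.mul hra
  have hw0 : w 0 = 0 := zero_mul _
  have hdw : deriv w 0 = r 0 := by
    have h1 := (hasDerivAt_id (0 : ℂ)).mul hra.differentiableAt.hasDerivAt
    have h2 := h1.deriv
    rw [one_mul, id, zero_mul, add_zero] at h2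
    exact h2
  have hdw0 : deriv w 0 ≠ 0 := by rw [hdw]; exact hr0
  set ψ : ℂ → ℂ := hwa.hasStrictDerivAt.localInverse _ _ _ hdw0 with hψ
  have hψa : AnalyticAt ℂ ψ 0 := by
    have := hwa.analyticAt_localInverse hdw0
    rw [hw0] at this
    exact this
  have hψr : ∀ᶠ t in 𝓝 (0 : ℂ), w (ψ t) = t := by
    have := HasStrictDerivAt.eventually_right_inverse hwa.hasStrictDerivAt hdw0
    rw [hw0] at this
    exact this
  have hψ0 : ψ 0 = 0 := by
    have h1 : ψ (w 0) = 0 := HasStrictFDerivAt.localInverse_apply_image ..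
    rw [hw0] at h1
    exact h1
  have hψd : HasDerivAt ψ (deriv w 0)⁻¹ 0 := by
    have := (HasStrictDerivAt.to_localInverse hwa.hasStrictDerivAt hdw0).hasDerivAt
    rw [hw0] at this
    exact this
  have hψt : Tendsto ψ (𝓝[≠] 0) (𝓝[≠] 0) := by
    have := hψd.tendsto_nhdsNE (inv_ne_zero hdw0)
    rw [hψ0] at this
    exact this
  refine ⟨ψ, hψa, hψ0, ?_, hψt, ?_⟩
  · rw [hψd.deriv]
    exact inv_ne_zero hdw0
  · filter_upwards [hψt.eventually hfg, hψr.filter_mono nhdsWithin_le_nhds] with t h1 h2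
    rw [h1, sub_zero, zpow_natCast, smul_eq_mul, ← hre, ← mul_pow]
    exact congrArg (· ^ e) h2

theorem germ_comp {Q : Place ℂ L} {e : ℕ} {σ : L → ℂ → ℂ} (hσ : Germ Q e σ) {ψ : ℂ → ℂ}
    (ha : AnalyticAt ℂ ψ 0) (h0 : ψ 0 = 0) (hd : deriv ψ 0 ≠ 0)
    (ht : Tendsto ψ (𝓝[≠] 0) (𝓝[≠] 0)) : Germ Q e (fun h t => σ h (ψ t)) where
  mer h := by
    have h1 : MeromorphicAt (σ h) (ψ 0) := by rw [h0]; exact hσ.mer h
    exact h1.comp_analyticAt ha
  add h h' := ht.eventually (hσ.add h h')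
  mul h h' := ht.eventually (hσ.mul h h')
  const c := ht.eventually (hσ.const c)
  ord h hh := by
    have h1 := meromorphicOrderAt_comp_of_deriv_ne_zero (f := σ h) ha hd
    rw [h0, hσ.ord h hh] at h1
    exact h1

section tau

variable {Q : Place ℂ L} {e : ℕ} {τ : L → ℂ → ℂ} {u : L}

theorem tau_zero (hτ : Germ Q e τ) : ∀ᶠ t in 𝓝[≠] 0, τ 0 t = 0 := by
  have := hτ.const 0
  rw [map_zero] at this
  exact this

theorem tau_aeval (hτ : Germ Q e τ) (hu : ∀ᶠ t in 𝓝[≠] 0, τ u t = t ^ e) (p : ℂ[X]) :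
    ∀ᶠ t in 𝓝[≠] 0, τ (aeval u p) t = p.eval (t ^ e) := by
  induction p using Polynomial.induction_on with
  | C a =>
    rw [aeval_C]
    filter_upwards [hτ.const a] with t h1
    rw [h1, eval_C]
  | add p q hp hq =>
    rw [map_add]
    filter_upwards [hp, hq, hτ.add (aeval u p) (aeval u q)] with t h1 h2 h3
    rw [h3, h1, h2, eval_add]
  | monomial n a ih =>
    have e1 : aeval u (C a * X ^ (n + 1)) = aeval u (C a * X ^ n) * u := by
      rw [pow_succ, ← mul_assoc, map_mul, aeval_X]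
    rw [e1]
    filter_upwards [ih, hu, hτ.mul (aeval u (C a * X ^ n)) u] with t h1 h2 h3
    rw [h3, h1, h2]
    simp only [eval_mul, eval_C, eval_pow, eval_X]
    rw [pow_succ, mul_assoc]

theorem order_rot (f : ℂ → ℂ) {z : ℂ} (hz : z ≠ 0) :
    meromorphicOrderAt (fun t => f (z * t)) 0 = meromorphicOrderAt f 0 := by
  have ha : AnalyticAt ℂ (fun t : ℂ => z * t) 0 := analyticAt_const.mul analyticAt_id
  have hd : HasDerivAt (fun t : ℂ => z * t) z 0 := by
    have := (hasDerivAt_id (0 : ℂ)).const_mul z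
    rw [mul_one] at this
    exact this
  have hd' : deriv (fun t : ℂ => z * t) 0 ≠ 0 := by rw [hd.deriv]; exact hz
  have h1 := meromorphicOrderAt_comp_of_deriv_ne_zero (f := f) ha hd'
  rw [mul_zero] at h1
  exact h1

theorem tendsto_rot {z : ℂ} (hz : z ≠ 0) : Tendsto (fun t : ℂ => z * t) (𝓝[≠] 0) (𝓝[≠] 0) := by
  have hd : HasDerivAt (fun t : ℂ => z * t) z 0 := by
    have := (hasDerivAt_id (0 : ℂ)).const_mul z
    rw [mul_one] at this
    exact this
  have := hd.tendsto_nhdsNE hz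
  rw [mul_zero] at this
  exact this

theorem inv_ge [IsFF ℂ L] (he : 0 < e) (hτ : Germ Q e τ) (hQu : Q.ord u = 1)
    (hu : ∀ᶠ t in 𝓝[≠] 0, τ u t = t ^ e) {z : ℂ} (hz : z ^ e = 1) {h : L} (hh : Ge Q 0 h) :
    ∀ᶠ t in 𝓝[≠] 0, τ h (z * t) = τ h t := by
  have hz0 : z ≠ 0 := by
    rintro rfl
    rw [zero_pow he.ne'] at hz
    exact zero_ne_one hz
  have hrm : MeromorphicAt (fun t => τ h (z * t)) 0 := by
    have ha : AnalyticAt ℂ (fun t : ℂ => z * t) 0 := analyticAt_const.mul analyticAt_id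
    have h1 : MeromorphicAt (τ h) ((fun t : ℂ => z * t) 0) := by
      simp only [mul_zero]
      exact hτ.mer h
    exact h1.comp_analyticAt ha
  have key : ∀ N : ℕ, ((N : ℤ) : WithTop ℤ) ≤
      meromorphicOrderAt (fun t => τ h (z * t) - τ h t) 0 := by
    intro N
    obtain ⟨p, hp⟩ := approx Q hQu hh N
    set R := h - aeval u p with hR
    have hdec : h = R + aeval u p := by rw [hR, sub_add_cancel]
    have h1 : ∀ᶠ t in 𝓝[≠] 0, τ h t = τ R t + p.eval (t ^ e) := by
      have h2 := hτ.add R (aeval u p)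
      rw [← hdec] at h2
      filter_upwards [h2, tau_aeval hτ hu p] with t h3 h4
      rw [h3, h4]
    have h2 : ∀ᶠ t in 𝓝[≠] 0, τ h (z * t) = τ R (z * t) + p.eval (t ^ e) := by
      filter_upwards [(tendsto_rot hz0).eventually h1] with t h3
      rw [h3, mul_pow, hz, one_mul]
    have h3 : (fun t => τ h (z * t) - τ h t) =ᶠ[𝓝[≠] 0]
        ((fun t => τ R (z * t)) + (-(fun t => τ R t))) := by
      filter_upwards [h1, h2] with t h4 h5
      rw [h4, h5]
      simp only [Pi.add_apply, Pi.neg_apply]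
      ring
    rw [meromorphicOrderAt_congr h3]
    have hRm : MeromorphicAt (fun t => τ R (z * t)) 0 := by
      have ha : AnalyticAt ℂ (fun t : ℂ => z * t) 0 := analyticAt_const.mul analyticAt_id
      have h1 : MeromorphicAt (τ R) ((fun t : ℂ => z * t) 0) := by
        simp only [mul_zero]
        exact hτ.mer R
      exact h1.comp_analyticAt ha
    have h4 : ((N : ℤ) : WithTop ℤ) ≤ meromorphicOrderAt (τ R) 0 := by
      rcases hp with hp | hp
      · have h5 : meromorphicOrderAt (τ R) 0 = ⊤ := by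
          rw [meromorphicOrderAt_eq_top_iff, hp]
          exact tau_zero hτ
        rw [h5]
        exact le_top
      · by_cases hR0 : R = 0
        · have h5 : meromorphicOrderAt (τ R) 0 = ⊤ := by
            rw [meromorphicOrderAt_eq_top_iff, hR0]
            exact tau_zero hτ
          rw [h5]
          exact le_top
        · rw [hτ.ord R hR0]
          have h6 : (N : ℤ) ≤ e * Q.ord R := by
            have he1 : (1 : ℤ) ≤ e := by exact_mod_cast he
            nlinarith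
          exact_mod_cast h6
    refine le_trans (le_min ?_ ?_) (meromorphicOrderAt_add hRm (hτ.mer R).neg)
    · rw [order_rot (τ R) hz0]
      exact h4
    · rw [← meromorphicOrderAt_neg]
      exact h4
  have htop : meromorphicOrderAt (fun t => τ h (z * t) - τ h t) 0 = ⊤ := by
    by_contra hne
    obtain ⟨m, hm⟩ := WithTop.ne_top_iff_exists.1 hne
    have h1 := key (m.toNat + 1)
    rw [← hm] at h1
    have h2 : ((m.toNat + 1 : ℕ) : ℤ) ≤ m := by exact_mod_cast h1
    omega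
  rw [meromorphicOrderAt_eq_top_iff] at htop
  filter_upwards [htop] with t ht
  exact sub_eq_zero.1 ht

theorem exists_pow_ge (hQu : Q.ord u = 1) (h : L) : ∃ k : ℕ, Ge Q 0 (u ^ k * h) := by
  have hu0 : u ≠ 0 := by
    rintro rfl
    rw [Q.ord_zero] at hQu
    omega
  by_cases h0 : h = 0
  · exact ⟨0, Or.inl (by rw [h0, mul_zero])⟩
  refine ⟨(-Q.ord h).toNat, Or.inr ?_⟩
  rw [Q.ord_mul (pow_ne_zero _ hu0) h0, Q.ord_pow, hQu]
  omega

theorem tau_pow (hτ : Germ Q e τ) (hu : ∀ᶠ t in 𝓝[≠] 0, τ u t = t ^ e) (k : ℕ) (h : L) :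
    ∀ᶠ t in 𝓝[≠] 0, τ (u ^ k * h) t = (t ^ e) ^ k * τ h t := by
  have h1 := tau_aeval hτ hu (X ^ k)
  rw [map_pow, aeval_X] at h1
  filter_upwards [h1, hτ.mul (u ^ k) h] with t h2 h3
  rw [h3, h2, eval_pow, eval_X]

theorem inv_all [IsFF ℂ L] (he : 0 < e) (hτ : Germ Q e τ) (hQu : Q.ord u = 1)
    (hu : ∀ᶠ t in 𝓝[≠] 0, τ u t = t ^ e) {z : ℂ} (hz : z ^ e = 1) (h : L) :
    ∀ᶠ t in 𝓝[≠] 0, τ h (z * t) = τ h t := by
  have hz0 : z ≠ 0 := by
    rintro rfl
    rw [zero_pow he.ne'] at hz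
    exact zero_ne_one hz
  obtain ⟨k, hk⟩ := exists_pow_ge hQu h
  have h1 := tau_pow hτ hu k h
  filter_upwards [h1, (tendsto_rot hz0).eventually h1, inv_ge he hτ hQu hu hz hk,
    self_mem_nhdsWithin] with t h2 h3 h4 h5
  rw [h2, h3, mul_pow, hz, one_mul] at h4
  exact mul_left_cancel₀ (pow_ne_zero _ (pow_ne_zero _ h5)) h4

/-- the chosen root -/
noncomputable def root (e : ℕ) (v : ℂ) : ℂ := v ^ ((e : ℂ)⁻¹)

theorem root_pow (he : 0 < e) (v : ℂ) : root e v ^ e = v := Complex.cpow_nat_inv_pow v he.ne'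

theorem root_ne (he : 0 < e) {v : ℂ} (hv : v ≠ 0) : root e v ≠ 0 := by
  intro h
  have := root_pow he v
  rw [h, zero_pow he.ne'] at this
  exact hv this.symm

theorem root_lt (he : 0 < e) {v : ℂ} {δ : ℝ} (hδ : 0 < δ) (hv : ‖v‖ < δ ^ e) : ‖root e v‖ < δ := by
  have h1 := root_pow he v
  rw [← h1, norm_pow] at hv
  exact lt_of_pow_lt_pow_left₀ e hδ.le hv

theorem root_tendsto (he : 0 < e) : Tendsto (root e) (𝓝[≠] 0) (𝓝[≠] 0) := by
  refine tendsto_nhdsWithin_iff.2 ⟨?_, ?_⟩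
  · refine Tendsto.mono_left ?_ nhdsWithin_le_nhds
    rw [Metric.tendsto_nhds_nhds]
    intro ε hε
    refine ⟨ε ^ e, pow_pos hε e, fun {v} hv => ?_⟩
    rw [dist_zero_right] at hv ⊢
    exact root_lt he hε hv
  · filter_upwards [self_mem_nhdsWithin] with v hv
    exact root_ne he hv

theorem inv_root [IsFF ℂ L] (he : 0 < e) (hτ : Germ Q e τ) (hQu : Q.ord u = 1)
    (hu : ∀ᶠ t in 𝓝[≠] 0, τ u t = t ^ e) (h : L) :
    ∀ᶠ t in 𝓝[≠] 0, ∀ s : ℂ, s ^ e = t ^ e → τ h s = τ h t := by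
  have h1 : ∀ᶠ t in 𝓝[≠] 0, ∀ z ∈ nthRootsFinset e (1 : ℂ), τ h (z * t) = τ h t := by
    rw [eventually_all_finset]
    intro z hz
    exact inv_all he hτ hQu hu ((mem_nthRootsFinset he 1).1 hz) h
  filter_upwards [h1, self_mem_nhdsWithin] with t h2 h3 s hs
  have h3' : t ≠ 0 := h3
  have h4 := h2 (s / t) ((mem_nthRootsFinset he 1).2 (by
    rw [div_pow, hs, div_self (pow_ne_zero _ h3')]))
  rw [div_mul_cancel₀ _ h3'] at h4
  exact h4

theorem mer_ge [IsFF ℂ L] (he : 0 < e) (hτ : Germ Q e τ) (hQu : Q.ord u = 1)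
    (hu : ∀ᶠ t in 𝓝[≠] 0, τ u t = t ^ e) {h : L} (hh : Ge Q 0 h) :
    MeromorphicAt (fun v => τ h (root e v)) 0 := by
  have ho : 0 ≤ meromorphicOrderAt (τ h) 0 := by
    by_cases h0 : h = 0
    · have h5 : meromorphicOrderAt (τ h) 0 = ⊤ := by
        rw [meromorphicOrderAt_eq_top_iff, h0]
        exact tau_zero hτ
      rw [h5]
      exact le_top
    · rw [hτ.ord h h0]
      have h1 : 0 ≤ Q.ord h := hh.resolve_left h0
      have h2 : (0 : ℤ) ≤ e * Q.ord h := by positivity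
      exact_mod_cast h2
  obtain ⟨c, hc⟩ := tendsto_nhds_of_meromorphicOrderAt_nonneg (hτ.mer h) ho
  have hdiff : ∀ᶠ v in 𝓝[≠] (0 : ℂ), DifferentiableAt ℂ (fun v => τ h (root e v)) v := by
    have h1 : ∀ᶠ t in 𝓝[≠] (0 : ℂ), AnalyticAt ℂ (τ h) t ∧ ∀ s : ℂ, s ^ e = t ^ e → τ h s = τ h t :=
      (hτ.mer h).eventually_analyticAt.and (inv_root he hτ hQu hu h)
    rw [eventually_nhdsWithin_iff, Metric.eventually_nhds_iff] at h1
    obtain ⟨δ, hδ, h1⟩ := h1
    rw [eventually_nhdsWithin_iff, Metric.eventually_nhds_iff]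
    refine ⟨δ ^ e, pow_pos hδ e, fun v₀ hv₀ hne => ?_⟩
    rw [dist_zero_right] at hv₀
    have hne' : v₀ ≠ 0 := hne
    set s : ℂ → ℂ := fun v => root e v₀ * (v / v₀) ^ ((e : ℂ)⁻¹) with hs
    have hs0 : s v₀ = root e v₀ := by
      rw [hs]
      simp only
      rw [div_self hne', Complex.one_cpow, mul_one]
    have hse : ∀ v, s v ^ e = v := by
      intro v
      rw [hs]
      simp only
      rw [mul_pow, root_pow he, Complex.cpow_nat_inv_pow _ he.ne', mul_div_cancel₀ _ hne']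
    have hsd : DifferentiableAt ℂ s v₀ := by
      refine (differentiableAt_const _).mul (DifferentiableAt.cpow_const ?_ ?_)
      · exact differentiableAt_id.div_const _
      · rw [div_self hne']
        exact Complex.one_mem_slitPlane
    have hlt : ‖s v₀‖ < δ := by
      rw [hs0]
      exact root_lt he hδ hv₀
    have hnz : s v₀ ≠ 0 := by
      rw [hs0]
      exact root_ne he hne'
    have hev : (fun v => τ h (root e v)) =ᶠ[𝓝 v₀] (τ h) ∘ s := by
      have e1 : ∀ᶠ v in 𝓝 v₀, ‖s v‖ < δ := hsd.continuousAt.norm.eventually_lt_const hlt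
      have e2 : ∀ᶠ v in 𝓝 v₀, s v ≠ 0 := hsd.continuousAt.eventually_ne hnz
      filter_upwards [e1, e2] with v h2 h3
      refine (h1 (y := s v) (by rw [dist_zero_right]; exact h2) h3).2 _ ?_
      rw [root_pow he, hse]
    have han := (h1 (y := s v₀) (by rw [dist_zero_right]; exact hlt) hnz).1
    exact (han.differentiableAt.comp v₀ hsd).congr_of_eventuallyEq hev
  have hct : Tendsto (fun v => τ h (root e v)) (𝓝[≠] 0) (𝓝 c) := hc.comp (root_tendsto he)
  have hA : AnalyticAt ℂ (Function.update (fun v => τ h (root e v)) 0 c) 0 := by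
    refine Complex.analyticAt_of_differentiable_on_punctured_nhds_of_continuousAt ?_ ?_
    · filter_upwards [hdiff, self_mem_nhdsWithin] with v h2 h3
      have h3' : v ≠ 0 := h3
      refine h2.congr_of_eventuallyEq ?_
      filter_upwards [isOpen_ne.mem_nhds h3'] with v' hv'
      exact Function.update_of_ne hv' _ _
    · exact continuousAt_update_same.2 hct
  refine hA.meromorphicAt.congr ?_
  filter_upwards [self_mem_nhdsWithin] with v hv
  exact Function.update_of_ne hv _ _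

theorem mer_all [IsFF ℂ L] (he : 0 < e) (hτ : Germ Q e τ) (hQu : Q.ord u = 1)
    (hu : ∀ᶠ t in 𝓝[≠] 0, τ u t = t ^ e) (h : L) :
    MeromorphicAt (fun v => τ h (root e v)) 0 := by
  obtain ⟨k, hk⟩ := exists_pow_ge hQu h
  have h1 := mer_ge he hτ hQu hu hk
  have h2 : MeromorphicAt (fun v : ℂ => (v ^ k)⁻¹) 0 := ((MeromorphicAt.id 0).pow k).inv
  refine (h2.mul h1).congr ?_
  filter_upwards [(root_tendsto he).eventually (tau_pow hτ hu k h), self_mem_nhdsWithin]
    with v h3 h4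
  have h4' : v ≠ 0 := h4
  simp only [Pi.mul_apply]
  rw [h3, root_pow he, inv_mul_cancel_left₀ (pow_ne_zero _ h4')]

theorem ord_all [IsFF ℂ L] (he : 0 < e) (hτ : Germ Q e τ) (hQu : Q.ord u = 1)
    (hu : ∀ᶠ t in 𝓝[≠] 0, τ u t = t ^ e) (h : L) (hh : h ≠ 0) :
    meromorphicOrderAt (fun v => τ h (root e v)) 0 = ((Q.ord h : ℤ) : WithTop ℤ) := by
  have hpa : AnalyticAt ℂ (fun t : ℂ => t ^ e) 0 := analyticAt_id.pow e
  have hao : analyticOrderAt (fun t : ℂ => t ^ e - (0 : ℂ) ^ e) 0 = (e : ℕ∞) := by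
    rw [(hpa.fun_sub analyticAt_const).analyticOrderAt_eq_natCast]
    refine ⟨fun _ => 1, analyticAt_const, one_ne_zero, Eventually.of_forall fun z => ?_⟩
    rw [zero_pow he.ne', sub_zero, sub_zero, smul_eq_mul, mul_one]
  have hnc : ¬ EventuallyConst (fun t : ℂ => t ^ e) (𝓝 0) := by
    rw [eventuallyConst_iff_analyticOrderAt_sub_eq_top, hao]
    exact ENat.natCast_ne_top e
  have hm : MeromorphicAt (fun v => τ h (root e v)) ((fun t : ℂ => t ^ e) 0) := by
    simp only [zero_pow he.ne']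
    exact mer_all he hτ hQu hu h
  have h1 := MeromorphicAt.meromorphicOrderAt_comp (g := fun t : ℂ => t ^ e) hm hpa hnc
  rw [hao] at h1
  simp only [zero_pow he.ne'] at h1
  have h2 : (τ h) =ᶠ[𝓝[≠] 0] ((fun v => τ h (root e v)) ∘ fun t : ℂ => t ^ e) := by
    filter_upwards [inv_root he hτ hQu hu h] with t h3
    simp only [Function.comp_apply]
    exact (h3 _ (root_pow he _)).symm
  rw [← meromorphicOrderAt_congr h2, hτ.ord h hh] at h1
  have hez : (e : ℤ) ≠ 0 := by exact_mod_cast he.ne'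
  rcases eq_or_ne (meromorphicOrderAt (fun v => τ h (root e v)) 0) ⊤ with h3 | h3
  · rw [h3, ENat.map_natCast, WithTop.top_mul (by exact_mod_cast hez)] at h1
    exact absurd h1 (WithTop.coe_ne_top)
  · obtain ⟨m, hm'⟩ := WithTop.ne_top_iff_exists.1 h3
    rw [← hm', ENat.map_natCast] at h1
    rw [← hm']
    have h4 : (e : ℤ) * Q.ord h = m * e := by exact_mod_cast h1
    have h5 : m = Q.ord h := by
      refine mul_left_cancel₀ hez ?_
      rw [h4, mul_comm]
    rw [h5]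

end tau

end H571

variable {L : Type} [Field L] [Algebra ℂ L] {Λ : PeriodPair} {a b : L} {D : Derivation ℂ L L}
  {ev : ℂ[X][Y] →ₐ[ℂ] L} {P : ℂ[X][Y]} {B₀ : Finset ℂ}

/-- AH-CHA -/
theorem chart_of_germ [IsFF ℂ L] {Q : Place ℂ L} {e : ℕ} {σ : L → ℂ → ℂ} (he : 0 < e)
    (hσ : Germ Q e σ) {u : L} (hu : Q.ord u = 1) : ∃ σ' : L → ℂ → ℂ, Chart Q u σ' := by
  have hu0 : u ≠ 0 := by
    rintro rfl
    rw [Q.ord_zero] at hu
    omega
  have h1 : meromorphicOrderAt (σ u) 0 = ((e : ℤ) : WithTop ℤ) := by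
    rw [hσ.ord u hu0, hu, mul_one]
  obtain ⟨ψ, ha, h0, hd, ht, hue⟩ := H571.straight he h1
  have hτ := H571.germ_comp hσ ha h0 hd ht
  have hτu : ∀ᶠ t in 𝓝[≠] (0 : ℂ), (fun h t => σ h (ψ t)) u t = t ^ e := hue
  refine ⟨fun h v => σ h (ψ (H571.root e v)), ?_⟩
  refine { mer := ?_, add := ?_, mul := ?_, const := ?_, ord := ?_, unif := ?_ }
  · exact fun h => H571.mer_all he hτ hu hτu h
  · exact fun h h' => (H571.root_tendsto he).eventually (hτ.add h h')
  · exact fun h h' => (H571.root_tendsto he).eventually (hτ.mul h h')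
  · exact fun c => (H571.root_tendsto he).eventually (hτ.const c)
  · intro h hh
    have h2 := H571.ord_all he hτ hu hτu h hh
    rw [Nat.cast_one, one_mul]
    exact h2
  · filter_upwards [(H571.root_tendsto he).eventually hτu] with v hv
    rw [H571.root_pow he] at hv
    exact hv

end Pool.Agent.H918.AH
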