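import Pool.Agent.H918.H.L2

/-! PROJECT AH: the sections over a convex open set. -/

set_option autoImplicit false

open Polynomial FF Pool.Agent.W603.LV Pool.Agent.W603.PV Pool.Agent.W602.GT Pool.Agent.N154.GG
open Filter Topology Metric
open Pool.Agent.Y216 (OnVar CurveBound)
open Pool.Agent.H918.SS (ProjVariety HasReduction)
open Pool.Agent.H918.PF
open scoped Polynomial.Bivariate LinearAlgebra.Projectivization

namespace Pool.Agent.H918.AH

variable {L : Type} [Field L] [Algebra ℂ L] {Λ : PeriodPair} {a b : L} {D : Derivation ℂ L L}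
  {ev : ℂ[X][Y] →ₐ[ℂ] L} {P : ℂ[X][Y]} {B₀ : Finset ℂ}

namespace H59

/-- `Cnt` is monotone. -/
theorem cnt_sub {Ω Ω' : Set ℂ} (h : Ω' ⊆ Ω) {k k' : ℕ} (hk : k' ≤ k) (hC : Cnt Λ P B₀ Ω k) :
    Cnt Λ P B₀ Ω' k' := by
  obtain ⟨q, h1, h2⟩ := hC
  refine ⟨fun i => q (Fin.castLE hk i), fun i t ht hb => h1 _ t (h ht) hb, fun t ht hb => ?_⟩
  intro i j hij
  exact Fin.castLE_injective hk (h2 t (h ht) hb hij)

/-- A value between `x` and `y` which is far from the values at the points of `T`. -/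
theorem exists_cut (ℓ : ℂ → ℝ) (T : Finset ℂ) {x y : ℝ} (hxy : x < y) :
    ∃ c η : ℝ, x < c ∧ c < y ∧ 0 < η ∧ ∀ s ∈ T, η < |ℓ s - c| := by
  have h1 : (Set.Ioo x y \ (↑(T.image ℓ) : Set ℝ)).Nonempty :=
    ((Set.Ioo_infinite hxy).sdiff (T.image ℓ).finite_toSet).nonempty
  obtain ⟨c, hc, hcT⟩ := h1
  by_cases hT : T.Nonempty
  · obtain ⟨s₀, hs₀, hmin⟩ := T.exists_min_image (fun s => |ℓ s - c|) hT
    have hpos : 0 < |ℓ s₀ - c| := by
      rw [abs_pos, sub_ne_zero]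
      intro h
      exact hcT (Finset.mem_coe.2 (Finset.mem_image.2 ⟨s₀, hs₀, h⟩))
    refine ⟨c, |ℓ s₀ - c| / 2, hc.1, hc.2, by positivity, fun s hs => ?_⟩
    have h2 : |ℓ s₀ - c| ≤ |ℓ s - c| := hmin s hs
    linarith
  · exact ⟨c, 1, hc.1, hc.2, one_pos, fun s hs => absurd ⟨s, hs⟩ hT⟩

/-- the statement for the finite set `T` -/
def St (Λ : PeriodPair) (P : ℂ[X][Y]) (B₀ : Finset ℂ) (δ : ℂ → ℕ) (T : Finset ℂ) : Prop :=
  ∀ (Ω : Set ℂ), IsOpen Ω → Convex ℝ Ω → (∀ s ∈ T, s ∈ Ω) → (∀ t ∈ Ω, t ∉ T → t ∉ Bad Λ B₀) →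
    (∀ s ∈ T, ∃ (ε : ℝ) (k : ℕ), 0 < ε ∧ Cnt Λ P B₀ (ball s ε) k ∧ P.natDegree ≤ k + δ s) →
    ∀ k : ℕ, k + ∑ s ∈ T, δ s ≤ P.natDegree → Cnt Λ P B₀ Ω k

/-- the step: a cut between two points -/
theorem step (hP : P.Monic) (hs : SepOff P B₀) (δ : ℂ → ℕ) (T : Finset ℂ)
    (ih : ∀ T' : Finset ℂ, T'.card < T.card → St Λ P B₀ δ T') (ℓ : ℂ →L[ℝ] ℝ) {s₁ s₂ : ℂ}
    (h₁ : s₁ ∈ T) (h₂ : s₂ ∈ T) (hlt : ℓ s₁ < ℓ s₂) : St Λ P B₀ δ T := by
  classical
  intro Ω hΩ hc hTΩ hB hT k hk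
  obtain ⟨c, η, hc1, hc2, hη, hcut⟩ := exists_cut ℓ T hlt
  have hcont : Continuous ℓ := ℓ.continuous
  have e1 : IsOpen (Ω ∩ {t | ℓ t < c + η}) := hΩ.inter (isOpen_lt hcont continuous_const)
  have e2 : IsOpen (Ω ∩ {t | c - η < ℓ t}) := hΩ.inter (isOpen_lt continuous_const hcont)
  have c1 : Convex ℝ (Ω ∩ {t | ℓ t < c + η}) :=
    hc.inter (convex_halfSpace_lt ℓ.toLinearMap.isLinear _)
  have c2 : Convex ℝ (Ω ∩ {t | c - η < ℓ t}) :=
    hc.inter (convex_halfSpace_gt ℓ.toLinearMap.isLinear _)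
  have d1 : (T.filter fun s => ℓ s < c).card < T.card := by
    apply Finset.card_lt_card
    rw [Finset.filter_ssubset]
    exact ⟨s₂, h₂, not_lt.2 hc2.le⟩
  have d2 : (T.filter fun s => ¬ ℓ s < c).card < T.card := by
    apply Finset.card_lt_card
    rw [Finset.filter_ssubset]
    exact ⟨s₁, h₁, fun h => h hc1⟩
  have hsum : ∑ s ∈ T.filter (fun s => ℓ s < c), δ s + ∑ s ∈ T.filter (fun s => ¬ ℓ s < c), δ s =
      ∑ s ∈ T, δ s := Finset.sum_filter_add_sum_filter_not T _ _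
  obtain ⟨A₁, hA₁⟩ : ∃ A₁, A₁ = ∑ s ∈ T.filter (fun s => ℓ s < c), δ s := ⟨_, rfl⟩
  obtain ⟨A₂, hA₂⟩ : ∃ A₂, A₂ = ∑ s ∈ T.filter (fun s => ¬ ℓ s < c), δ s := ⟨_, rfl⟩
  rw [← hA₁, ← hA₂] at hsum
  have g1 : Cnt Λ P B₀ (Ω ∩ {t | ℓ t < c + η}) (P.natDegree - A₁) := by
    refine ih _ d1 _ e1 c1 ?_ ?_ ?_ _ ?_
    · intro s hs
      rw [Finset.mem_filter] at hs
      refine ⟨hTΩ s hs.1, ?_⟩
      show ℓ s < c + η
      linarith [hs.2]
    · rintro t ⟨ht, ht2⟩ htT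
      refine hB t ht fun h => ?_
      have h3 := hcut t h
      have h4 : ℓ t < c + η := ht2
      have h5 : ¬ ℓ t < c := fun h6 => htT (Finset.mem_filter.2 ⟨h, h6⟩)
      rw [not_lt] at h5
      rw [abs_of_nonneg (by linarith)] at h3
      linarith
    · intro s hs
      exact hT s (Finset.mem_filter.1 hs).1
    · rw [← hA₁]
      omega
  have g2 : Cnt Λ P B₀ (Ω ∩ {t | c - η < ℓ t}) (P.natDegree - A₂) := by
    refine ih _ d2 _ e2 c2 ?_ ?_ ?_ _ ?_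
    · intro s hs
      rw [Finset.mem_filter] at hs
      refine ⟨hTΩ s hs.1, ?_⟩
      show c - η < ℓ s
      have := not_lt.1 hs.2
      linarith
    · rintro t ⟨ht, ht2⟩ htT
      refine hB t ht fun h => ?_
      have h3 := hcut t h
      have h4 : c - η < ℓ t := ht2
      have h5 : ℓ t < c := by
        by_contra h6
        exact htT (Finset.mem_filter.2 ⟨h, h6⟩)
      rw [abs_of_neg (by linarith)] at h3
      linarith
    · intro s hs
      exact hT s (Finset.mem_filter.1 hs).1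
    · rw [← hA₂]
      omega
  have hU : (Ω ∩ {t | ℓ t < c + η}) ∪ (Ω ∩ {t | c - η < ℓ t}) = Ω := by
    ext t
    constructor
    · rintro (h | h)
      · exact h.1
      · exact h.1
    · intro h
      by_cases h6 : ℓ t < c + η
      · exact Or.inl ⟨h, h6⟩
      · refine Or.inr ⟨h, ?_⟩
        show c - η < ℓ t
        linarith [not_lt.1 h6]
  have hpre : IsPreconnected ((Ω ∩ {t | ℓ t < c + η}) ∩ (Ω ∩ {t | c - η < ℓ t})) :=
    (c1.inter c2).isPreconnected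
  have hne : ((Ω ∩ {t | ℓ t < c + η}) ∩ (Ω ∩ {t | c - η < ℓ t})).Nonempty := by
    have hd : 0 < ℓ s₂ - ℓ s₁ := by linarith
    obtain ⟨r, hr⟩ : ∃ r : ℝ, r = (c - ℓ s₁) / (ℓ s₂ - ℓ s₁) := ⟨_, rfl⟩
    have hr0 : 0 ≤ r := by
      rw [hr]
      exact div_nonneg (by linarith) hd.le
    have hr1 : r ≤ 1 := by
      rw [hr, div_le_one hd]
      linarith
    have hre : r * (ℓ s₂ - ℓ s₁) = c - ℓ s₁ := by
      rw [hr, div_mul_cancel₀ _ hd.ne']
    have hmem : (1 - r) • s₁ + r • s₂ ∈ Ω :=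
      hc (hTΩ s₁ h₁) (hTΩ s₂ h₂) (by linarith) hr0 (by ring)
    have hval : ℓ ((1 - r) • s₁ + r • s₂) = c := by
      rw [map_add, map_smul, map_smul, smul_eq_mul, smul_eq_mul]
      linarith
    refine ⟨(1 - r) • s₁ + r • s₂, ⟨hmem, ?_⟩, hmem, ?_⟩
    · show ℓ ((1 - r) • s₁ + r • s₂) < c + η
      rw [hval]
      linarith
    · show c - η < ℓ ((1 - r) • s₁ + r • s₂)
      rw [hval]
      linarith
  have hbad : ∀ t ∈ (Ω ∩ {t | ℓ t < c + η}) ∩ (Ω ∩ {t | c - η < ℓ t}), t ∉ Bad Λ B₀ := by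
    rintro t ⟨⟨ht, ht1⟩, -, ht2⟩
    refine hB t ht fun h => ?_
    have h3 := hcut t h
    have h4 : ℓ t < c + η := ht1
    have h5 : c - η < ℓ t := ht2
    have h6 : |ℓ t - c| < η := by
      rw [abs_lt]
      constructor <;> linarith
    linarith
  have key := cnt_union hP hs e1 e2 hpre hne hbad g1 g2 (k := k) (by omega)
  rw [hU] at key
  exact key

end H59

/-- AH-ALL -/
theorem cnt_all (hP : P.Monic) (hs : SepOff P B₀) (δ : ℂ → ℕ) (T : Finset ℂ) :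
    ∀ (Ω : Set ℂ), IsOpen Ω → Convex ℝ Ω → (∀ s ∈ T, s ∈ Ω) → (∀ t ∈ Ω, t ∉ T → t ∉ Bad Λ B₀) →
      (∀ s ∈ T, ∃ (ε : ℝ) (k : ℕ), 0 < ε ∧ Cnt Λ P B₀ (ball s ε) k ∧ P.natDegree ≤ k + δ s) →
      ∀ k : ℕ, k + ∑ s ∈ T, δ s ≤ P.natDegree → Cnt Λ P B₀ Ω k := by
  show H59.St Λ P B₀ δ T
  induction hm : T.card using Nat.strong_induction_on generalizing T with
  | _ m ih =>
    have ih' : ∀ T' : Finset ℂ, T'.card < T.card → H59.St Λ P B₀ δ T' := by
      intro T' hT'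
      rw [hm] at hT'
      exact ih _ hT' T' rfl
    rcases Nat.lt_or_ge 1 T.card with h2 | h1
    · obtain ⟨s₁, h₁, s₂, h₂, hne⟩ := Finset.one_lt_card.1 h2
      rcases lt_trichotomy s₁.re s₂.re with h | h | h
      · exact H59.step hP hs δ T ih' Complex.reCLM h₁ h₂ h
      · rcases lt_trichotomy s₁.im s₂.im with h' | h' | h'
        · exact H59.step hP hs δ T ih' Complex.imCLM h₁ h₂ h'
        · exact absurd (Complex.ext h h') hne
        · exact H59.step hP hs δ T ih' Complex.imCLM h₂ h₁ h'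
      · exact H59.step hP hs δ T ih' Complex.reCLM h₂ h₁ h
    · rcases Nat.lt_or_ge 0 T.card with h3 | h3
      · have h4 : T.card = 1 := by omega
        obtain ⟨s, rfl⟩ := Finset.card_eq_one.1 h4
        intro Ω hΩ hc hTΩ hB hT k hk
        have hsΩ : s ∈ Ω := hTΩ s (Finset.mem_singleton_self s)
        obtain ⟨ε, k', hε, hC, hn⟩ := hT s (Finset.mem_singleton_self s)
        rw [Finset.sum_singleton] at hk
        obtain ⟨ε', hε', hsub⟩ := Metric.isOpen_iff.1 hΩ s hsΩ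
        have hC' : Cnt Λ P B₀ (ball s (min ε ε')) k' :=
          H59.cnt_sub (ball_subset_ball (min_le_left _ _)) le_rfl hC
        have key := cnt_one hP hs hΩ hc (lt_min hε hε')
          ((ball_subset_ball (min_le_right _ _)).trans hsub)
          (fun t ht hts => hB t ht (by rw [Finset.mem_singleton]; exact hts)) hC'
        exact H59.cnt_sub subset_rfl (by omega) key
      · have h4 : T = ∅ := Finset.card_eq_zero.1 (by omega)
        subst h4
        intro Ω hΩ hc hTΩ hB hT k hk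
        have key := cnt_good hP hs hΩ hc (fun t ht => hB t ht (Finset.notMem_empty t))
        exact H59.cnt_sub subset_rfl (by omega) key

end Pool.Agent.H918.AH
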