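import Pool.Agent.H918.H.Defs
import Pool.Graph.R_seed8.Helper272.Arn.J5652

/-! PROJECT AH (helper918), task AH-GOOD0. -/

set_option autoImplicit false

open Polynomial FF Pool.Agent.W603.LV Pool.Agent.W603.PV Pool.Agent.W602.GT Pool.Agent.N154.GG
open Filter Topology Metric
open Pool.Agent.Y216 (OnVar CurveBound)
open Pool.Agent.H918.PF
open scoped Polynomial.Bivariate LinearAlgebra.Projectivization

namespace Pool.Agent.H918.AH

variable {L : Type} [Field L] [Algebra ℂ L] {Λ : PeriodPair} {a b : L} {D : Derivation ℂ L L}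
  {ev : ℂ[X][Y] →ₐ[ℂ] L} {P : ℂ[X][Y]} {B₀ : Finset ℂ}

/-- AH-GOOD0 -/
theorem cnt_good (hP : P.Monic) (hs : SepOff P B₀) {Ω : Set ℂ} (hΩ : IsOpen Ω) (hc : Convex ℝ Ω)
    (hB : ∀ t ∈ Ω, t ∉ Bad Λ B₀) : Cnt Λ P B₀ Ω P.natDegree := by
  obtain ⟨α, hα1, hα2, hα3⟩ := AR.J5652.root_functions hΩ hc P.natDegree
    (fun t => P.map (evalRingHom (Λ.weierstrassP t))) (fun i => by
      simp only [coeff_map, coe_evalRingHom]
      exact (P.coeff i).differentiable.comp_differentiableOn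
        (Λ.differentiableOn_weierstrassP.mono (fun t ht h => hB t ht (Or.inl h))))
    (fun t _ => hP.natDegree_map _) (fun t ht => hs _ (fun h => hB t ht (Or.inr h)))
  refine ⟨α, fun i t ht _ => ⟨?_, ?_⟩, fun t ht _ => hα2 t ht⟩
  · exact (hα1 i).analyticAt (hΩ.mem_nhds ht)
  · have h1 := (hα3 t ht (α i t)).mpr ⟨i, rfl⟩
    rw [← map_evalRingHom_eval]
    exact h1

end Pool.Agent.H918.AH
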