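import Pool.Agent.H918.H.L1
import Pool.Agent.H918.G.BranchUnique
import Pool.Agent.H918.G.AlphaTrans

/-! PROJECT AH: `cnt_local` (helper333 for helper918). -/

set_option autoImplicit false

open Polynomial FF Pool.Agent.W603.LV Pool.Agent.W603.PV Pool.Agent.W602.GT Pool.Agent.N154.GG
open Filter Topology Metric
open Pool.Agent.Y216 (OnVar CurveBound)
open Pool.Agent.H918.SS (ProjVariety HasReduction)
open Pool.Agent.H918.PF
open scoped Polynomial.Bivariate LinearAlgebra.Projectivization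

namespace Pool.Agent.H918.AH

namespace H333

/-- a property which holds near `s`, holds near some point -/
theorem near_pt {p : ℂ → Prop} {s : ℂ} (h : ∀ᶠ t in 𝓝[≠] s, p t) :
    ∃ t₁, ∀ᶠ t in 𝓝 t₁, p t := by
  obtain ⟨U, hU, hsU, hsub⟩ := mem_nhdsWithin.1 h
  have h1 : U ∩ {s}ᶜ ∈ 𝓝[≠] s :=
    inter_mem (mem_nhdsWithin_of_mem_nhds (hU.mem_nhds hsU)) self_mem_nhdsWithin
  obtain ⟨t₁, ht₁⟩ := Filter.nonempty_of_mem h1
  exact ⟨t₁, Filter.mem_of_superset ((hU.inter isOpen_compl_singleton).mem_nhds ht₁) hsub⟩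

/-- the bad points are isolated -/
theorem bad_isolated (Λ : PeriodPair) (B₀ : Finset ℂ) (s : ℂ) :
    ∃ ε : ℝ, 0 < ε ∧ ∀ t ∈ ball s ε, t ≠ s → t ∉ Bad Λ B₀ := by
  have hfin := (bad_finite Λ B₀ (‖s‖ + 1)).subset
    (Set.diff_subset : (Bad Λ B₀ ∩ closedBall 0 (‖s‖ + 1)) \ {s} ⊆ _)
  have hs : ((Bad Λ B₀ ∩ closedBall 0 (‖s‖ + 1)) \ {s})ᶜ ∈ 𝓝 s :=
    hfin.isClosed.isOpen_compl.mem_nhds (fun h => h.2 rfl)
  obtain ⟨ε, hε, hsub⟩ := Metric.mem_nhds_iff.1 hs
  refine ⟨min ε 1, lt_min hε one_pos, fun t ht hts hB => ?_⟩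
  rw [mem_ball] at ht
  refine hsub (mem_ball.2 (ht.trans_le (min_le_left _ _))) ⟨⟨hB, ?_⟩, hts⟩
  rw [mem_closedBall, dist_zero_right]
  have h1 : dist t s < 1 := ht.trans_le (min_le_right _ _)
  rw [dist_eq_norm] at h1
  have h2 : ‖t‖ ≤ ‖t - s‖ + ‖s‖ := by
    have := norm_add_le (t - s) s
    rwa [sub_add_cancel] at this
  linarith

/-- punctured balls are connected -/
theorem punct_preconn (s : ℂ) (ε : ℝ) : IsPreconnected (ball s ε \ {s}) := by
  have h : ball s ε \ {s} = (fun p : ℝ × ℝ => s + (p.1 : ℂ) * Complex.exp (p.2 * Complex.I)) ''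
      (Set.Ioo 0 ε ×ˢ Set.univ) := by
    ext t
    rw [Set.mem_image]
    constructor
    · rintro ⟨h1, h2⟩
      have h2' : t ≠ s := h2
      refine ⟨(‖t - s‖, (t - s).arg), ⟨⟨norm_pos_iff.2 (sub_ne_zero.2 h2'), ?_⟩, trivial⟩, ?_⟩
      · rw [mem_ball, dist_eq_norm] at h1
        exact h1
      · show s + (‖t - s‖ : ℂ) * Complex.exp ((t - s).arg * Complex.I) = t
        rw [Complex.norm_mul_exp_arg_mul_I]
        ring
    · rintro ⟨⟨r, θ⟩, ⟨⟨hr0, hr1⟩, _⟩, rfl⟩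
      have hn : ‖(r : ℂ) * Complex.exp (θ * Complex.I)‖ = r := by
        rw [norm_mul, Complex.norm_exp_ofReal_mul_I, mul_one, Complex.norm_real,
          Real.norm_of_nonneg hr0.le]
      refine ⟨?_, ?_⟩
      · rw [mem_ball, dist_eq_norm]
        show ‖s + (r : ℂ) * Complex.exp (θ * Complex.I) - s‖ < ε
        rw [add_sub_cancel_left, hn]
        exact hr1
      · intro h0
        have h0' : s + (r : ℂ) * Complex.exp (θ * Complex.I) = s := h0
        have h3 : (r : ℂ) * Complex.exp (θ * Complex.I) = 0 := by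
          have := congrArg (fun x => x - s) h0'
          simpa using this
        rw [h3, norm_zero] at hn
        have : (0 : ℝ) < r := hr0
        linarith
  rw [h]
  refine (isPreconnected_Ioo.prod isPreconnected_univ).image _ (Continuous.continuousOn ?_)
  fun_prop

variable {Λ : PeriodPair} {P : ℂ[X][Y]} {B₀ : Finset ℂ}

/-- two sections which agree at a point agree near the point -/
theorem agree_near (hs : SepOff P B₀) {q q' : ℂ → ℂ} {t₀ : ℂ}
    (hq : ∀ᶠ t in 𝓝 t₀, AnalyticAt ℂ q t ∧ evalEval (Λ.weierstrassP t) (q t) P = 0)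
    (hq' : ∀ᶠ t in 𝓝 t₀, AnalyticAt ℂ q' t ∧ evalEval (Λ.weierstrassP t) (q' t) P = 0)
    (hB : t₀ ∉ Bad Λ B₀) (h : q t₀ = q' t₀) : q =ᶠ[𝓝 t₀] q' := by
  have hl : t₀ ∉ Λ.lattice := fun h' => hB (Or.inl h')
  have hz : Λ.weierstrassP t₀ ∉ B₀ := fun h' => hB (Or.inr h')
  have hw : ContinuousAt Λ.weierstrassP t₀ := (Λ.analyticOnNhd_weierstrassP t₀ hl).continuousAt
  have hc : ContinuousAt q t₀ := hq.self_of_nhds.1.continuousAt
  have hc' : ContinuousAt q' t₀ := hq'.self_of_nhds.1.continuousAt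
  have hquo : ContinuousAt (fun t => PF.H348.quo P (Λ.weierstrassP t) (q t) (q' t)) t₀ := by
    unfold PF.H348.quo
    apply tendsto_finsetSum
    intro n _
    apply Tendsto.mul
    · exact (P.coeff n).continuous.continuousAt.comp hw
    · apply tendsto_finsetSum
      intro i _
      exact (hc.pow i).mul (hc'.pow (n - 1 - i))
  have hroot : (P.map (evalRingHom (Λ.weierstrassP t₀))).eval (q t₀) = 0 := by
    rw [map_evalRingHom_eval]
    exact hq.self_of_nhds.2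
  have hq0 : PF.H348.quo P (Λ.weierstrassP t₀) (q t₀) (q' t₀) ≠ 0 := by
    rw [← h, PF.H348.quo_diag]
    have h3 := (hs _ hz).eval₂_derivative_ne_zero (RingHom.id ℂ) (x := q t₀)
      (by rw [Polynomial.eval₂_id]; exact hroot)
    rwa [Polynomial.eval₂_id] at h3
  filter_upwards [hq, hq', hquo.eventually_ne hq0] with w h1 h2 hqw
  have h4 := PF.H348.quo_mul P (Λ.weierstrassP w) (q w) (q' w)
  rw [h1.2, h2.2, sub_zero] at h4
  rcases mul_eq_zero.1 h4 with h5 | h5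
  · exact absurd h5 hqw
  · exact sub_eq_zero.1 h5

/-- two sections which agree at a point of a punctured ball without bad points agree on it -/
theorem agree (hs : SepOff P B₀) {s : ℂ} {ε : ℝ} (hB : ∀ t ∈ ball s ε, t ≠ s → t ∉ Bad Λ B₀)
    {q q' : ℂ → ℂ} (hq : Sec Λ P B₀ (ball s ε) q) (hq' : Sec Λ P B₀ (ball s ε) q')
    {t₀ : ℂ} (ht : t₀ ∈ ball s ε) (hts : t₀ ≠ s) (h : q t₀ = q' t₀) : q =ᶠ[𝓝[≠] s] q' := by
  have hopen : IsOpen (ball s ε \ {s}) := isOpen_ball.sdiff isClosed_singleton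
  have hε : 0 < ε := by
    rw [mem_ball] at ht
    exact dist_nonneg.trans_lt ht
  have hU : ∀ t ∈ ball s ε \ {s}, AnalyticAt ℂ q t ∧
      evalEval (Λ.weierstrassP t) (q t) P = 0 := fun t h1 => hq t h1.1 (hB t h1.1 h1.2)
  have hU' : ∀ t ∈ ball s ε \ {s}, AnalyticAt ℂ q' t ∧
      evalEval (Λ.weierstrassP t) (q' t) P = 0 := fun t h1 => hq' t h1.1 (hB t h1.1 h1.2)
  have ht0 : t₀ ∈ ball s ε \ {s} := ⟨ht, hts⟩
  have h1 : q =ᶠ[𝓝 t₀] q' := agree_near hs
    (Filter.mem_of_superset (hopen.mem_nhds ht0) hU)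
    (Filter.mem_of_superset (hopen.mem_nhds ht0) hU') (hB t₀ ht hts) h
  have h2 : Set.EqOn q q' (ball s ε \ {s}) :=
    AnalyticOnNhd.eqOn_of_preconnected_of_eventuallyEq (fun t h => (hU t h).1)
      (fun t h => (hU' t h).1) (punct_preconn s ε) ht0 h1
  have h3 : ball s ε \ {s} ∈ 𝓝[≠] s :=
    Filter.mem_of_superset (inter_mem (mem_nhdsWithin_of_mem_nhds (isOpen_ball.mem_nhds
      (mem_ball_self hε))) self_mem_nhdsWithin) (fun t h => ⟨h.1, h.2⟩)
  exact Filter.mem_of_superset h3 h2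

/-- `S(℘) ℘'` does not vanish near `s` -/
theorem no_vanish (Λ : PeriodPair) (s : ℂ) {S : ℂ[X]} (hS : S ≠ 0)
    (h : ∀ᶠ t in 𝓝[≠] s, S.eval (Λ.weierstrassP t) * Λ.derivWeierstrassP t = 0) : False := by
  have h1 : ∀ c : ℂ, ∀ᶠ t in 𝓝[≠] s, Λ.weierstrassP t ≠ c := by
    intro c
    have hm : MeromorphicAt (fun t => Λ.weierstrassP t - c) s :=
      (Λ.meromorphic_weierstrassP s).sub (MeromorphicAt.const _ _)
    rcases hm.eventually_eq_zero_or_eventually_ne_zero with h2 | h2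
    · exfalso
      obtain ⟨t₁, ht₁⟩ := near_pt h2
      exact PF.H772.wp_not_const Λ t₁ c (ht₁.mono fun t ht => sub_eq_zero.1 ht)
    · exact h2.mono fun t ht => sub_ne_zero.1 ht
  have h2 : ∀ᶠ t in 𝓝[≠] s, ∀ c ∈ S.roots.toFinset, Λ.weierstrassP t ≠ c := by
    rw [Filter.eventually_all_finset]
    exact fun c _ => h1 c
  obtain ⟨ε, hε, hB⟩ := bad_isolated Λ ∅ s
  have h3 : ∀ᶠ t in 𝓝[≠] s, t ∉ Bad Λ ∅ := by
    filter_upwards [mem_nhdsWithin_of_mem_nhds (isOpen_ball.mem_nhds (mem_ball_self hε)),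
      self_mem_nhdsWithin] with t ht hts
    exact hB t ht hts
  obtain ⟨t₁, ht₁⟩ := near_pt ((h.and h2).and h3)
  obtain ⟨r, hr, hsub⟩ := Metric.mem_nhds_iff.1 ht₁
  have h4 : ∀ t ∈ ball t₁ r, Λ.derivWeierstrassP t = 0 := by
    intro t ht
    obtain ⟨⟨h5, h6⟩, _⟩ := hsub ht
    rcases mul_eq_zero.1 h5 with h7 | h7
    · exact absurd rfl (h6 _ (by rw [Multiset.mem_toFinset, mem_roots hS]; exact h7))
    · exact h7
  have h5 : ∀ t ∈ ball t₁ r, t ∉ Λ.lattice := by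
    intro t ht hl
    exact (hsub ht).2 (Or.inl hl)
  apply PF.H772.wp_not_const Λ t₁ (Λ.weierstrassP t₁)
  refine Filter.mem_of_superset (ball_mem_nhds t₁ hr) fun t ht => ?_
  show Λ.weierstrassP t = Λ.weierstrassP t₁
  refine isOpen_ball.is_const_of_deriv_eq_zero (convex_ball t₁ r).isPreconnected
    (fun t ht => ((Λ.analyticOnNhd_weierstrassP t (h5 t ht)).differentiableAt).differentiableWithinAt)
    ?_ ht (mem_ball_self hr)
  intro t ht
  rw [PeriodPair.deriv_weierstrassP]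
  exact h4 t ht

end H333

variable {L : Type} [Field L] [Algebra ℂ L] {Λ : PeriodPair} {a b : L} {D : Derivation ℂ L L}
  {ev : ℂ[X][Y] →ₐ[ℂ] L} {P : ℂ[X][Y]} {B₀ : Finset ℂ}

/-- AH-CNT: the number of sections near `s` is at least the number of the unramified places over `s`
plus the number of the unramified places over `-s`. -/
theorem cnt_local [IsFF ℂ L] (hE : EllData Λ a b D) (hM : PM a ev P) (hs : SepOff P B₀) {s : ℂ}
    (hsB : s ∈ Bad Λ B₀)
    {T₁ T₂ : Finset (Place ℂ L)} (h₁ : ∀ Q ∈ T₁, Good Λ a b Q s)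
    (h₂ : ∀ Q ∈ T₂, Good Λ a (-b) Q s)
    (hch : ∀ (Q : Place ℂ L) (u : L), Q.ord u = 1 → ∃ σ : L → ℂ → ℂ, Chart Q u σ) :
    ∃ ε : ℝ, 0 < ε ∧ Cnt Λ P B₀ (ball s ε) (T₁.card + T₂.card) := by
  classical
  have H : ∀ i : {Q // Q ∈ T₁} ⊕ {Q // Q ∈ T₂}, ∃ (ε : ℝ) (q : ℂ → ℂ), 0 < ε ∧
      Sec Λ P B₀ (ball s ε) q ∧
      (∀ (h : L) (R : ℂ[X][Y]) (S : ℂ[X]), h ≠ 0 → S ≠ 0 → h * ev (C S) = ev R →
        meromorphicOrderAt (fun t => evalEval (Λ.weierstrassP t) (q t) R /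
          S.eval (Λ.weierstrassP t)) s =
            ((Sum.elim (fun Q => Q.1) (fun Q => Q.1) i : Place ℂ L).ord h : WithTop ℤ)) ∧
      ∀ (R : ℂ[X][Y]) (S : ℂ[X]), (Sum.elim (fun _ => b) (fun _ => -b) i : L) * ev (C S) = ev R →
        ∀ᶠ t in 𝓝[≠] s, S.eval (Λ.weierstrassP t) * Λ.derivWeierstrassP t =
          evalEval (Λ.weierstrassP t) (q t) R := by
    rintro (⟨Q, hQ⟩ | ⟨Q, hQ⟩)
    · exact loc_sec hM hs hsB (h₁ Q hQ) (hch Q)
    · exact loc_sec hM hs hsB (h₂ Q hQ) (hch Q)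
  choose ε q hε hS hO hR using H
  obtain ⟨ε₀, hε₀, hB⟩ := H333.bad_isolated Λ B₀ s
  obtain ⟨r, hr⟩ : ∃ r : ℝ, (∀ i, r ≤ ε i) ∧ r ≤ ε₀ ∧ 0 < r := by
    have h1 : ∀ᶠ r : ℝ in 𝓝[>] 0, ∀ i, r ≤ ε i := by
      rw [Filter.eventually_all]
      exact fun i => mem_nhdsWithin_of_mem_nhds (Iic_mem_nhds (hε i))
    have h2 : ∀ᶠ r : ℝ in 𝓝[>] 0, r ≤ ε₀ := mem_nhdsWithin_of_mem_nhds (Iic_mem_nhds hε₀)
    have h3 : ∀ᶠ r : ℝ in 𝓝[>] 0, 0 < r := self_mem_nhdsWithin
    obtain ⟨r, hr⟩ := (h1.and (h2.and h3)).exists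
    exact ⟨r, hr⟩
  obtain ⟨hr1, hr2, hr0⟩ := hr
  have hS' : ∀ i, Sec Λ P B₀ (ball s r) (q i) := fun i t ht => hS i t (ball_subset_ball (hr1 i) ht)
  have hB' : ∀ t ∈ ball s r, t ≠ s → t ∉ Bad Λ B₀ := fun t ht => hB t (ball_subset_ball hr2 ht)
  -- different sections do not agree near `s`
  have key : ∀ i j, q i =ᶠ[𝓝[≠] s] q j → i = j := by
    intro i j hij
    -- equal places of equal sign
    have hord : (Sum.elim (fun Q => Q.1) (fun Q => Q.1) i : Place ℂ L) =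
        (Sum.elim (fun Q => Q.1) (fun Q => Q.1) j : Place ℂ L) := by
      apply Place.ext
      funext h
      by_cases h0 : h = 0
      · rw [h0, Place.ord_zero, Place.ord_zero]
      · obtain ⟨R, S, hS0, hRS⟩ := hM.frac h
        have e1 := hO i h R S h0 hS0 hRS
        have e2 := hO j h R S h0 hS0 hRS
        have e3 : meromorphicOrderAt (fun t => evalEval (Λ.weierstrassP t) (q i t) R /
            S.eval (Λ.weierstrassP t)) s = meromorphicOrderAt (fun t =>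
              evalEval (Λ.weierstrassP t) (q j t) R / S.eval (Λ.weierstrassP t)) s := by
          apply meromorphicOrderAt_congr
          filter_upwards [hij] with t ht
          rw [ht]
        rw [e1, e2] at e3
        exact_mod_cast e3
    have hno : ∀ (Q : {Q // Q ∈ T₁}) (Q' : {Q // Q ∈ T₂}),
        ¬ q (Sum.inl Q) =ᶠ[𝓝[≠] s] q (Sum.inr Q') := by
      intro Q Q' hQQ
      obtain ⟨R, S, hS0, hRS⟩ := hM.frac b
      have e1 := hR (Sum.inl Q) R S hRS
      have e2 := hR (Sum.inr Q') (-R) S (by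
        show -b * ev (C S) = ev (-R)
        rw [neg_mul, hRS, map_neg])
      refine H333.no_vanish Λ s hS0 ?_
      filter_upwards [e1, e2, hQQ] with t h1 h2 h3
      rw [evalEval_neg, ← h3, ← h1] at h2
      have h4 : (2 : ℂ) * (S.eval (Λ.weierstrassP t) * Λ.derivWeierstrassP t) = 0 := by
        linear_combination h2
      exact (mul_eq_zero.1 h4).resolve_left two_ne_zero
    rcases i with Q | Q <;> rcases j with Q' | Q'
    · rw [Subtype.ext (show Q.1 = Q'.1 from hord)]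
    · exact absurd hij (hno Q Q')
    · exact absurd hij.symm (hno Q' Q)
    · rw [Subtype.ext (show Q.1 = Q'.1 from hord)]
  have hcard : Fintype.card ({Q // Q ∈ T₁} ⊕ {Q // Q ∈ T₂}) = T₁.card + T₂.card := by
    rw [Fintype.card_sum, Fintype.card_coe, Fintype.card_coe]
  have e := (Fintype.equivFinOfCardEq hcard).symm
  refine ⟨r, hr0, fun n => q (e n), fun n => hS' (e n), fun t ht htB => ?_⟩
  intro m n hmn
  have hts : t ≠ s := by
    rintro rfl
    exact htB hsB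
  exact e.injective (key _ _ (H333.agree hs hB' (hS' (e m)) (hS' (e n)) ht hts hmn))

end Pool.Agent.H918.AH
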