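import Pool.Agent.H918.H.L1

/-!
# PROJECT AH (helper918): sections over a convex set with one bad point, by helper981
-/

set_option autoImplicit false

open Polynomial FF Pool.Agent.W603.LV Pool.Agent.W603.PV Pool.Agent.W602.GT Pool.Agent.N154.GG
open Filter Topology Metric
open Pool.Agent.Y216 (OnVar CurveBound)
open Pool.Agent.H918.SS (ProjVariety HasReduction)
open Pool.Agent.H918.PF
open scoped Polynomial.Bivariate LinearAlgebra.Projectivization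

namespace Pool.Agent.H918.AH.H981

/-- The union of three convex sets, the first of which meets the two others. -/
theorem pre3 {A B C : Set ℂ} (hA : Convex ℝ A) (hB : Convex ℝ B) (hC : Convex ℝ C) {x y : ℂ}
    (hxA : x ∈ A) (hxB : x ∈ B) (hyA : y ∈ A) (hyC : y ∈ C) : IsPreconnected (A ∪ B ∪ C) :=
  IsPreconnected.union y (Or.inl hyA) hyC
    (IsPreconnected.union x hxA hxB hA.isPreconnected hB.isPreconnected) hC.isPreconnected

theorem mem_ball_of {s t : ℂ} {ε : ℝ} (h : |t.re - s.re| + |t.im - s.im| < ε) : t ∈ ball s ε := by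
  rw [mem_ball, dist_eq_norm]
  have h1 := Complex.norm_le_abs_re_add_abs_im (t - s)
  rw [Complex.sub_re, Complex.sub_im] at h1
  linarith

theorem one_abs {Cn : Set ℂ → ℕ → Prop} {Bd : Set ℂ} {n : ℕ}
    (hgood : ∀ Ω : Set ℂ, IsOpen Ω → Convex ℝ Ω → (∀ t ∈ Ω, t ∉ Bd) → Cn Ω n)
    (hun : ∀ U V : Set ℂ, IsOpen U → IsOpen V → IsPreconnected (U ∩ V) → (U ∩ V).Nonempty →
      (∀ t ∈ U ∩ V, t ∉ Bd) → ∀ k₁ k₂ k : ℕ, Cn U k₁ → Cn V k₂ → k + n ≤ k₁ + k₂ → Cn (U ∪ V) k)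
    {Ω : Set ℂ} (hΩ : IsOpen Ω) (hc : Convex ℝ Ω) {s : ℂ} {ε : ℝ} (hε : 0 < ε)
    (hsub : ball s ε ⊆ Ω) (hB : ∀ t ∈ Ω, t ≠ s → t ∉ Bd) {k : ℕ} (hk : Cn (ball s ε) k) :
    Cn Ω k := by
  -- the pieces
  set U₁ : Set ℂ := Ω ∩ {t | s.re + ε / 4 < t.re} with hU₁
  set U₂ : Set ℂ := Ω ∩ {t | t.re < s.re - ε / 4} with hU₂
  set U₃ : Set ℂ := Ω ∩ {t | s.im + ε / 4 < t.im} with hU₃
  set U₄ : Set ℂ := Ω ∩ {t | t.im < s.im - ε / 4} with hU₄
  have o₁ : IsOpen U₁ := hΩ.inter (isOpen_lt continuous_const Complex.continuous_re)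
  have o₂ : IsOpen U₂ := hΩ.inter (isOpen_lt Complex.continuous_re continuous_const)
  have o₃ : IsOpen U₃ := hΩ.inter (isOpen_lt continuous_const Complex.continuous_im)
  have o₄ : IsOpen U₄ := hΩ.inter (isOpen_lt Complex.continuous_im continuous_const)
  have c₁ : Convex ℝ U₁ := hc.inter (convex_halfSpace_re_gt _)
  have c₂ : Convex ℝ U₂ := hc.inter (convex_halfSpace_re_lt _)
  have c₃ : Convex ℝ U₃ := hc.inter (convex_halfSpace_im_gt _)
  have c₄ : Convex ℝ U₄ := hc.inter (convex_halfSpace_im_lt _)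
  have b₁ : ∀ t ∈ U₁, t ∉ Bd := by
    intro t ht
    refine hB t ht.1 ?_
    rintro rfl
    have := ht.2
    simp only [Set.mem_ofPred_eq] at this
    linarith
  have b₂ : ∀ t ∈ U₂, t ∉ Bd := by
    intro t ht
    refine hB t ht.1 ?_
    rintro rfl
    have := ht.2
    simp only [Set.mem_ofPred_eq] at this
    linarith
  have b₃ : ∀ t ∈ U₃, t ∉ Bd := by
    intro t ht
    refine hB t ht.1 ?_
    rintro rfl
    have := ht.2
    simp only [Set.mem_ofPred_eq] at this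
    linarith
  have b₄ : ∀ t ∈ U₄, t ∉ Bd := by
    intro t ht
    refine hB t ht.1 ?_
    rintro rfl
    have := ht.2
    simp only [Set.mem_ofPred_eq] at this
    linarith
  have cb : Convex ℝ (ball s ε) := convex_ball s ε
  have ob : IsOpen (ball s ε) := isOpen_ball
  -- points
  have pt : ∀ x y : ℝ, |x| + |y| < 1 →
      (⟨s.re + ε * x, s.im + ε * y⟩ : ℂ) ∈ ball s ε := by
    intro x y hxy
    apply mem_ball_of
    simp only
    rw [add_sub_cancel_left, add_sub_cancel_left, abs_mul, abs_mul, abs_of_pos hε, ← mul_add]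
    calc ε * (|x| + |y|) < ε * 1 := mul_lt_mul_of_pos_left hxy hε
      _ = ε := mul_one ε
  have n₁ := hgood U₁ o₁ c₁ b₁
  have n₂ := hgood U₂ o₂ c₂ b₂
  have n₃ := hgood U₃ o₃ c₃ b₃
  have n₄ := hgood U₄ o₄ c₄ b₄
  -- the first step
  have w₁ : Cn (ball s ε ∪ U₁) k := by
    refine hun _ _ ob o₁ (cb.inter c₁).isPreconnected ?_ (fun t ht => b₁ t ht.2) k n k hk n₁ le_rfl
    have hp := pt (1 / 2) 0 (by norm_num [abs_of_pos])
    refine ⟨_, hp, hsub hp, ?_⟩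
    simp only [Set.mem_ofPred_eq]
    linarith
  have w₂ : Cn (ball s ε ∪ U₁ ∪ U₂) k := by
    have e : (ball s ε ∪ U₁) ∩ U₂ = ball s ε ∩ U₂ := by
      ext t
      constructor
      · rintro ⟨h1 | h1, h2⟩
        · exact ⟨h1, h2⟩
        · exfalso
          have a1 := h1.2
          have a2 := h2.2
          simp only [Set.mem_ofPred_eq] at a1 a2
          linarith
      · rintro ⟨h1, h2⟩
        exact ⟨Or.inl h1, h2⟩
    refine hun _ _ (ob.union o₁) o₂ ?_ ?_ (fun t ht => b₂ t ht.2) k n k w₁ n₂ le_rfl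
    · rw [e]; exact (cb.inter c₂).isPreconnected
    · rw [e]
      have hp := pt (-(1 / 2)) 0 (by norm_num [abs_of_pos, abs_neg])
      refine ⟨_, hp, hsub hp, ?_⟩
      simp only [Set.mem_ofPred_eq]
      linarith
  have w₃ : Cn (ball s ε ∪ U₁ ∪ U₂ ∪ U₃) k := by
    have e : (ball s ε ∪ U₁ ∪ U₂) ∩ U₃ = ball s ε ∩ U₃ ∪ U₁ ∩ U₃ ∪ U₂ ∩ U₃ := by
      rw [Set.union_inter_distrib_right, Set.union_inter_distrib_right]
    have hp := pt (3 / 8) (3 / 8) (by norm_num [abs_of_pos])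
    have hq := pt (-(3 / 8)) (3 / 8) (by norm_num [abs_of_pos, abs_neg])
    have hp3 : (⟨s.re + ε * (3 / 8), s.im + ε * (3 / 8)⟩ : ℂ) ∈ U₃ := by
      refine ⟨hsub hp, ?_⟩
      simp only [Set.mem_ofPred_eq]
      linarith
    have hq3 : (⟨s.re + ε * (-(3 / 8)), s.im + ε * (3 / 8)⟩ : ℂ) ∈ U₃ := by
      refine ⟨hsub hq, ?_⟩
      simp only [Set.mem_ofPred_eq]
      linarith
    have hp1 : (⟨s.re + ε * (3 / 8), s.im + ε * (3 / 8)⟩ : ℂ) ∈ U₁ := by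
      refine ⟨hsub hp, ?_⟩
      simp only [Set.mem_ofPred_eq]
      linarith
    have hq2 : (⟨s.re + ε * (-(3 / 8)), s.im + ε * (3 / 8)⟩ : ℂ) ∈ U₂ := by
      refine ⟨hsub hq, ?_⟩
      simp only [Set.mem_ofPred_eq]
      linarith
    refine hun _ _ ((ob.union o₁).union o₂) o₃ ?_ ?_ (fun t ht => b₃ t ht.2) k n k w₂ n₃ le_rfl
    · rw [e]
      exact pre3 (cb.inter c₃) (c₁.inter c₃) (c₂.inter c₃) ⟨hp, hp3⟩ ⟨hp1, hp3⟩ ⟨hq, hq3⟩
        ⟨hq2, hq3⟩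
    · rw [e]
      exact ⟨_, Or.inl (Or.inl ⟨hp, hp3⟩)⟩
  have w₄ : Cn (ball s ε ∪ U₁ ∪ U₂ ∪ U₃ ∪ U₄) k := by
    have e : (ball s ε ∪ U₁ ∪ U₂ ∪ U₃) ∩ U₄ = ball s ε ∩ U₄ ∪ U₁ ∩ U₄ ∪ U₂ ∩ U₄ := by
      rw [Set.union_inter_distrib_right, Set.union_inter_distrib_right,
        Set.union_inter_distrib_right]
      have e3 : U₃ ∩ U₄ = ∅ := by
        rw [Set.eq_empty_iff_forall_notMem]
        rintro t ⟨h1, h2⟩
        have a1 := h1.2
        have a2 := h2.2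
        simp only [Set.mem_ofPred_eq] at a1 a2
        linarith
      rw [e3, Set.union_empty]
    have hp := pt (3 / 8) (-(3 / 8)) (by norm_num [abs_of_pos, abs_neg])
    have hq := pt (-(3 / 8)) (-(3 / 8)) (by norm_num [abs_of_pos, abs_neg])
    have hp3 : (⟨s.re + ε * (3 / 8), s.im + ε * (-(3 / 8))⟩ : ℂ) ∈ U₄ := by
      refine ⟨hsub hp, ?_⟩
      simp only [Set.mem_ofPred_eq]
      linarith
    have hq3 : (⟨s.re + ε * (-(3 / 8)), s.im + ε * (-(3 / 8))⟩ : ℂ) ∈ U₄ := by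
      refine ⟨hsub hq, ?_⟩
      simp only [Set.mem_ofPred_eq]
      linarith
    have hp1 : (⟨s.re + ε * (3 / 8), s.im + ε * (-(3 / 8))⟩ : ℂ) ∈ U₁ := by
      refine ⟨hsub hp, ?_⟩
      simp only [Set.mem_ofPred_eq]
      linarith
    have hq2 : (⟨s.re + ε * (-(3 / 8)), s.im + ε * (-(3 / 8))⟩ : ℂ) ∈ U₂ := by
      refine ⟨hsub hq, ?_⟩
      simp only [Set.mem_ofPred_eq]
      linarith
    refine hun _ _ (((ob.union o₁).union o₂).union o₃) o₄ ?_ ?_ (fun t ht => b₄ t ht.2) k n k w₃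
      n₄ le_rfl
    · rw [e]
      exact pre3 (cb.inter c₄) (c₁.inter c₄) (c₂.inter c₄) ⟨hp, hp3⟩ ⟨hp1, hp3⟩ ⟨hq, hq3⟩
        ⟨hq2, hq3⟩
    · rw [e]
      exact ⟨_, Or.inl (Or.inl ⟨hp, hp3⟩)⟩
  have hall : ball s ε ∪ U₁ ∪ U₂ ∪ U₃ ∪ U₄ = Ω := by
    ext t
    constructor
    · rintro ((((h | h) | h) | h) | h)
      · exact hsub h
      · exact h.1
      · exact h.1
      · exact h.1
      · exact h.1
    · intro ht
      by_cases h1 : s.re + ε / 4 < t.re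
      · exact Or.inl (Or.inl (Or.inl (Or.inr ⟨ht, h1⟩)))
      by_cases h2 : t.re < s.re - ε / 4
      · exact Or.inl (Or.inl (Or.inr ⟨ht, h2⟩))
      by_cases h3 : s.im + ε / 4 < t.im
      · exact Or.inl (Or.inr ⟨ht, h3⟩)
      by_cases h4 : t.im < s.im - ε / 4
      · exact Or.inr ⟨ht, h4⟩
      refine Or.inl (Or.inl (Or.inl (Or.inl (mem_ball_of ?_))))
      push Not at h1 h2 h3 h4
      have a1 : |t.re - s.re| ≤ ε / 4 := abs_le.2 ⟨by linarith, by linarith⟩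
      have a2 : |t.im - s.im| ≤ ε / 4 := abs_le.2 ⟨by linarith, by linarith⟩
      linarith
  rw [hall] at w₄
  exact w₄

end Pool.Agent.H918.AH.H981

namespace Pool.Agent.H918.AH

variable {L : Type} [Field L] [Algebra ℂ L] {Λ : PeriodPair} {a b : L} {D : Derivation ℂ L L}
  {ev : ℂ[X][Y] →ₐ[ℂ] L} {P : ℂ[X][Y]} {B₀ : Finset ℂ}

/-- AH-ONE -/
theorem cnt_one (hP : P.Monic) (hs : SepOff P B₀) {Ω : Set ℂ} (hΩ : IsOpen Ω) (hc : Convex ℝ Ω)
    {s : ℂ} {ε : ℝ} (hε : 0 < ε) (hsub : ball s ε ⊆ Ω) (hB : ∀ t ∈ Ω, t ≠ s → t ∉ Bad Λ B₀) {k : ℕ}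
    (hk : Cnt Λ P B₀ (ball s ε) k) : Cnt Λ P B₀ Ω k :=
  H981.one_abs (Cn := Cnt Λ P B₀) (Bd := Bad Λ B₀) (n := P.natDegree)
    (fun _ h1 h2 h3 => cnt_good hP hs h1 h2 h3)
    (fun _ _ h1 h2 h3 h4 h5 _ _ _ g1 g2 g3 => cnt_union hP hs h1 h2 h3 h4 h5 g1 g2 g3)
    hΩ hc hε hsub hB hk

end Pool.Agent.H918.AH
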