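import Pool.Agent.H918.H.Defs
import Pool.Agent.H918.G.BranchUnique

/-! PROJECT AH: gluing of sections. -/

set_option autoImplicit false

open Polynomial FF Pool.Agent.W603.LV Pool.Agent.W603.PV Pool.Agent.W602.GT Pool.Agent.N154.GG
open Filter Topology Metric
open Pool.Agent.Y216 (OnVar CurveBound)
open Pool.Agent.H918.SS (ProjVariety HasReduction)
open Pool.Agent.H918.PF
open scoped Polynomial.Bivariate LinearAlgebra.Projectivization

namespace Pool.Agent.H918.AH

variable {L : Type} [Field L] [Algebra ℂ L] {Λ : PeriodPair} {a b : L} {D : Derivation ℂ L L}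
  {ev : ℂ[X][Y] →ₐ[ℂ] L} {P : ℂ[X][Y]} {B₀ : Finset ℂ}

namespace H411

/-- two root functions with the same value agree locally -/
theorem loc {Λ : PeriodPair} {P : ℂ[X][Y]} {B₀ : Finset ℂ} (hs : SepOff P B₀) {W : Set ℂ}
    (hW : IsOpen W) (hB : ∀ t ∈ W, t ∉ Bad Λ B₀) {g g' : ℂ → ℂ}
    (hg : ∀ t ∈ W, AnalyticAt ℂ g t ∧ evalEval (Λ.weierstrassP t) (g t) P = 0)
    (hg' : ∀ t ∈ W, AnalyticAt ℂ g' t ∧ evalEval (Λ.weierstrassP t) (g' t) P = 0)
    {t : ℂ} (ht : t ∈ W) (h : g t = g' t) : g =ᶠ[𝓝 t] g' := by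
  have htB := hB t ht
  have htl : t ∉ Λ.lattice := fun h0 => htB (Or.inl h0)
  have htb : Λ.weierstrassP t ∉ B₀ := fun h0 => htB (Or.inr h0)
  have hc : ContinuousAt g t := (hg t ht).1.continuousAt
  have hc' : ContinuousAt g' t := (hg' t ht).1.continuousAt
  have hcP : ContinuousAt Λ.weierstrassP t := (Λ.analyticOnNhd_weierstrassP t htl).continuousAt
  have hq : ContinuousAt (fun w => H348.quo P (Λ.weierstrassP w) (g w) (g' w)) t := by
    unfold H348.quo
    apply tendsto_finsetSum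
    intro n _
    apply Tendsto.mul
    · exact (P.coeff n).continuous.continuousAt.tendsto.comp hcP
    · apply tendsto_finsetSum
      intro i _
      exact (hc.pow i).mul (hc'.pow (n - 1 - i))
  have hroot : (P.map (evalRingHom (Λ.weierstrassP t))).eval (g t) = 0 := by
    rw [map_evalRingHom_eval]
    exact (hg t ht).2
  have hq0 : H348.quo P (Λ.weierstrassP t) (g t) (g' t) ≠ 0 := by
    rw [← h, H348.quo_diag]
    have h3 := (hs _ htb).eval₂_derivative_ne_zero (RingHom.id ℂ) (x := g t)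
      (by rw [Polynomial.eval₂_id]; exact hroot)
    rwa [Polynomial.eval₂_id] at h3
  filter_upwards [hW.mem_nhds ht, hq.eventually_ne hq0] with w hw hqw
  have h4 := H348.quo_mul P (Λ.weierstrassP w) (g w) (g' w)
  rw [(hg w hw).2, (hg' w hw).2, sub_zero] at h4
  rcases mul_eq_zero.1 h4 with h5 | h5
  · exact absurd h5 hqw
  · exact sub_eq_zero.1 h5

/-- common values of two injective families of roots -/
theorem common {Q : ℂ[X]} (hQ : Q ≠ 0) {n k₁ k₂ k : ℕ} (hn : Q.natDegree ≤ n)
    (f : Fin k₁ → ℂ) (g : Fin k₂ → ℂ) (hf : Function.Injective f) (hg : Function.Injective g)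
    (hf0 : ∀ i, Q.eval (f i) = 0) (hg0 : ∀ i, Q.eval (g i) = 0) (hk : k + n ≤ k₁ + k₂) :
    ∃ (i : Fin k → Fin k₁) (j : Fin k → Fin k₂), Function.Injective i ∧ Function.Injective j ∧
      ∀ m, f (i m) = g (j m) := by
  classical
  have h1 : (Finset.univ.image f).card = k₁ := by
    rw [Finset.card_image_of_injective _ hf, Finset.card_univ, Fintype.card_fin]
  have h2 : (Finset.univ.image g).card = k₂ := by
    rw [Finset.card_image_of_injective _ hg, Finset.card_univ, Fintype.card_fin]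
  have h3 : (Finset.univ.image f ∪ Finset.univ.image g).card ≤ n := by
    have h4 : Finset.univ.image f ∪ Finset.univ.image g ⊆ Q.roots.toFinset := by
      intro x hx
      rw [Multiset.mem_toFinset, Polynomial.mem_roots hQ, Polynomial.IsRoot]
      rcases Finset.mem_union.1 hx with h | h
      · obtain ⟨i, _, rfl⟩ := Finset.mem_image.1 h
        exact hf0 i
      · obtain ⟨i, _, rfl⟩ := Finset.mem_image.1 h
        exact hg0 i
    exact (Finset.card_le_card h4).trans ((Multiset.toFinset_card_le _).trans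
      ((Polynomial.card_roots' Q).trans hn))
  have h4 := Finset.card_union_add_card_inter (Finset.univ.image f) (Finset.univ.image g)
  have h5 : k ≤ (Finset.univ.image f ∩ Finset.univ.image g).card := by
    omega
  obtain ⟨S, hS, hSc⟩ := Finset.exists_subset_card_eq h5
  let e : Fin k ≃ S := (Finset.equivFinOfCardEq hSc).symm
  have h6 : ∀ m : Fin k, ∃ i, f i = (e m : ℂ) := fun m => by
    obtain ⟨i, _, hi⟩ := Finset.mem_image.1 (Finset.mem_inter.1 (hS (e m).2)).1
    exact ⟨i, hi⟩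
  have h7 : ∀ m : Fin k, ∃ i, g i = (e m : ℂ) := fun m => by
    obtain ⟨i, _, hi⟩ := Finset.mem_image.1 (Finset.mem_inter.1 (hS (e m).2)).2
    exact ⟨i, hi⟩
  choose i hi using h6
  choose j hj using h7
  refine ⟨i, j, ?_, ?_, fun m => (hi m).trans (hj m).symm⟩
  · intro m m' hm
    apply e.injective
    apply Subtype.ext
    rw [← hi m, ← hi m', hm]
  · intro m m' hm
    apply e.injective
    apply Subtype.ext
    rw [← hj m, ← hj m', hm]

end H411

/-- AH-UNI -/
theorem cnt_union (hP : P.Monic) (hs : SepOff P B₀) {U V : Set ℂ} (hU : IsOpen U) (hV : IsOpen V)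
    (hUV : IsPreconnected (U ∩ V)) (hne : (U ∩ V).Nonempty) (hB : ∀ t ∈ U ∩ V, t ∉ Bad Λ B₀)
    {k₁ k₂ k : ℕ} (h₁ : Cnt Λ P B₀ U k₁) (h₂ : Cnt Λ P B₀ V k₂) (hk : k + P.natDegree ≤ k₁ + k₂) :
    Cnt Λ P B₀ (U ∪ V) k := by
  classical
  obtain ⟨q, hq, hqi⟩ := h₁
  obtain ⟨q', hq', hqi'⟩ := h₂
  obtain ⟨t₀, ht₀⟩ := hne
  have ht₀B := hB t₀ ht₀
  have hW : IsOpen (U ∩ V) := hU.inter hV
  obtain ⟨i, j, hi, hj, hij⟩ := H411.common (Q := P.map (evalRingHom (Λ.weierstrassP t₀)))
    (hP.map _).ne_zero (n := P.natDegree) Polynomial.natDegree_map_le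
    (fun i => q i t₀) (fun i => q' i t₀) (hqi t₀ ht₀.1 ht₀B) (hqi' t₀ ht₀.2 ht₀B)
    (fun i => by rw [map_evalRingHom_eval]; exact (hq i t₀ ht₀.1 ht₀B).2)
    (fun i => by rw [map_evalRingHom_eval]; exact (hq' i t₀ ht₀.2 ht₀B).2) hk
  have heq : ∀ m, Set.EqOn (q (i m)) (q' (j m)) (U ∩ V) := by
    intro m
    have h1 : ∀ t ∈ U ∩ V, AnalyticAt ℂ (q (i m)) t ∧
        evalEval (Λ.weierstrassP t) (q (i m) t) P = 0 := fun t ht => hq (i m) t ht.1 (hB t ht)
    have h2 : ∀ t ∈ U ∩ V, AnalyticAt ℂ (q' (j m)) t ∧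
        evalEval (Λ.weierstrassP t) (q' (j m) t) P = 0 := fun t ht => hq' (j m) t ht.2 (hB t ht)
    exact AnalyticOnNhd.eqOn_of_preconnected_of_eventuallyEq (fun t ht => (h1 t ht).1)
      (fun t ht => (h2 t ht).1) hUV ht₀ (H411.loc hs hW hB h1 h2 ht₀ (hij m))
  refine ⟨fun m t => if t ∈ U then q (i m) t else q' (j m) t, ?_, ?_⟩
  · intro m t ht htB
    by_cases htU : t ∈ U
    · have h1 : q (i m) =ᶠ[𝓝 t] fun w => if w ∈ U then q (i m) w else q' (j m) w := by
        filter_upwards [hU.mem_nhds htU] with w hw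
        rw [if_pos hw]
      have h2 := hq (i m) t htU htB
      refine ⟨h2.1.congr h1, ?_⟩
      show evalEval (Λ.weierstrassP t) (if t ∈ U then q (i m) t else q' (j m) t) P = 0
      rw [if_pos htU]
      exact h2.2
    · have htV : t ∈ V := ht.resolve_left htU
      have h1 : q' (j m) =ᶠ[𝓝 t] fun w => if w ∈ U then q (i m) w else q' (j m) w := by
        filter_upwards [hV.mem_nhds htV] with w hw
        by_cases hwU : w ∈ U
        · rw [if_pos hwU]
          exact (heq m ⟨hwU, hw⟩).symm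
        · rw [if_neg hwU]
      have h2 := hq' (j m) t htV htB
      refine ⟨h2.1.congr h1, ?_⟩
      show evalEval (Λ.weierstrassP t) (if t ∈ U then q (i m) t else q' (j m) t) P = 0
      rw [if_neg htU]
      exact h2.2
  · intro t ht htB m m' hm
    by_cases htU : t ∈ U
    · have h3 : q (i m) t = q (i m') t := by
        have h4 := hm
        simp only [if_pos htU] at h4
        exact h4
      exact hi (hqi t htU htB h3)
    · have htV : t ∈ V := ht.resolve_left htU
      have h3 : q' (j m) t = q' (j m') t := by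
        have h4 := hm
        simp only [if_neg htU] at h4
        exact h4
      exact hj (hqi' t htV htB h3)

end Pool.Agent.H918.AH
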