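import Pool.Agent.H918.H.Defs

/-! PROJECT AH, task coset_count (helper807). -/

set_option autoImplicit false

open Polynomial FF Pool.Agent.W603.LV Pool.Agent.W603.PV
open Filter Topology Metric

namespace Pool.Agent.H918.AH

/-- AH-COS -/
theorem coset_count (Λ : PeriodPair) (R : ℝ) : ∃ N : ℕ, ∀ (s₀ : ℂ) (T : Finset ℂ),
    (∀ s ∈ T, ‖s‖ ≤ R ∧ s - s₀ ∈ Λ.lattice) → T.card ≤ N := by
  have hd : DiscreteTopology Λ.lattice.toAddSubgroup :=
    inferInstanceAs (DiscreteTopology Λ.lattice)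
  have hcl : IsClosed (Λ.lattice : Set ℂ) :=
    AddSubgroup.isClosed_of_discrete (H := Λ.lattice.toAddSubgroup)
  have hfin : (closedBall (0 : ℂ) (2 * R) ∩ (Λ.lattice : Set ℂ)).Finite :=
    Metric.finite_isBounded_inter_isClosed ⟨inferInstanceAs (DiscreteTopology Λ.lattice)⟩
      isBounded_closedBall hcl
  refine ⟨hfin.toFinset.card, fun s₀ T hT => ?_⟩
  rcases T.eq_empty_or_nonempty with rfl | ⟨s₁, h₁⟩
  · simp
  refine Finset.card_le_card_of_injOn (fun s => s - s₁) (fun s hs => ?_) (fun s _ s' _ h => ?_)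
  · have hs := hT s hs
    have h1 := hT s₁ h₁
    rw [Finset.mem_coe, Set.Finite.mem_toFinset]
    refine ⟨?_, ?_⟩
    · rw [mem_closedBall_zero_iff]
      have := norm_sub_le s s₁
      linarith [hs.1, h1.1]
    · have h := Λ.lattice.sub_mem hs.2 h1.2
      have h2 : s - s₀ - (s₁ - s₀) = s - s₁ := by ring
      rw [h2] at h
      exact h
  · exact sub_left_injective h

end Pool.Agent.H918.AH
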