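import Pool.Agent.H918.H.Defs
import Pool.Agent.H918.G.Finish

/-! PROJECT AH (helper918): task CUR, boundedness of the degrees (helper71). -/

set_option autoImplicit false

open Polynomial FF Pool.Agent.W603.LV Pool.Agent.W603.PV Pool.Agent.W602.GT Pool.Agent.N154.GG
open Filter Topology Metric
open Pool.Agent.Y216 (OnVar CurveBound)
open Pool.Agent.H918.SS (ProjVariety HasReduction)
open Pool.Agent.H918.PF
open scoped Polynomial.Bivariate LinearAlgebra.Projectivization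

namespace Pool.Agent.H918.AH

variable {n : ℕ} {A : Fin 3 → MvPolynomial (Fin (n + 1)) ℂ}

/-- AH-CUR: boundedness of the degrees. -/
theorem curve_bound {K : Type} [Field K] [Algebra ℂ K] {y : Fin (n + 1) → K} (hy : y ≠ 0)
    (hgen : coords ℂ y = ⊤) (hA : ∃ e : ℕ, ∀ j, (A j).IsHomogeneous e) (h0 : val y (A 0) ≠ 0)
    (hK : GeneralType ℂ K 2) (ht : Transcendental ℂ (val y (A 1) / val y (A 0)))
    (h : ∃ N : ℕ, ∀ (L : Type) [Field L] [Algebra ℂ L] [IsFF ℂ L] (f : Fin (n + 1) → L),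
      OnVar ℂ y f → val f (A 0) ≠ 0 →
      hgt ℂ (val f (A 1) / val f (A 0)) ≤ N * max (canDeg ℂ L) 0 ∧
      hgt ℂ (val f (A 2) / val f (A 0)) ≤ N * max (canDeg ℂ L) 0) : CurveBound ℂ y := by
  classical
  obtain ⟨d, hd⟩ := hA
  obtain ⟨N, hN⟩ := h
  have hYne : ∀ l : Fin 1, (fun j : Fin 3 => val y (A j)) ≠ 0 := fun _ h => h0 (congrFun h 0)
  obtain ⟨j, e, H, hR, G, hGf, hGx, hGH, D₁, hD₁⟩ := Pool.Agent.H916.exists_multi (r := 1)
    (N := fun _ => 2) hy hgen (y := fun _ => fun j : Fin 3 => val y (A j)) hYne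
    (Pool.Agent.H918.PF.H643.fib hgen h0 hK ht)
  have hRm := hR 0
  set j0 : Fin 3 := j 0 with hj0
  have hGG : IsForm (G * A 0) := Pool.Agent.H916.isForm_mul hGf ⟨d, hd 0⟩
  refine ⟨G * A 0, hGG, ?_, D₁ * (1 + 2 * N), ?_⟩
  · rw [Pool.Agent.H916.val_mul_ne]
    exact ⟨hGx, h0⟩
  intro L _ _ _ f hf hfG
  rw [Pool.Agent.H916.val_mul_ne] at hfG
  obtain ⟨hG0, hA0⟩ := hfG
  have h1 := hGH L f hf hG0 0
  -- the relations between the forms
  have hrel : ∀ i, val f (A i) * MvPolynomial.aeval f (H 0 j0) =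
      val f (A j0) * MvPolynomial.aeval f (H 0 i) := by
    intro i
    have h4 := hf.2 (A i * H 0 (j 0) - A j0 * H 0 i)
      ⟨d + e, ((hd i).mul (hRm.hom _)).sub ((hd j0).mul (hRm.hom _))⟩ (by
        have h5 := hRm.eq i
        rw [div_eq_div_iff hRm.ny hRm.ne] at h5
        unfold Pool.Agent.W602.GT.val at h5 ⊢
        rw [map_sub, map_mul, map_mul, h5]
        ring)
    unfold Pool.Agent.W602.GT.val at h4 ⊢
    rw [map_sub, map_mul, map_mul, sub_eq_zero] at h4
    exact h4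
  have hAj : val f (A j0) ≠ 0 := by
    intro h5
    have h6 := hrel 0
    rw [h5, zero_mul] at h6
    exact (mul_ne_zero hA0 h1) h6
  have hpht : pht ℂ (fun i => MvPolynomial.aeval f (H 0 i)) ≤ 2 * (N * max (canDeg ℂ L) 0) := by
    have h5 : (fun i => MvPolynomial.aeval f (H 0 i)) =
        fun i => (MvPolynomial.aeval f (H 0 j0) / val f (A j0)) * val f (A i) := by
      funext i
      have h6 := hrel i
      rw [div_mul_eq_mul_div, eq_div_iff hAj, mul_comm (MvPolynomial.aeval f (H 0 i)), ← h6]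
      ring
    rw [h5, pht_scale ⟨0, hA0⟩ (div_ne_zero h1 hAj)]
    refine (pht_le (fun i => val f (A i)) (l := (0 : Fin 3)) hA0).trans ?_
    rw [Fin.sum_univ_three, div_self hA0, hgt_one, zero_add]
    obtain ⟨k1, k2⟩ := hN L f hf hA0
    linarith
  have h2 := hD₁ L f hf hG0
  rw [Fin.sum_univ_one] at h2
  refine h2.trans ?_
  have h3 : (D₁ : ℤ) * (max (canDeg ℂ L) 0 + pht ℂ (fun i => MvPolynomial.aeval f (H 0 i))) ≤
      D₁ * (max (canDeg ℂ L) 0 + 2 * (N * max (canDeg ℂ L) 0)) :=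
    mul_le_mul_of_nonneg_left (add_le_add le_rfl hpht) (Int.natCast_nonneg _)
  refine h3.trans (le_of_eq ?_)
  push_cast
  ring

end Pool.Agent.H918.AH
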