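import Pool.Agent.H918.G.Geo

/-!
# PROJECT AH (helper918): the degrees of the curves in surfaces over elliptic curves

Definitions: the function field `L` of a curve with a nonconstant map `(1 : a : b)` to the elliptic
curve `ℂ / Λ`, and the sections over subsets of the plane.
-/

set_option autoImplicit false

open Polynomial FF Pool.Agent.W603.LV Pool.Agent.W603.PV
open Filter Topology Metric
open scoped Polynomial.Bivariate

namespace Pool.Agent.H918.AH

open Pool.Agent.H918.PF (SepOff)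

variable {L : Type} [Field L] [Algebra ℂ L]

/-- A plane model of `L` over the coordinate `a`: `ev` maps the polynomials in `Z` and `Y` to `L`,
`Z` to `a`, and `P` is the minimal polynomial of `Y` over `ℂ[Z]`. -/
structure PM (a : L) (ev : ℂ[X][Y] →ₐ[ℂ] L) (P : ℂ[X][Y]) : Prop where
  monic : P.Monic
  pos : 0 < P.natDegree
  ker : ∀ R : ℂ[X][Y], ev R = 0 ↔ P ∣ R
  frac : ∀ h : L, ∃ (R : ℂ[X][Y]) (S : ℂ[X]), S ≠ 0 ∧ h * ev (C S) = ev R
  coord : ev (C X) = a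
  deg : (P.natDegree : ℤ) = hgt ℂ a

/-- `(1 : a : b)` is a nonconstant map to the elliptic curve `ℂ / Λ`, and `D a = b`. -/
structure EllData (Λ : PeriodPair) (a b : L) (D : Derivation ℂ L L) : Prop where
  tr : Transcendental ℂ a
  ne : b ≠ 0
  eq : b ^ 2 = 4 * a ^ 3 - algebraMap ℂ L Λ.g₂ * a - algebraMap ℂ L Λ.g₃
  der : D a = b

/-- The bad points: the lattice, and the points over `B₀`. -/
def Bad (Λ : PeriodPair) (B₀ : Finset ℂ) : Set ℂ :=
  {t | t ∈ Λ.lattice ∨ Λ.weierstrassP t ∈ B₀}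

/-- `q` is a holomorphic root function of `P(℘ t, ·)` on `Ω` outside of the bad points. -/
def Sec (Λ : PeriodPair) (P : ℂ[X][Y]) (B₀ : Finset ℂ) (Ω : Set ℂ) (q : ℂ → ℂ) : Prop :=
  ∀ t ∈ Ω, t ∉ Bad Λ B₀ → AnalyticAt ℂ q t ∧ evalEval (Λ.weierstrassP t) (q t) P = 0

/-- There are `k` sections over `Ω` which are different at all points which are not bad. -/
def Cnt (Λ : PeriodPair) (P : ℂ[X][Y]) (B₀ : Finset ℂ) (Ω : Set ℂ) (k : ℕ) : Prop :=
  ∃ q : Fin k → ℂ → ℂ, (∀ i, Sec Λ P B₀ Ω (q i)) ∧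
    ∀ t ∈ Ω, t ∉ Bad Λ B₀ → Function.Injective fun i => q i t

/-- The place `Q` lies over the point of the elliptic curve with the parameter `s`. -/
def Over (Λ : PeriodPair) (a b : L) (Q : Place ℂ L) (s : ℂ) : Prop :=
  (s ∈ Λ.lattice ∧ Q.ord a < 0) ∨ (s ∉ Λ.lattice ∧
    Ge Q 1 (a - algebraMap ℂ L (Λ.weierstrassP s)) ∧
    Ge Q 1 (b - algebraMap ℂ L (Λ.derivWeierstrassP s)))

/-- A homomorphism, up to equality near `0`, from `L` to the meromorphic functions near `0`, such that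
the order at `0` is `e` times the order at the place `Q`. -/
structure Germ (Q : Place ℂ L) (e : ℕ) (σ : L → ℂ → ℂ) : Prop where
  mer : ∀ h, MeromorphicAt (σ h) 0
  add : ∀ h h', ∀ᶠ v in 𝓝[≠] 0, σ (h + h') v = σ h v + σ h' v
  mul : ∀ h h', ∀ᶠ v in 𝓝[≠] 0, σ (h * h') v = σ h v * σ h' v
  const : ∀ c : ℂ, ∀ᶠ v in 𝓝[≠] 0, σ (algebraMap ℂ L c) v = c
  ord : ∀ h, h ≠ 0 → meromorphicOrderAt (σ h) 0 = ((e * Q.ord h : ℤ) : WithTop ℤ)

/-- A local parameter at `Q`: `σ` develops the elements of `L` in powers of `u`. -/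
structure Chart (Q : Place ℂ L) (u : L) (σ : L → ℂ → ℂ) : Prop extends Germ Q 1 σ where
  unif : ∀ᶠ v in 𝓝[≠] 0, σ u v = v

/-- The data of an unramified place `Q` over `s`: a local parameter `u` at `Q` and a local coordinate
`φ` at `s`, such that `a = ℘ t` and `b = ℘' t` if `u = φ t`. -/
def Good (Λ : PeriodPair) (a b : L) (Q : Place ℂ L) (s : ℂ) : Prop :=
  ∃ (u : L) (φ : ℂ → ℂ), Q.ord u = 1 ∧ AnalyticAt ℂ φ s ∧ φ s = 0 ∧ deriv φ s ≠ 0 ∧
    ∀ σ : L → ℂ → ℂ, Chart Q u σ → ∀ᶠ t in 𝓝[≠] s,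
      σ a (φ t) = Λ.weierstrassP t ∧ σ b (φ t) = Λ.derivWeierstrassP t

end Pool.Agent.H918.AH
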