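import Pool.Agent.H918.H.Defs
import Pool.Agent.H918.G.ExistsModel
import Pool.Agent.H918.G.BoundInf
import Pool.Agent.H918.G.PuiseuxInf
import Pool.Agent.H918.G.ExistsSepoff

/-! PROJECT AH (helper918), task AH-GER: a germ at a place. -/

set_option autoImplicit false

open Polynomial FF Pool.Agent.W603.LV Pool.Agent.W603.PV
open Filter Topology Metric
open Pool.Agent.H918.PF
open scoped Polynomial.Bivariate

namespace Pool.Agent.H918.AH.H84

theorem tend_x {N : ℕ} (hN : 0 < N) :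
    Tendsto (fun v : ℂ => (v ^ N)⁻¹) (𝓝[≠] 0) (Bornology.cobounded ℂ) := by
  have h1 : Tendsto (fun v : ℂ => v ^ N) (𝓝[≠] 0) (𝓝[≠] 0) := by
    rw [tendsto_nhdsWithin_iff]
    constructor
    · have h2 : Tendsto (fun v : ℂ => v ^ N) (𝓝 0) (𝓝 (0 ^ N)) := (continuous_pow N).tendsto 0
      rw [zero_pow hN.ne'] at h2
      exact h2.mono_left nhdsWithin_le_nhds
    · filter_upwards [self_mem_nhdsWithin] with v hv
      exact pow_ne_zero N hv
  exact Filter.tendsto_inv₀_nhdsNE_zero.comp h1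

theorem ev_ne {N : ℕ} (hN : 0 < N) {S : ℂ[X]} (hS : S ≠ 0) :
    ∀ᶠ v : ℂ in 𝓝[≠] 0, S.eval ((v ^ N)⁻¹) ≠ 0 := by
  have h1 : Bornology.IsBounded (S.roots.toFinset : Set ℂ) :=
    (Finset.finite_toSet _).isBounded
  have h2 := (tend_x hN).eventually (Bornology.isBounded_def.mp h1)
  filter_upwards [h2] with v hv h0
  apply hv
  rw [Finset.mem_coe, Multiset.mem_toFinset, mem_roots hS]
  exact h0

theorem mer_poly {x : ℂ → ℂ} (hx : MeromorphicAt x 0) (S : ℂ[X]) :
    MeromorphicAt (fun v => S.eval (x v)) 0 := by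
  induction S using Polynomial.induction_on' with
  | add p q hp hq =>
    have h := hp.add hq
    refine h.congr (Filter.Eventually.of_forall fun v => ?_)
    change (p.eval (x v) + q.eval (x v)) = (p + q).eval (x v)
    rw [eval_add]
  | monomial n a =>
    have h := (MeromorphicAt.const a (0 : ℂ)).mul (hx.pow n)
    refine h.congr (Filter.Eventually.of_forall fun v => ?_)
    change a * x v ^ n = (monomial n a).eval (x v)
    rw [eval_monomial]

theorem mer_evalEval {x y : ℂ → ℂ} (hx : MeromorphicAt x 0) (hy : MeromorphicAt y 0)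
    (R : ℂ[X][Y]) : MeromorphicAt (fun v => evalEval (x v) (y v) R) 0 := by
  induction R using Polynomial.induction_on' with
  | add p q hp hq =>
    have h := hp.add hq
    refine h.congr (Filter.Eventually.of_forall fun v => ?_)
    change evalEval (x v) (y v) p + evalEval (x v) (y v) q = evalEval (x v) (y v) (p + q)
    rw [evalEval_add]
  | monomial n a =>
    have h := (mer_poly hx a).mul (hy.pow n)
    refine h.congr (Filter.Eventually.of_forall fun v => ?_)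
    change a.eval (x v) * y v ^ n = evalEval (x v) (y v) (monomial n a)
    unfold evalEval
    rw [eval_monomial, eval_mul, eval_pow, eval_C]

variable {L : Type} [Field L] [Algebra ℂ L] {Q : Place ℂ L} {ev : ℂ[X][Y] →ₐ[ℂ] L} {P : ℂ[X][Y]}

theorem same (hM : Model Q ev P) {R R' : ℂ[X][Y]} (h : ev R = ev R') {z y : ℂ}
    (hz : evalEval z y P = 0) : evalEval z y R = evalEval z y R' := by
  have h1 : ev (R - R') = 0 := by rw [map_sub, h, sub_self]
  obtain ⟨W, hW⟩ := (hM.ker _).1 h1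
  have h2 := congrArg (evalEval z y) hW
  rw [evalEval_sub, evalEval_mul, hz, zero_mul] at h2
  exact sub_eq_zero.mp h2

theorem main_aux [IsFF ℂ L] (hM : Model Q ev P) {N : ℕ} (hN : 0 < N) {α : ℂ → ℂ}
    (hα : MeromorphicAt α 0)
    (hr : ∀ᶠ v in 𝓝[≠] (0 : ℂ), evalEval ((v ^ N)⁻¹) (α v) P = 0) :
    ∃ (e : ℕ) (σ : L → ℂ → ℂ), 0 < e ∧ Germ Q e σ := by
  choose R S hS hRS using hM.frac
  have hx : MeromorphicAt (fun v : ℂ => (v ^ N)⁻¹) 0 := by
    have h := ((MeromorphicAt.id (0 : ℂ)).pow N).inv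
    exact h
  obtain ⟨σ, hσ⟩ : ∃ σ : L → ℂ → ℂ, ∀ h v, σ h v =
      evalEval ((v ^ N)⁻¹) (α v) (R h) / (S h).eval ((v ^ N)⁻¹) := ⟨_, fun _ _ => rfl⟩
  -- well-definedness
  have W : ∀ (h : L) (R' : ℂ[X][Y]) (S' : ℂ[X]), S' ≠ 0 → h * ev (C S') = ev R' →
      ∀ᶠ v : ℂ in 𝓝[≠] 0, σ h v = evalEval ((v ^ N)⁻¹) (α v) R' / S'.eval ((v ^ N)⁻¹) := by
    intro h R' S' hS' hRS'
    filter_upwards [hr, ev_ne hN hS', ev_ne hN (hS h)] with v h1 h2 h3
    have h4 : ev (R h * C S') = ev (R' * C (S h)) := by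
      rw [map_mul, map_mul, ← hRS h, ← hRS']
      ring
    have h5 := same hM h4 h1
    rw [evalEval_mul, evalEval_mul, evalEval_C, evalEval_C] at h5
    rw [hσ, div_eq_div_iff h3 h2]
    exact h5
  have hmer : ∀ h, MeromorphicAt (σ h) 0 := by
    intro h
    have h1 := (mer_evalEval hx hα (R h)).div (mer_poly hx (S h))
    refine h1.congr (Filter.Eventually.of_forall fun v => ?_)
    rw [Pi.div_apply, hσ]
  have hadd : ∀ h h', ∀ᶠ v in 𝓝[≠] 0, σ (h + h') v = σ h v + σ h' v := by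
    intro h h'
    have h1 : (h + h') * ev (C (S h * S h')) = ev (R h * C (S h') + R h' * C (S h)) := by
      rw [C_mul, map_mul, map_add, map_mul, map_mul, ← hRS h, ← hRS h']
      ring
    filter_upwards [W (h + h') _ _ (mul_ne_zero (hS h) (hS h')) h1, ev_ne hN (hS h),
      ev_ne hN (hS h')] with v h2 h3 h4
    rw [h2, hσ, hσ, evalEval_add, evalEval_mul, evalEval_mul, evalEval_C, evalEval_C, eval_mul,
      div_add_div _ _ h3 h4, mul_comm (eval _ (S h)) (evalEval _ _ (R h'))]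
  have hmul : ∀ h h', ∀ᶠ v in 𝓝[≠] 0, σ (h * h') v = σ h v * σ h' v := by
    intro h h'
    have h1 : (h * h') * ev (C (S h * S h')) = ev (R h * R h') := by
      rw [C_mul, map_mul, map_mul, ← hRS h, ← hRS h']
      ring
    filter_upwards [W (h * h') _ _ (mul_ne_zero (hS h) (hS h')) h1, ev_ne hN (hS h),
      ev_ne hN (hS h')] with v h2 h3 h4
    rw [h2, hσ, hσ, evalEval_mul, eval_mul, div_mul_div_comm]
  have hconst : ∀ c : ℂ, ∀ᶠ v in 𝓝[≠] 0, σ (algebraMap ℂ L c) v = c := by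
    intro c
    have h1 : algebraMap ℂ L c * ev (C 1) = ev (C (C c)) := by
      rw [C_1, map_one, mul_one]
      exact (ev.commutes c).symm
    filter_upwards [W (algebraMap ℂ L c) _ _ one_ne_zero h1] with v h2
    rw [h2, evalEval_C, eval_C, eval_one, div_one]
  have hone : ∀ᶠ v in 𝓝[≠] 0, σ 1 v = 1 := by
    have h := hconst 1
    rw [map_one] at h
    exact h
  -- boundedness
  have hbd : ∀ h : L, 0 ≤ Q.ord h → 0 ≤ meromorphicOrderAt (σ h) 0 := by
    intro h hh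
    obtain ⟨K, r, hK⟩ := bound_inf hM (h := h) (Or.inr hh)
    by_contra hneg
    have h1 : Tendsto (σ h) (𝓝[≠] 0) (Bornology.cobounded ℂ) :=
      (tendsto_cobounded_iff_meromorphicOrderAt_neg (hmer h)).2 (not_le.mp hneg)
    have h2 : ∀ᶠ v in 𝓝[≠] (0 : ℂ), K < ‖σ h v‖ :=
      (tendsto_norm_cobounded_atTop.comp h1).eventually (eventually_gt_atTop K)
    have h3 : ∀ᶠ v in 𝓝[≠] (0 : ℂ), r ≤ ‖(v ^ N)⁻¹‖ :=
      (tendsto_norm_cobounded_atTop.comp (tend_x hN)).eventually (eventually_ge_atTop r)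
    obtain ⟨v, hv1, hv2, hv3, hv4⟩ := (h2.and (h3.and (hr.and (ev_ne hN (hS h))))).exists
    have h4 := hK (R h) (S h) (hRS h) _ _ hv2 hv3 hv4
    have h5 : 0 < ‖(S h).eval ((v ^ N)⁻¹)‖ := norm_pos_iff.mpr hv4
    rw [hσ, norm_div, lt_div_iff₀ h5] at hv1
    exact absurd h4 (not_le.mpr hv1)
  have hmo : ∀ h h' : L, meromorphicOrderAt (σ (h * h')) 0 =
      meromorphicOrderAt (σ h) 0 + meromorphicOrderAt (σ h') 0 := by
    intro h h'
    rw [← meromorphicOrderAt_mul (hmer h) (hmer h')]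
    exact meromorphicOrderAt_congr (hmul h h')
  have hone0 : meromorphicOrderAt (σ 1) 0 = 0 := by
    have h1 : σ 1 =ᶠ[𝓝[≠] 0] fun _ => (1 : ℂ) := hone
    rw [meromorphicOrderAt_congr h1]
    have h2 := meromorphicOrderAt_const (𝕜 := ℂ) (0 : ℂ) (1 : ℂ)
    rw [h2, if_neg one_ne_zero]
  have hnt : ∀ h : L, h ≠ 0 → meromorphicOrderAt (σ h) 0 ≠ ⊤ := by
    intro h hh ht
    have h1 := hmo h h⁻¹
    rw [mul_inv_cancel₀ hh, hone0, ht, top_add] at h1
    exact absurd h1 (by simp)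
  obtain ⟨o, ho⟩ : ∃ o : L → ℤ, ∀ h, h ≠ 0 →
      meromorphicOrderAt (σ h) 0 = ((o h : ℤ) : WithTop ℤ) :=
    ⟨fun h => (meromorphicOrderAt (σ h) 0).untop₀, fun h hh =>
      (WithTop.coe_untop₀_of_ne_top (hnt h hh)).symm⟩
  have o_mul : ∀ h h' : L, h ≠ 0 → h' ≠ 0 → o (h * h') = o h + o h' := by
    intro h h' hh hh'
    have h1 := hmo h h'
    rw [ho _ (mul_ne_zero hh hh'), ho _ hh, ho _ hh'] at h1
    exact_mod_cast h1
  have o_one : o 1 = 0 := by
    have h1 := o_mul 1 1 one_ne_zero one_ne_zero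
    rw [mul_one] at h1
    omega
  have o_inv : ∀ h : L, h ≠ 0 → o h⁻¹ = - o h := by
    intro h hh
    have h1 := o_mul h h⁻¹ hh (inv_ne_zero hh)
    rw [mul_inv_cancel₀ hh, o_one] at h1
    omega
  have o_nonneg : ∀ h : L, h ≠ 0 → 0 ≤ Q.ord h → 0 ≤ o h := by
    intro h hh hq
    have h1 := hbd h hq
    rw [ho _ hh] at h1
    exact_mod_cast h1
  have o_zero : ∀ h : L, h ≠ 0 → Q.ord h = 0 → o h = 0 := by
    intro h hh hq
    have h1 := o_nonneg h hh hq.ge
    have h2 := o_nonneg h⁻¹ (inv_ne_zero hh) (by rw [Q.ord_inv, hq, neg_zero])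
    rw [o_inv h hh] at h2
    omega
  obtain ⟨u, hu0, hu1⟩ := Q.surj
  have o_pow : ∀ n : ℕ, o (u ^ n) = n * o u := by
    intro n
    induction n with
    | zero => rw [pow_zero, o_one, Nat.cast_zero, zero_mul]
    | succ n ih =>
      rw [pow_succ, o_mul _ _ (pow_ne_zero _ hu0) hu0, ih]
      push_cast
      ring
  have o_nat : ∀ (n : ℕ) (h : L), h ≠ 0 → Q.ord h = n → o h = n * o u := by
    intro n h hh hq
    have hun : u ^ n ≠ 0 := pow_ne_zero _ hu0
    have h1 : Q.ord (h * (u ^ n)⁻¹) = 0 := by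
      rw [Q.ord_mul hh (inv_ne_zero hun), Q.ord_inv, Q.ord_pow, hu1, hq]
      ring
    have h2 := o_zero _ (mul_ne_zero hh (inv_ne_zero hun)) h1
    rw [o_mul _ _ hh (inv_ne_zero hun), o_inv _ hun, o_pow] at h2
    linarith
  have o_all : ∀ h : L, h ≠ 0 → o h = Q.ord h * o u := by
    intro h hh
    rcases le_total 0 (Q.ord h) with h1 | h1
    · obtain ⟨n, hn⟩ := Int.eq_ofNat_of_zero_le h1
      rw [o_nat n h hh hn, hn]
    · obtain ⟨n, hn⟩ := Int.eq_ofNat_of_zero_le (neg_nonneg.mpr h1)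
      have h2 := o_nat n h⁻¹ (inv_ne_zero hh) (by rw [Q.ord_inv]; exact hn)
      rw [o_inv h hh] at h2
      have h3 : Q.ord h = -(n : ℤ) := by
        have : -Q.ord h = (n : ℤ) := hn
        omega
      rw [h3]
      linarith
  have o_u : 0 ≤ o u := o_nonneg u hu0 (by rw [hu1]; exact zero_le_one)
  -- positivity
  have hZ0 : ev (C X) ≠ 0 := by
    intro h0
    have h1 := hM.pole
    rw [h0, Q.ord_zero] at h1
    exact lt_irrefl _ h1
  have hZ : o (ev (C X)) < 0 := by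
    have h1 : ev (C X) * ev (C 1) = ev (C X) := by rw [C_1, map_one, mul_one]
    have h2 : σ (ev (C X)) =ᶠ[𝓝[≠] 0] fun v : ℂ => (v ^ N)⁻¹ := by
      filter_upwards [W (ev (C X)) _ _ one_ne_zero h1] with v h3
      rw [h3, evalEval_C, eval_X, eval_one, div_one]
    have h4 := (tendsto_cobounded_iff_meromorphicOrderAt_neg hx).1 (tend_x hN)
    rw [← meromorphicOrderAt_congr h2, ho _ hZ0] at h4
    exact_mod_cast h4
  have hupos : 0 < o u := by
    rcases o_u.lt_or_eq with h1 | h1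
    · exact h1
    · rw [o_all _ hZ0, ← h1, mul_zero] at hZ
      exact absurd hZ (lt_irrefl _)
  have he : ((o u).toNat : ℤ) = o u := Int.toNat_of_nonneg o_u
  refine ⟨(o u).toNat, σ, by omega, ⟨hmer, hadd, hmul, hconst, fun h hh => ?_⟩⟩
  rw [ho h hh, he, o_all h hh, mul_comm]

end Pool.Agent.H918.AH.H84

namespace Pool.Agent.H918.AH

variable {L : Type} [Field L] [Algebra ℂ L]

/-- AH-GER -/
theorem exists_germ [IsFF ℂ L] (Q : Place ℂ L) :
    ∃ (e : ℕ) (σ : L → ℂ → ℂ), 0 < e ∧ Germ Q e σ := by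
  obtain ⟨ev, P, hM⟩ := exists_model Q
  obtain ⟨B₀, hs⟩ := exists_sepOff hM
  obtain ⟨N, ρ, α, hN, hρ, -, hα, hroot⟩ := puiseux_inf hM.monic hM.pos hs
  refine H84.main_aux hM hN hα ?_
  have h1 : ball (0 : ℂ) ρ ∈ 𝓝[≠] (0 : ℂ) := nhdsWithin_le_nhds (ball_mem_nhds _ hρ)
  filter_upwards [h1, self_mem_nhdsWithin] with v h2 h3
  exact (hroot v ⟨h2, h3⟩).2

end Pool.Agent.H918.AH
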