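import Pool.Agent.H918.H.Defs
import Pool.Agent.H918.G.ExistsSepoff
import Pool.Graph.R_seed8.W603.PV.Ext

/-! # PROJECT AH (helper918): plane models over a given coordinate -/

set_option autoImplicit false

open Polynomial FF Pool.Agent.W603.LV Module IntermediateField
open scoped Polynomial.Bivariate

namespace Pool.Agent.H918.AH.H672

variable {L : Type} [Field L] [Algebra ℂ L]

/-- a plane model over the coordinate `z`, with its degree -/
theorem model_deg [IsFF ℂ L] {z : L} (hz : Transcendental ℂ z) :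
    ∃ (ev : ℂ[X][Y] →ₐ[ℂ] L) (P : ℂ[X][Y]), ev (C X) = z ∧ P.Monic ∧ 0 < P.natDegree ∧
      (∀ R : ℂ[X][Y], ev R = 0 ↔ P ∣ R) ∧
      (∀ h : L, ∃ (R : ℂ[X][Y]) (S : ℂ[X]), S ≠ 0 ∧ h * ev (C S) = ev R) ∧
      P.natDegree = finrank ℂ⟮z⟯ L := by
  open scoped algebraAdjoinAdjoin in
  classical
  let A := Algebra.adjoin ℂ {z}
  let e := Polynomial.algEquivOfTranscendental ℂ z hz
  have hpid : IsPrincipalIdealRing A := IsPrincipalIdealRing.of_surjective e.toRingEquiv e.surjective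
  have hded : IsDedekindDomain A := inferInstance
  have hint : IsIntegrallyClosed A := inferInstance
  have hfin := IsFF.finite hz
  have hchar : CharZero ℂ⟮z⟯ := charZero_of_injective_algebraMap (algebraMap ℂ ℂ⟮z⟯).injective
  have hsep : Algebra.IsSeparable ℂ⟮z⟯ L := inferInstance
  obtain ⟨α, hα⟩ := Field.exists_primitive_element ℂ⟮z⟯ L
  have hαalg : IsAlgebraic A α := by
    have h1 : IsAlgebraic ℂ⟮z⟯ α := Algebra.IsAlgebraic.isAlgebraic α
    exact (IsFractionRing.isAlgebraic_iff A ℂ⟮z⟯ L).mpr h1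
  obtain ⟨b, hb0, hbint⟩ := hαalg.exists_integral_multiple
  obtain ⟨y, hy⟩ : ∃ y : L, y = b • α := ⟨_, rfl⟩
  rw [← hy] at hbint
  -- `y` is a primitive element
  have hyalg : IsAlgebraic ℂ⟮z⟯ y := Algebra.IsAlgebraic.isAlgebraic y
  have hytop0 : ℂ⟮z⟯⟮y⟯ = ⊤ := by
    have h1 : ℂ⟮z⟯⟮α⟯ ≤ ℂ⟮z⟯⟮y⟯ := by
      rw [IntermediateField.adjoin_simple_le_iff]
      have h2 : α = (algebraMap A ℂ⟮z⟯ b)⁻¹ • y := by
        rw [hy, ← algebraMap_smul ℂ⟮z⟯ b α, smul_smul, inv_mul_cancel₀, one_smul]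
        intro h3
        exact hb0 ((IsFractionRing.injective A ℂ⟮z⟯) (by rw [h3, map_zero]))
      rw [h2]
      exact ℂ⟮z⟯⟮y⟯.smul_mem (IntermediateField.mem_adjoin_simple_self ℂ⟮z⟯ y)
    rw [hα] at h1
    exact top_le_iff.mp h1
  have hytop : ∀ h : L, ∃ q : ℂ⟮z⟯[X], aeval y q = h := by
    intro h
    have h3 : h ∈ ℂ⟮z⟯⟮y⟯ := by rw [hytop0]; exact IntermediateField.mem_top
    have h4 : h ∈ (ℂ⟮z⟯⟮y⟯).toSubalgebra := h3
    rw [IntermediateField.adjoin_simple_toSubalgebra_of_isAlgebraic hyalg,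
      Algebra.adjoin_singleton_eq_range_aeval] at h4
    exact h4
  have hdeg : (minpoly A y).natDegree = finrank ℂ⟮z⟯ L := by
    have h1 : minpoly ℂ⟮z⟯ y = (minpoly A y).map (algebraMap A ℂ⟮z⟯) :=
      minpoly.isIntegrallyClosed_eq_field_fractions ℂ⟮z⟯ L hbint
    have h2 : (minpoly ℂ⟮z⟯ y).natDegree = (minpoly A y).natDegree := by
      rw [h1, (minpoly.monic hbint).natDegree_map]
    have h3 : finrank ℂ⟮z⟯ ℂ⟮z⟯⟮y⟯ = (minpoly ℂ⟮z⟯ y).natDegree :=
      IntermediateField.adjoin.finrank hyalg.isIntegral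
    rw [← h2, ← h3, hytop0]
    exact IntermediateField.finrank_top'
  obtain ⟨ev, hev⟩ : ∃ ev : ℂ[X][Y] →ₐ[ℂ] L, ∀ R : ℂ[X][Y],
      ev R = aeval y (R.map (e : ℂ[X] →+* A)) :=
    ⟨((aeval y : A[X] →ₐ[A] L).restrictScalars ℂ).comp (Polynomial.mapAlgHom (e : ℂ[X] →ₐ[ℂ] A)),
      fun R => rfl⟩
  have hes : ∀ q : A[X], (q.map (e.symm : A →+* ℂ[X])).map (e : ℂ[X] →+* A) = q := by
    intro q
    rw [Polynomial.map_map]
    have h1 : ((e : ℂ[X] →+* A).comp (e.symm : A →+* ℂ[X])) = RingHom.id A := by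
      ext x
      simp
    rw [h1, Polynomial.map_id]
  have hse : ∀ q : ℂ[X][Y], (q.map (e : ℂ[X] →+* A)).map (e.symm : A →+* ℂ[X]) = q := by
    intro q
    rw [Polynomial.map_map]
    have h1 : ((e.symm : A →+* ℂ[X]).comp (e : ℂ[X] →+* A)) = RingHom.id ℂ[X] := by
      ext x <;> simp
    rw [h1, Polynomial.map_id]
  have hevC : ∀ S : ℂ[X], ev (C S) = algebraMap A L (e S) := by
    intro S
    rw [hev, Polynomial.map_C, aeval_C]
    rfl
  refine ⟨ev, (minpoly A y).map (e.symm : A →+* ℂ[X]), ?_, ?_, ?_, ?_, ?_, ?_⟩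
  · rw [hevC]
    have h1 : e X = ⟨z, Algebra.self_mem_adjoin_singleton ℂ z⟩ :=
      Polynomial.algEquivOfTranscendental_apply_X ℂ z hz
    rw [h1]
    rfl
  · exact (minpoly.monic hbint).map _
  · rw [(minpoly.monic hbint).natDegree_map]
    exact minpoly.natDegree_pos hbint
  · intro R
    rw [hev, minpoly.isIntegrallyClosed_dvd_iff hbint]
    constructor
    · intro h
      have h1 := Polynomial.map_dvd (e.symm : A →+* ℂ[X]) h
      rwa [hse] at h1
    · intro h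
      have h1 := Polynomial.map_dvd (e : ℂ[X] →+* A) h
      rwa [hes] at h1
  · intro h
    obtain ⟨q, hq⟩ := hytop h
    obtain ⟨b', hb', hb'q⟩ := IsLocalization.integerNormalization_spec (nonZeroDivisors A) q
    obtain ⟨R', hR'⟩ : ∃ R' : A[X], R' = IsLocalization.integerNormalization (nonZeroDivisors A) q :=
      ⟨_, rfl⟩
    rw [← hR'] at hb'q
    have h1 : aeval y R' = algebraMap A L b' * h := by
      have h2 : aeval y (R'.map (algebraMap A ℂ⟮z⟯)) = aeval y R' := Polynomial.aeval_map_algebraMap _ _ _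
      rw [← h2, hb'q, ← hq]
      show aeval y (b' • q) = algebraMap A L b' * aeval y q
      rw [← algebraMap_smul ℂ⟮z⟯ b' q, map_smul, algebraMap_smul, Algebra.smul_def]
    refine ⟨R'.map (e.symm : A →+* ℂ[X]), e.symm b', ?_, ?_⟩
    · intro h2
      have h3 : b' = 0 := by
        have h4 := congrArg e h2
        rwa [AlgEquiv.apply_symm_apply, map_zero] at h4
      exact nonZeroDivisors.ne_zero hb' h3
    · rw [hevC, hev, hes, h1, AlgEquiv.apply_symm_apply, mul_comm]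
  · rw [(minpoly.monic hbint).natDegree_map]
    exact hdeg

end Pool.Agent.H918.AH.H672

namespace Pool.Agent.H918.AH

open Pool.Agent.W603.PV
open Filter Topology Metric
open Pool.Agent.H918.PF

variable {L : Type} [Field L] [Algebra ℂ L] {Λ : PeriodPair} {a b : L} {D : Derivation ℂ L L}
  {ev : ℂ[X][Y] →ₐ[ℂ] L} {P : ℂ[X][Y]} {B₀ : Finset ℂ}

/-- AH-PM -/
theorem exists_pm [IsFF ℂ L] (ha : Transcendental ℂ a) :
    ∃ (ev : ℂ[X][Y] →ₐ[ℂ] L) (P : ℂ[X][Y]) (B₀ : Finset ℂ), PM a ev P ∧ SepOff P B₀ := by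
  obtain ⟨ev, P, h1, h2, h3, h4, h5, h6⟩ := H672.model_deg ha
  have hprime : Prime P := by
    refine ⟨h2.ne_zero, ?_, ?_⟩
    · intro hu
      have h7 := natDegree_eq_zero_of_isUnit hu
      omega
    · intro p q hpq
      have h7 := (h4 _).2 hpq
      rw [map_mul, mul_eq_zero] at h7
      rcases h7 with h | h
      · exact Or.inl ((h4 _).1 h)
      · exact Or.inr ((h4 _).1 h)
  obtain ⟨B₀, hB⟩ := Pool.Agent.H918.PF.H155.sep_of_prime h2 hprime
  refine ⟨ev, P, B₀, ⟨h2, h3, h4, h5, h1, ?_⟩, hB⟩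
  rw [h6, hgt_eq_finrank ha]

end Pool.Agent.H918.AH
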