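import Pool.Agent.H918.H.L3

/-! PROJECT AH (helper918): `exists_sec`, by helper295. -/

set_option autoImplicit false

open Polynomial FF Pool.Agent.W603.LV Pool.Agent.W603.PV Pool.Agent.W602.GT Pool.Agent.N154.GG
open Filter Topology Metric
open Pool.Agent.Y216 (OnVar CurveBound)
open Pool.Agent.H918.SS (ProjVariety HasReduction)
open Pool.Agent.H918.PF
open scoped Polynomial.Bivariate LinearAlgebra.Projectivization

namespace Pool.Agent.H918.AH

variable {L : Type} [Field L] [Algebra ℂ L] {Λ : PeriodPair} {a b : L} {D : Derivation ℂ L L}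
  {ev : ℂ[X][Y] →ₐ[ℂ] L} {P : ℂ[X][Y]} {B₀ : Finset ℂ}

namespace H295

theorem ell_neg (hE : EllData Λ a b D) : EllData Λ a (-b) (-D) where
  tr := hE.tr
  ne := neg_ne_zero.2 hE.ne
  eq := by rw [neg_sq, hE.eq]
  der := by
    rw [← hE.der]
    rfl

theorem D_ne (hE : EllData Λ a b D) : D ≠ 0 := by
  rintro rfl
  exact hE.ne (hE.der.symm.trans rfl)

theorem vo_neg (Q : Place ℂ L) (D : Derivation ℂ L L) : vo Q (-D) = vo Q D := by
  unfold vo
  rw [Derivation.neg_apply, Q.ord_neg]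

theorem over_neg {Q : Place ℂ L} {s : ℂ} (h : Over Λ a b Q (-s)) : Over Λ a (-b) Q s := by
  rcases h with ⟨h1, h2⟩ | ⟨h1, h2, h3⟩
  · left
    refine ⟨?_, h2⟩
    have := Λ.lattice.neg_mem h1
    rwa [neg_neg] at this
  · right
    refine ⟨fun h4 => h1 (Λ.lattice.neg_mem h4), ?_, ?_⟩
    · rwa [PeriodPair.weierstrassP_neg] at h2
    · rw [PeriodPair.derivWeierstrassP_neg, map_neg, sub_neg_eq_add] at h3
      have h4 := h3.neg
      rwa [neg_add, ← sub_eq_add_neg] at h4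

theorem good_all [IsFF ℂ L] (hE : EllData Λ a b D) {Q : Place ℂ L} (h0 : vo Q D = 0) {s : ℂ}
    (h : Over Λ a b Q s) : Good Λ a b Q s := by
  by_cases hs : s ∈ Λ.lattice
  · exact good_c hE h0 hs h
  · by_cases hs2 : Λ.derivWeierstrassP s = 0
    · exact good_b hE h0 hs hs2 h
    · exact good_a hE h0 hs hs2 h

/-- the sum of the orders over any finite set of places is at most the canonical degree -/
theorem sum_le_canDeg [IsFF ℂ L] (hE : EllData Λ a b D) (𝒬 : Finset (Place ℂ L)) :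
    ∑ Q ∈ 𝒬, -vo Q D ≤ canDeg ℂ L := by
  classical
  have hD := D_ne hE
  obtain ⟨S, hS⟩ : ∃ S : Finset (Place ℂ L), ∀ Q, vo Q D ≠ 0 → Q ∈ S :=
    ⟨(vo_finite hD).toFinset, fun Q hQ => (vo_finite hD).mem_toFinset.2 hQ⟩
  have h1 := canDeg_finset hD (𝒬 ∪ S) fun Q hQ => Finset.mem_union_right _ (hS Q hQ)
  have h2 : ∑ Q ∈ 𝒬 ∪ S, -vo Q D = canDeg ℂ L := by
    rw [Finset.sum_neg_distrib, h1, neg_neg]
  rw [← h2]
  exact Finset.sum_le_sum_of_subset_of_nonneg Finset.subset_union_left fun Q _ _ => by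
    have := vo_nonpos hE Q
    omega

end H295

open H295 in
/-- AH-SEC -/
theorem exists_sec (Λ : PeriodPair) {R : ℝ} (hR : 0 < R) :
    ∃ N : ℕ, ∀ (L : Type) [Field L] [Algebra ℂ L] [IsFF ℂ L] (a b : L) (D : Derivation ℂ L L)
      (ev : ℂ[X][Y] →ₐ[ℂ] L) (P : ℂ[X][Y]) (B₀ : Finset ℂ), EllData Λ a b D → PM a ev P →
        SepOff P B₀ → N * canDeg ℂ L < hgt ℂ a → ∃ q : ℂ → ℂ, Sec Λ P B₀ (ball 0 R) q := by
  classical
  obtain ⟨N₀, hN₀⟩ := coset_count Λ R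
  refine ⟨8 * N₀, ?_⟩
  intro L _ _ _ a b D ev P B₀ hE hM hs hlt
  -- the bad points
  obtain ⟨T, hT⟩ : ∃ T : Finset ℂ, ∀ t, t ∈ T ↔ t ∈ Bad Λ B₀ ∧ t ∈ ball (0 : ℂ) R := by
    have h1 : (Bad Λ B₀ ∩ ball 0 R).Finite :=
      (bad_finite Λ B₀ R).subset (Set.inter_subset_inter_right _ ball_subset_closedBall)
    exact ⟨h1.toFinset, fun t => h1.mem_toFinset⟩
  have hTR : ∀ t ∈ T, ‖t‖ ≤ R := fun t ht => by
    have := ((hT t).1 ht).2
    rw [mem_ball_zero_iff] at this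
    exact this.le
  choose T₁ T₂ h₁ h₂ T₃ h₃ hh using loss hE
  obtain ⟨w, hw⟩ : ∃ w : Place ℂ L → ℤ, ∀ Q, w Q = -vo Q D := ⟨_, fun Q => rfl⟩
  have hw0 : ∀ Q, 0 ≤ w Q := fun Q => by
    have := vo_nonpos hE Q
    rw [hw]
    omega
  obtain ⟨δ, hδ⟩ : ∃ δ : ℂ → ℕ, ∀ s, δ s = (4 * ∑ Q ∈ T₃ s, w Q).toNat := ⟨_, fun s => rfl⟩
  have hδ' : ∀ s, (δ s : ℤ) = 4 * ∑ Q ∈ T₃ s, w Q := fun s => by
    rw [hδ]
    exact Int.toNat_of_nonneg (mul_nonneg (by norm_num) (Finset.sum_nonneg fun Q _ => hw0 Q))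
  have hch : ∀ (Q : Place ℂ L) (u : L), Q.ord u = 1 → ∃ σ : L → ℂ → ℂ, Chart Q u σ := by
    intro Q u hu
    obtain ⟨e, σ, he, hσ⟩ := exists_germ Q
    exact chart_of_germ he hσ hu
  -- the local count
  have hloc : ∀ s ∈ T, ∃ (ε : ℝ) (k : ℕ), 0 < ε ∧ Cnt Λ P B₀ (ball s ε) k ∧
      P.natDegree ≤ k + δ s := by
    intro s hsT
    obtain ⟨ε, hε, hc⟩ := cnt_local hE hM hs ((hT s).1 hsT).1 (T₁ := T₁ s) (T₂ := T₂ s)
      (fun Q hQ => good_all hE (h₁ s Q hQ).1 (h₁ s Q hQ).2)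
      (fun Q hQ => good_all (ell_neg hE) (by rw [vo_neg]; exact (h₂ s Q hQ).1)
        (over_neg (h₂ s Q hQ).2)) hch
    refine ⟨ε, _, hε, hc, ?_⟩
    have h4 := hh s
    have h5 := hδ' s
    simp only [← hw] at h4
    rw [← hM.deg] at h4
    zify
    omega
  -- the sum of the defects
  have hcard : ∀ Q : Place ℂ L, (T.filter fun s => Over Λ a b Q s).card ≤ N₀ := by
    intro Q
    rcases (T.filter fun s => Over Λ a b Q s).eq_empty_or_nonempty with h | ⟨s₀, hs₀⟩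
    · rw [h, Finset.card_empty]
      exact Nat.zero_le _
    · refine hN₀ s₀ _ fun s hs' => ?_
      rw [Finset.mem_filter] at hs₀ hs'
      exact ⟨hTR s hs'.1, pair_inj hs'.2 hs₀.2⟩
  have hcard' : ∀ Q : Place ℂ L, (T.filter fun s => Over Λ a b Q (-s)).card ≤ N₀ := by
    intro Q
    rcases (T.filter fun s => Over Λ a b Q (-s)).eq_empty_or_nonempty with h | ⟨s₀, hs₀⟩
    · rw [h, Finset.card_empty]
      exact Nat.zero_le _
    · refine hN₀ s₀ _ fun s hs' => ?_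
      rw [Finset.mem_filter] at hs₀ hs'
      refine ⟨hTR s hs'.1, ?_⟩
      have h4 := Λ.lattice.neg_mem (pair_inj hs'.2 hs₀.2)
      have h5 : -(-s - -s₀) = s - s₀ := by ring
      rwa [h5] at h4
  have hsum : ∑ s ∈ T, (δ s : ℤ) ≤ 8 * N₀ * canDeg ℂ L := by
    have h4 : ∑ s ∈ T, (δ s : ℤ) = 4 * ∑ s ∈ T, ∑ Q ∈ T₃ s, w Q := by
      rw [Finset.mul_sum]
      exact Finset.sum_congr rfl fun s _ => hδ' s
    have h5 : ∑ s ∈ T, ∑ Q ∈ T₃ s, w Q =
        ∑ Q ∈ T.biUnion T₃, ∑ s ∈ T with Q ∈ T₃ s, w Q := by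
      rw [Finset.sum_comm']
      intro s Q
      rw [Finset.mem_biUnion, Finset.mem_filter]
      constructor
      · rintro ⟨h6, h7⟩
        exact ⟨⟨h6, h7⟩, s, h6, h7⟩
      · rintro ⟨h6, -⟩
        exact h6
    have h6 : ∀ Q ∈ T.biUnion T₃, ∑ s ∈ T with Q ∈ T₃ s, w Q ≤ 2 * N₀ * w Q := by
      intro Q _
      rw [Finset.sum_const, nsmul_eq_mul]
      apply mul_le_mul_of_nonneg_right _ (hw0 Q)
      have h7 : (T.filter fun s => Q ∈ T₃ s) ⊆
          (T.filter fun s => Over Λ a b Q s) ∪ (T.filter fun s => Over Λ a b Q (-s)) := by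
        intro s hs'
        rw [Finset.mem_filter] at hs'
        rw [Finset.mem_union, Finset.mem_filter, Finset.mem_filter]
        rcases (h₃ s Q hs'.2).2 with h8 | h8
        · exact Or.inl ⟨hs'.1, h8⟩
        · exact Or.inr ⟨hs'.1, h8⟩
      have h8 := (Finset.card_le_card h7).trans (Finset.card_union_le _ _)
      have h9 := hcard Q
      have h10 := hcard' Q
      have h11 : (T.filter fun s => Q ∈ T₃ s).card ≤ 2 * N₀ := by omega
      exact_mod_cast h11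
    have h7 := Finset.sum_le_sum h6
    rw [← Finset.mul_sum] at h7
    have h8 : ∑ Q ∈ T.biUnion T₃, w Q ≤ canDeg ℂ L := by
      have := sum_le_canDeg hE (T.biUnion T₃)
      simp only [← hw] at this
      exact this
    have h9 : (2 * N₀ : ℤ) * ∑ Q ∈ T.biUnion T₃, w Q ≤ 2 * N₀ * canDeg ℂ L :=
      mul_le_mul_of_nonneg_left h8 (by positivity)
    rw [h4, h5]
    calc 4 * ∑ Q ∈ T.biUnion T₃, ∑ s ∈ T with Q ∈ T₃ s, w Q
        ≤ 4 * (2 * N₀ * canDeg ℂ L) := by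
          apply mul_le_mul_of_nonneg_left (h7.trans h9) (by norm_num)
      _ = _ := by ring
  have hfin : 1 + ∑ s ∈ T, δ s ≤ P.natDegree := by
    have h4 := hM.deg
    zify
    push_cast at hlt
    rw [h4]
    have h5 : ∑ s ∈ T, (δ s : ℤ) < hgt ℂ a := lt_of_le_of_lt hsum hlt
    omega
  -- the sections
  obtain ⟨q, hq, -⟩ := cnt_all hM.monic hs δ T (ball 0 R) isOpen_ball (convex_ball 0 R)
    (fun s hs' => ((hT s).1 hs').2) (fun t ht htT hb => htT ((hT t).2 ⟨hb, ht⟩)) hloc 1 hfin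
  exact ⟨q 0, hq 0⟩

end Pool.Agent.H918.AH
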