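import Pool.Agent.H918.H.Defs
import Pool.Graph.R_seed8.W603.LV.Can

/-!
# AH-UA: unramified places over the points which are not of order two (helper199 for helper918)
-/

set_option autoImplicit false

open Polynomial FF Pool.Agent.W603.LV Pool.Agent.W603.PV
open Filter Topology Metric
open scoped Polynomial.Bivariate

namespace Pool.Agent.H918.AH

variable {L : Type} [Field L] [Algebra ℂ L] {Λ : PeriodPair} {a b : L} {D : Derivation ℂ L L}

namespace H199

theorem tendsto_zero {Q : Place ℂ L} {e : ℕ} (he : 0 < e) {σ : L → ℂ → ℂ} (hσ : Germ Q e σ)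
    {h : L} (hh : Ge Q 1 h) : Tendsto (σ h) (𝓝[≠] 0) (𝓝 0) := by
  by_cases h0 : h = 0
  · have h1 := hσ.const 0
    rw [map_zero, ← h0] at h1
    exact tendsto_const_nhds.congr' (h1.mono fun v hv => hv.symm)
  · rw [tendsto_zero_iff_meromorphicOrderAt_pos (hσ.mer h), hσ.ord h h0]
    have h1 := hh.resolve_left h0
    have h2 : (0 : ℤ) < e * Q.ord h := mul_pos (by exact_mod_cast he) (by omega)
    exact_mod_cast h2

/-- the germs satisfy the equation of the curve -/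
theorem eqn {Q : Place ℂ L} {e : ℕ} {σ : L → ℂ → ℂ} (hσ : Germ Q e σ) (hE : EllData Λ a b D) :
    ∀ᶠ v in 𝓝[≠] (0 : ℂ), σ b v ^ 2 = 4 * σ a v ^ 3 - Λ.g₂ * σ a v - Λ.g₃ := by
  have h1 : b * b + (algebraMap ℂ L Λ.g₂ * a + algebraMap ℂ L Λ.g₃) =
      algebraMap ℂ L 4 * (a * (a * a)) := by
    have h2 := hE.eq
    have h3 : algebraMap ℂ L 4 = 4 := map_ofNat _ 4
    rw [h3]
    linear_combination h2
  have e0 := hσ.add (b * b) (algebraMap ℂ L Λ.g₂ * a + algebraMap ℂ L Λ.g₃)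
  rw [h1] at e0
  filter_upwards [e0, hσ.mul b b, hσ.add (algebraMap ℂ L Λ.g₂ * a) (algebraMap ℂ L Λ.g₃),
    hσ.mul (algebraMap ℂ L Λ.g₂) a, hσ.const Λ.g₂, hσ.const Λ.g₃,
    hσ.mul (algebraMap ℂ L 4) (a * (a * a)), hσ.const 4, hσ.mul a (a * a), hσ.mul a a]
    with v e0 e1 e2 e3 e4 e5 e6 e7 e8 e9
  rw [e6, e7, e8, e9, e1, e2, e3, e4, e5] at e0
  linear_combination -e0

theorem ord_b {Q : Place ℂ L} {c : ℂ} (hc : c ≠ 0) (h : Ge Q 1 (b - algebraMap ℂ L c)) :
    Q.ord b = 0 := by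
  have h1 : Q.ord (algebraMap ℂ L c) = 0 := Q.ord_const hc
  have hc0 : algebraMap ℂ L c ≠ 0 := fun h2 => hc ((map_eq_zero _).1 h2)
  by_cases h0 : b - algebraMap ℂ L c = 0
  · rw [sub_eq_zero.1 h0, h1]
  · have h2 := h.resolve_left h0
    have h3 := Q.ord_add_eq (f := algebraMap ℂ L c) (g := b - algebraMap ℂ L c) hc0 h0 (by omega)
    rw [add_sub_cancel, h1] at h3
    exact h3.2

end H199

open H199

/-- AH-UA -/
theorem good_a [IsFF ℂ L] (hE : EllData Λ a b D) {Q : Place ℂ L} (h0 : vo Q D = 0) {s : ℂ}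
    (hs : s ∉ Λ.lattice) (hs2 : Λ.derivWeierstrassP s ≠ 0) (h : Over Λ a b Q s) :
    Good Λ a b Q s := by
  obtain ⟨h1, h2⟩ : Ge Q 1 (a - algebraMap ℂ L (Λ.weierstrassP s)) ∧
      Ge Q 1 (b - algebraMap ℂ L (Λ.derivWeierstrassP s)) := by
    rcases h with h | h
    · exact absurd h.1 hs
    · exact h.2
  obtain ⟨u, hu⟩ : ∃ u, u = a - algebraMap ℂ L (Λ.weierstrassP s) := ⟨_, rfl⟩
  have hau : a = u + algebraMap ℂ L (Λ.weierstrassP s) := by rw [hu]; ring
  have hu0 : u ≠ 0 := by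
    intro h3
    apply hE.tr
    rw [hau, h3, zero_add]
    exact isAlgebraic_algebraMap _
  have hD : D ≠ 0 := by
    intro h3
    have h4 := hE.der
    rw [h3] at h4
    exact hE.ne h4.symm
  have hDu : D u = b := by
    rw [hu, map_sub, D.map_algebraMap, sub_zero, hE.der]
  have hord : Q.ord u = 1 := by
    rw [← hu] at h1
    have h3 := h1.resolve_left hu0
    have h4 := (ord_der Q hD (f := u) (by omega)).2
    rw [hDu, h0, ord_b hs2 h2] at h4
    omega
  have hPan := Λ.analyticOnNhd_weierstrassP s hs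
  have hPd : HasDerivAt Λ.weierstrassP (Λ.derivWeierstrassP s) s := by
    have h3 := hPan.differentiableAt.hasDerivAt
    rwa [Λ.deriv_weierstrassP] at h3
  have hφd : HasDerivAt (fun t => Λ.weierstrassP t - Λ.weierstrassP s) (Λ.derivWeierstrassP s) s :=
    hPd.sub_const _
  refine ⟨u, fun t => Λ.weierstrassP t - Λ.weierstrassP s, hord, hPan.sub analyticAt_const,
    sub_self _, by rw [hφd.deriv]; exact hs2, fun σ hσ => ?_⟩
  have hφt : Tendsto (fun t => Λ.weierstrassP t - Λ.weierstrassP s) (𝓝[≠] s) (𝓝[≠] 0) := by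
    have h3 := hφd.tendsto_nhdsNE hs2
    simpa only [sub_self] using h3
  have hA : ∀ᶠ v in 𝓝[≠] (0 : ℂ), σ a v = v + Λ.weierstrassP s := by
    have h3 := hσ.add u (algebraMap ℂ L (Λ.weierstrassP s))
    rw [← hau] at h3
    filter_upwards [h3, hσ.unif, hσ.const (Λ.weierstrassP s)] with v e1 e2 e3
    rw [e1, e2, e3]
  have hB : Tendsto (σ b) (𝓝[≠] 0) (𝓝 (Λ.derivWeierstrassP s)) := by
    have h3 := hσ.add (b - algebraMap ℂ L (Λ.derivWeierstrassP s))
      (algebraMap ℂ L (Λ.derivWeierstrassP s))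
    rw [sub_add_cancel] at h3
    have h4 : ∀ᶠ v in 𝓝[≠] (0 : ℂ),
        σ (b - algebraMap ℂ L (Λ.derivWeierstrassP s)) v + Λ.derivWeierstrassP s = σ b v := by
      filter_upwards [h3, hσ.const (Λ.derivWeierstrassP s)] with v e1 e2
      rw [e1, e2]
    have h5 := (tendsto_zero one_pos hσ.toGerm h2).add_const (Λ.derivWeierstrassP s)
    rw [zero_add] at h5
    exact h5.congr' h4
  have hP'c : Tendsto Λ.derivWeierstrassP (𝓝[≠] s) (𝓝 (Λ.derivWeierstrassP s)) :=
    ((Λ.analyticOnNhd_derivWeierstrassP s hs).continuousAt.tendsto).mono_left nhdsWithin_le_nhds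
  have hsum : Tendsto (fun t => σ b (Λ.weierstrassP t - Λ.weierstrassP s) +
      Λ.derivWeierstrassP t) (𝓝[≠] s) (𝓝 (Λ.derivWeierstrassP s + Λ.derivWeierstrassP s)) :=
    (hB.comp hφt).add hP'c
  have hne : ∀ᶠ t in 𝓝[≠] s, σ b (Λ.weierstrassP t - Λ.weierstrassP s) +
      Λ.derivWeierstrassP t ≠ 0 := by
    refine hsum.eventually_ne ?_
    rw [← two_mul]
    exact mul_ne_zero two_ne_zero hs2
  have hlat : ∀ᶠ t in 𝓝[≠] s, t ∉ Λ.lattice :=
    nhdsWithin_le_nhds (Λ.isClosed_lattice.isOpen_compl.mem_nhds hs)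
  filter_upwards [hφt.eventually hA, hφt.eventually (eqn hσ.toGerm hE), hne, hlat]
    with t e1 e2 e3 e4
  have e5 : σ a (Λ.weierstrassP t - Λ.weierstrassP s) = Λ.weierstrassP t := by
    rw [e1, sub_add_cancel]
  refine ⟨e5, ?_⟩
  rw [e5, ← Λ.derivWeierstrassP_sq t e4] at e2
  have e6 : (σ b (Λ.weierstrassP t - Λ.weierstrassP s) - Λ.derivWeierstrassP t) *
      (σ b (Λ.weierstrassP t - Λ.weierstrassP s) + Λ.derivWeierstrassP t) = 0 := by
    linear_combination e2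
  exact sub_eq_zero.1 ((mul_eq_zero.1 e6).resolve_right e3)

end Pool.Agent.H918.AH
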