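import Pool.Agent.H918.H.Defs
import Pool.Agent.H918.G.EtaReg
import Pool.Agent.H918.G.DiscrNe

/-! PROJECT AH: the task `good_b`. -/

set_option autoImplicit false

open Polynomial FF Pool.Agent.W603.LV Pool.Agent.W603.PV
open Filter Topology Metric
open Pool.Agent.H918.PF
open scoped Polynomial.Bivariate LinearAlgebra.Projectivization

namespace Pool.Agent.H918.AH

namespace H162

/-- `℘` is not constant near a point outside of the lattice. -/
theorem wp_not_const (Λ : PeriodPair) {s : ℂ} (hs : s ∉ Λ.lattice) (c : ℂ) :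
    ¬ ∀ᶠ w in 𝓝 s, Λ.weierstrassP w = c := by
  intro h0
  have hcount : (Λ.lattice : Set ℂ).Countable := by
    have : Countable Λ.lattice := inferInstance
    exact Set.countable_coe_iff.1 this
  have hconn : IsConnected ((Λ.lattice : Set ℂ)ᶜ) :=
    hcount.isConnected_compl_of_one_lt_rank (by
      rw [Complex.rank_real_complex]
      exact Nat.one_lt_ofNat)
  have h1 : Set.EqOn Λ.weierstrassP (fun _ => c) ((Λ.lattice : Set ℂ)ᶜ) :=
    Λ.analyticOnNhd_weierstrassP.eqOn_of_preconnected_of_eventuallyEq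
      (fun _ _ => analyticAt_const) hconn.isPreconnected hs h0
  obtain ⟨z', hz', hze'⟩ := DiscrAux.P_surj Λ (c + 1)
  have h2 := h1 hz'
  rw [hze'] at h2
  simp at h2

/-- `℘'` does not vanish near a point outside of the lattice. -/
theorem wpd_not_zero (Λ : PeriodPair) {s : ℂ} (hs : s ∉ Λ.lattice) :
    ¬ ∀ᶠ w in 𝓝 s, Λ.derivWeierstrassP w = 0 := by
  intro h0
  have hev : ∀ᶠ w in 𝓝 s, w ∉ Λ.lattice := Λ.isClosed_lattice.isOpen_compl.mem_nhds hs
  obtain ⟨r, hr, hball⟩ := Metric.eventually_nhds_iff_ball.1 (h0.and hev)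
  have hd : DifferentiableOn ℂ Λ.weierstrassP (ball s r) := fun w hw =>
    ((Λ.analyticOnNhd_weierstrassP w (hball w hw).2).differentiableAt).differentiableWithinAt
  have hd0 : Set.EqOn (deriv Λ.weierstrassP) 0 (ball s r) := by
    intro w hw
    rw [Λ.deriv_weierstrassP]
    exact (hball w hw).1
  refine wp_not_const Λ hs (Λ.weierstrassP s) ?_
  filter_upwards [ball_mem_nhds s hr] with w hw
  exact isOpen_ball.is_const_of_deriv_eq_zero (convex_ball s r).isPreconnected hd hd0 hw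
    (mem_ball_self hr)

/-- The second derivative. -/
theorem wp_second (Λ : PeriodPair) {s : ℂ} (hs : s ∉ Λ.lattice) :
    2 * deriv Λ.derivWeierstrassP s = 12 * Λ.weierstrassP s ^ 2 - Λ.g₂ := by
  have hPa := Λ.analyticOnNhd_weierstrassP
  have hQa := Λ.analyticOnNhd_derivWeierstrassP
  have hev : ∀ᶠ w in 𝓝 s, w ∉ Λ.lattice := Λ.isClosed_lattice.isOpen_compl.mem_nhds hs
  have h1 : ∀ᶠ w in 𝓝 s, Λ.derivWeierstrassP w *
      (2 * deriv Λ.derivWeierstrassP w - (12 * Λ.weierstrassP w ^ 2 - Λ.g₂)) = 0 := by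
    filter_upwards [hev] with w hw
    have hevw : ∀ᶠ x in 𝓝 w, x ∉ Λ.lattice := Λ.isClosed_lattice.isOpen_compl.mem_nhds hw
    have e1 : (fun x => Λ.derivWeierstrassP x ^ 2) =ᶠ[𝓝 w]
        (fun x => 4 * Λ.weierstrassP x ^ 3 - Λ.g₂ * Λ.weierstrassP x - Λ.g₃) := by
      filter_upwards [hevw] with x hx
      exact Λ.derivWeierstrassP_sq x hx
    have hP : HasDerivAt Λ.weierstrassP (Λ.derivWeierstrassP w) w := by
      have := (hPa w hw).differentiableAt.hasDerivAt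
      rwa [Λ.deriv_weierstrassP] at this
    have hQ : HasDerivAt Λ.derivWeierstrassP (deriv Λ.derivWeierstrassP w) w :=
      (hQa w hw).differentiableAt.hasDerivAt
    have d1 : HasDerivAt (fun x => Λ.derivWeierstrassP x ^ 2)
        (2 * Λ.derivWeierstrassP w * deriv Λ.derivWeierstrassP w) w := by
      have := hQ.fun_pow 2
      simpa using this
    have d2 : HasDerivAt (fun x => 4 * Λ.weierstrassP x ^ 3 - Λ.g₂ * Λ.weierstrassP x - Λ.g₃)
        (4 * (3 * Λ.weierstrassP w ^ 2 * Λ.derivWeierstrassP w) - Λ.g₂ * Λ.derivWeierstrassP w) w := by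
      have h3 := (hP.fun_pow 3).const_mul 4
      have h4 := hP.const_mul Λ.g₂
      have h5 := (h3.sub h4).sub_const Λ.g₃
      simpa using h5
    have d3 := d1.unique (d2.congr_of_eventuallyEq e1)
    linear_combination d3
  have hQs : AnalyticAt ℂ Λ.derivWeierstrassP s := hQa s hs
  have hPs : AnalyticAt ℂ Λ.weierstrassP s := hPa s hs
  have hne : ∀ᶠ w in 𝓝[≠] s, Λ.derivWeierstrassP w ≠ 0 :=
    hQs.eventually_eq_zero_or_eventually_ne_zero.resolve_left (wpd_not_zero Λ hs)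
  have h2 : ∀ᶠ w in 𝓝[≠] s, 2 * deriv Λ.derivWeierstrassP w = 12 * Λ.weierstrassP w ^ 2 - Λ.g₂ := by
    filter_upwards [hne, h1.filter_mono nhdsWithin_le_nhds] with w hw1 hw2
    exact sub_eq_zero.1 ((mul_eq_zero.1 hw2).resolve_left hw1)
  have c1 : Tendsto (fun w => 2 * deriv Λ.derivWeierstrassP w) (𝓝[≠] s)
      (𝓝 (2 * deriv Λ.derivWeierstrassP s)) := by
    have : ContinuousAt (fun w => 2 * deriv Λ.derivWeierstrassP w) s :=
      continuousAt_const.mul hQs.deriv.continuousAt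
    exact this.tendsto.mono_left nhdsWithin_le_nhds
  have c2 : Tendsto (fun w => 12 * Λ.weierstrassP w ^ 2 - Λ.g₂) (𝓝[≠] s)
      (𝓝 (12 * Λ.weierstrassP s ^ 2 - Λ.g₂)) := by
    have : ContinuousAt (fun w => 12 * Λ.weierstrassP w ^ 2 - Λ.g₂) s :=
      (continuousAt_const.mul (hPs.continuousAt.pow 2)).sub continuousAt_const
    exact this.tendsto.mono_left nhdsWithin_le_nhds
  exact tendsto_nhds_unique (c1.congr' h2) c2

/-- The second derivative does not vanish at the points of order two. -/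
theorem wp_simple (Λ : PeriodPair) {s : ℂ} (hs : s ∉ Λ.lattice) (h : Λ.derivWeierstrassP s = 0) :
    12 * Λ.weierstrassP s ^ 2 - Λ.g₂ ≠ 0 := by
  intro h1
  have h2 := Λ.derivWeierstrassP_sq s hs
  rw [h] at h2
  have e2 : Λ.g₂ = 12 * Λ.weierstrassP s ^ 2 := (sub_eq_zero.1 h1).symm
  have e3 : Λ.g₃ = -8 * Λ.weierstrassP s ^ 3 := by
    rw [e2] at h2
    linear_combination h2
  refine discr_ne Λ ?_
  rw [e2, e3]
  ring

end H162

open H162

variable {L : Type} [Field L] [Algebra ℂ L] {Λ : PeriodPair} {a b : L} {D : Derivation ℂ L L}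

/-- AH-UB -/
theorem good_b [IsFF ℂ L] (hE : EllData Λ a b D) {Q : Place ℂ L} (h0 : vo Q D = 0) {s : ℂ}
    (hs : s ∉ Λ.lattice) (hs2 : Λ.derivWeierstrassP s = 0) (h : Over Λ a b Q s) :
    Good Λ a b Q s := by
  have hD : D ≠ 0 := by
    rintro rfl
    exact hE.ne (by rw [← hE.der]; rfl)
  obtain ⟨-, hA, hB⟩ := h.resolve_left (fun h' => hs h'.1)
  have hB' : Ge Q 1 b := by
    rw [hs2, map_zero, sub_zero] at hB
    exact hB
  have hb1 : 1 ≤ Q.ord b := hB'.resolve_left hE.ne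
  have hsimp := wp_simple Λ hs hs2
  have hder : 2 * D b = (12 * a ^ 2 - algebraMap ℂ L Λ.g₂) * 1 :=
    PF.H807.der_eq hE.eq hE.ne (by rw [one_mul, hE.der])
  rw [mul_one] at hder
  obtain ⟨p, hp⟩ : ∃ p, p = Λ.weierstrassP s := ⟨_, rfl⟩
  rw [← hp] at hA hsimp
  have e12 : (12 : L) = algebraMap ℂ L 12 := (map_ofNat (algebraMap ℂ L) 12).symm
  have e2 : (2 : L) = algebraMap ℂ L 2 := (map_ofNat (algebraMap ℂ L) 2).symm
  have hsum : 2 * D b = algebraMap ℂ L (12 * p ^ 2 - Λ.g₂) +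
      (a - algebraMap ℂ L p) * (algebraMap ℂ L 12 * ((a - algebraMap ℂ L p) + algebraMap ℂ L (2 * p))) := by
    rw [hder, map_sub, map_mul, map_pow, map_mul, ← e12, ← e2]
    ring
  have hr : Ge Q 1 ((a - algebraMap ℂ L p) *
      (algebraMap ℂ L 12 * ((a - algebraMap ℂ L p) + algebraMap ℂ L (2 * p)))) := by
    have h1 : Ge Q 0 ((a - algebraMap ℂ L p) + algebraMap ℂ L (2 * p)) :=
      (hA.mono (by norm_num)).add (Ge.const _)
    have h2 := (Ge.const (P := Q) (12 : ℂ)).mul h1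
    have h3 := hA.mul h2
    simpa using h3
  obtain ⟨r, hrd⟩ : ∃ r, r = (a - algebraMap ℂ L p) *
      (algebraMap ℂ L 12 * ((a - algebraMap ℂ L p) + algebraMap ℂ L (2 * p))) := ⟨_, rfl⟩
  rw [← hrd] at hsum hr
  have hc0 : algebraMap ℂ L (12 * p ^ 2 - Λ.g₂) ≠ 0 := (map_ne_zero (algebraMap ℂ L)).2 hsimp
  have hco : Q.ord (algebraMap ℂ L (12 * p ^ 2 - Λ.g₂)) = 0 := Q.ord_const hsimp
  have hDb : 2 * D b ≠ 0 ∧ Q.ord (2 * D b) = 0 := by
    rw [hsum]
    by_cases hr0 : r = 0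
    · rw [hr0, add_zero]
      exact ⟨hc0, hco⟩
    · have hr1 := hr.resolve_left hr0
      have := Q.ord_add_eq hc0 hr0 (by rw [hco]; omega)
      rw [hco] at this
      exact this
  have hDb0 : D b ≠ 0 := right_ne_zero_of_mul hDb.1
  have h20 : (2 : L) ≠ 0 := left_ne_zero_of_mul hDb.1
  have hDbo : Q.ord (D b) = 0 := by
    have h1 := hDb.2
    rw [Q.ord_mul h20 hDb0, e2, Q.ord_const (by norm_num), zero_add] at h1
    exact h1
  have hbo : Q.ord b = 1 := by
    have h1 := (ord_der Q hD (f := b) (by omega)).2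
    rw [hDbo, h0] at h1
    omega
  have hQs : AnalyticAt ℂ Λ.derivWeierstrassP s := Λ.analyticOnNhd_derivWeierstrassP s hs
  have hPs : AnalyticAt ℂ Λ.weierstrassP s := Λ.analyticOnNhd_weierstrassP s hs
  have hsec := wp_second Λ hs
  rw [← hp] at hsec
  have hd0 : deriv Λ.derivWeierstrassP s ≠ 0 := by
    intro h1
    rw [h1, mul_zero] at hsec
    exact hsimp hsec.symm
  refine ⟨b, Λ.derivWeierstrassP, hbo, hQs, hs2, hd0, fun σ hσ => ?_⟩
  -- the substitution
  have hφ : Tendsto Λ.derivWeierstrassP (𝓝[≠] s) (𝓝[≠] 0) := by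
    refine tendsto_nhdsWithin_iff.2 ⟨?_, ?_⟩
    · have := hQs.continuousAt.tendsto
      rw [hs2] at this
      exact this.mono_left nhdsWithin_le_nhds
    · have := hQs.differentiableAt.hasDerivAt.eventually_ne hd0 (c := 0)
      exact this
  have hσb := hφ.eventually hσ.unif
  -- the equation
  have heq : ∀ᶠ v in 𝓝[≠] (0 : ℂ), 4 * σ a v ^ 3 - Λ.g₂ * σ a v - Λ.g₃ = v ^ 2 := by
    have e4 : (4 : L) = algebraMap ℂ L 4 := (map_ofNat (algebraMap ℂ L) 4).symm
    have hL : b * b + (algebraMap ℂ L Λ.g₂ * a + algebraMap ℂ L Λ.g₃) =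
        algebraMap ℂ L 4 * (a * (a * a)) := by
      have := hE.eq
      rw [e4] at this
      linear_combination this
    filter_upwards [hσ.unif, hσ.add (b * b) (algebraMap ℂ L Λ.g₂ * a + algebraMap ℂ L Λ.g₃),
      hσ.mul b b, hσ.add (algebraMap ℂ L Λ.g₂ * a) (algebraMap ℂ L Λ.g₃),
      hσ.mul (algebraMap ℂ L Λ.g₂) a, hσ.const Λ.g₂, hσ.const Λ.g₃,
      hσ.mul (algebraMap ℂ L 4) (a * (a * a)), hσ.const 4, hσ.mul a (a * a), hσ.mul a a]
      with v h1 h2 h3 h4 h5 h6 h7 h8 h9 h10 h11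
    rw [hL, h8, h9, h10, h11, h3, h4, h5, h6, h7, h1] at h2
    linear_combination h2
  -- the limit
  have hap : a - algebraMap ℂ L p ≠ 0 := by
    intro h1
    refine hE.tr ?_
    rw [sub_eq_zero.1 h1]
    exact isAlgebraic_algebraMap p
  have hlim : Tendsto (σ a) (𝓝[≠] 0) (𝓝 p) := by
    have h1 : Tendsto (σ (a - algebraMap ℂ L p)) (𝓝[≠] 0) (𝓝 0) := by
      refine tendsto_zero_of_meromorphicOrderAt_pos ?_
      rw [hσ.ord _ hap]
      have : 0 < Q.ord (a - algebraMap ℂ L p) := by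
        have := hA.resolve_left hap
        omega
      have h2 : (0 : ℤ) < (((1 : ℕ) : ℤ) * Q.ord (a - algebraMap ℂ L p)) := by
        push_cast
        omega
      exact_mod_cast h2
    have h2 : Tendsto (fun v => σ (a - algebraMap ℂ L p) v + p) (𝓝[≠] 0) (𝓝 (0 + p)) :=
      h1.add tendsto_const_nhds
    rw [zero_add] at h2
    refine h2.congr' ?_
    filter_upwards [hσ.add (a - algebraMap ℂ L p) (algebraMap ℂ L p), hσ.const p] with v hv1 hv2
    rw [sub_add_cancel, hv2] at hv1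
    exact hv1.symm
  have hlim2 : Tendsto (fun t => σ a (Λ.derivWeierstrassP t)) (𝓝[≠] s) (𝓝 p) := hlim.comp hφ
  have hlim3 : Tendsto Λ.weierstrassP (𝓝[≠] s) (𝓝 p) := by
    rw [hp]
    exact hPs.continuousAt.tendsto.mono_left nhdsWithin_le_nhds
  have hfac : Tendsto (fun t => 4 * (σ a (Λ.derivWeierstrassP t) ^ 2 +
      σ a (Λ.derivWeierstrassP t) * Λ.weierstrassP t + Λ.weierstrassP t ^ 2) - Λ.g₂) (𝓝[≠] s)
      (𝓝 (4 * (p ^ 2 + p * p + p ^ 2) - Λ.g₂)) :=
    (((hlim2.pow 2).add (hlim2.mul hlim3)).add (hlim3.pow 2)).const_mul 4 |>.sub tendsto_const_nhds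
  have hne : 4 * (p ^ 2 + p * p + p ^ 2) - Λ.g₂ ≠ 0 := by
    intro h1
    exact hsimp (by linear_combination h1)
  have hev0 : ∀ᶠ w in 𝓝 s, w ∉ Λ.lattice := Λ.isClosed_lattice.isOpen_compl.mem_nhds hs
  have hev : ∀ᶠ w in 𝓝[≠] s, w ∉ Λ.lattice := hev0.filter_mono nhdsWithin_le_nhds
  filter_upwards [hσb, hφ.eventually heq, hfac.eventually_ne hne, hev] with t t1 t2 t3 t4
  refine ⟨?_, t1⟩
  have t5 := Λ.derivWeierstrassP_sq t t4
  have t6 : (σ a (Λ.derivWeierstrassP t) - Λ.weierstrassP t) *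
      (4 * (σ a (Λ.derivWeierstrassP t) ^ 2 +
      σ a (Λ.derivWeierstrassP t) * Λ.weierstrassP t + Λ.weierstrassP t ^ 2) - Λ.g₂) = 0 := by
    linear_combination t2 + t5
  exact sub_eq_zero.1 ((mul_eq_zero.1 t6).resolve_right t3)

end Pool.Agent.H918.AH
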