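import Pool.Agent.H918.H.Defs

/-! PROJECT AH (helper918), task AH-UC `good_c` (helper167) -/

set_option autoImplicit false

open Polynomial FF Pool.Agent.W603.LV Pool.Agent.W603.PV Pool.Agent.W602.GT Pool.Agent.N154.GG
open Filter Topology Metric
open Pool.Agent.Y216 (OnVar CurveBound)
open Pool.Agent.H918.SS (ProjVariety HasReduction)
open Pool.Agent.H918.PF
open scoped Polynomial.Bivariate LinearAlgebra.Projectivization

namespace Pool.Agent.H918.AH.H167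

theorem ne_lat (Λ : PeriodPair) (s : ℂ) : ∀ᶠ t in 𝓝[≠] s, t ∉ Λ.lattice := by
  have h1 : IsOpen (((Λ.lattice : Set ℂ) \ {s})ᶜ) := Λ.isOpen_compl_lattice_sdiff
  have h2 : ((Λ.lattice : Set ℂ) \ {s})ᶜ ∈ 𝓝 s := h1.mem_nhds (by simp)
  filter_upwards [self_mem_nhdsWithin, mem_nhdsWithin_of_mem_nhds h2] with t ht1 ht2 ht3
  exact ht2 ⟨ht3, ht1⟩

theorem ord_dwp (Λ : PeriodPair) {s : ℂ} (hs : s ∈ Λ.lattice) :
    meromorphicOrderAt Λ.derivWeierstrassP s = ((-3 : ℤ) : WithTop ℤ) := by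
  rw [← Λ.deriv_weierstrassP]
  have h := Λ.order_weierstrassP s hs
  have h2 : meromorphicOrderAt Λ.weierstrassP s = ((-2 : ℤ) : WithTop ℤ) := by rw [h]; rfl
  have h3 := meromorphicOrderAt_deriv_eq_sub_one (f := Λ.weierstrassP) (x := s) (n := -2)
    (by norm_num) h2
  rw [h3]
  norm_num

/-- uniqueness of the small root -/
theorem root_unique {g₂ g₃ w x x' : ℂ} (h : x = w ^ 2 * (4 - g₂ * x ^ 2 - g₃ * x ^ 3))
    (h' : x' = w ^ 2 * (4 - g₂ * x' ^ 2 - g₃ * x' ^ 3))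
    (hne : 1 + w ^ 2 * (g₂ * (x + x') + g₃ * (x ^ 2 + x * x' + x' ^ 2)) ≠ 0) : x = x' := by
  have h1 : (x - x') * (1 + w ^ 2 * (g₂ * (x + x') + g₃ * (x ^ 2 + x * x' + x' ^ 2))) = 0 := by
    linear_combination h - h'
  rcases mul_eq_zero.1 h1 with h2 | h2
  · exact sub_eq_zero.1 h2
  · exact absurd h2 hne

theorem eq_inv {g₂ g₃ w A B : ℂ} (hA : A ≠ 0) (hw : A = w * B)
    (h : B ^ 2 = 4 * A ^ 3 - g₂ * A - g₃) :
    A⁻¹ = w ^ 2 * (4 - g₂ * (A⁻¹) ^ 2 - g₃ * (A⁻¹) ^ 3) := by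
  have h1 : w ^ 2 * B ^ 2 = A ^ 2 := by rw [hw]; ring
  rw [h] at h1
  field_simp
  linear_combination -h1

end Pool.Agent.H918.AH.H167

namespace Pool.Agent.H918.AH

variable {L : Type} [Field L] [Algebra ℂ L] {Λ : PeriodPair} {a b : L} {D : Derivation ℂ L L}
  {ev : ℂ[X][Y] →ₐ[ℂ] L} {P : ℂ[X][Y]} {B₀ : Finset ℂ}

open H167

/-- AH-UC -/
theorem good_c [IsFF ℂ L] (hE : EllData Λ a b D) {Q : Place ℂ L} (h0 : vo Q D = 0) {s : ℂ}
    (hs : s ∈ Λ.lattice) (h : Over Λ a b Q s) : Good Λ a b Q s := by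
  obtain ⟨htr, hb, hab, hDa⟩ := hE
  have han : Q.ord a < 0 := by
    rcases h with h | h
    · exact h.2
    · exact absurd hs h.1
  have ha0 : a ≠ 0 := by
    rintro rfl
    rw [Q.ord_zero] at han
    exact lt_irrefl _ han
  have hD : D ≠ 0 := by
    rintro rfl
    exact hb (by rw [← hDa]; rfl)
  -- the orders
  have h4 : (4 : L) ≠ 0 := by
    have e4 : (4 : L) = algebraMap ℂ L 4 := (map_ofNat (algebraMap ℂ L) 4).symm
    rw [e4]
    exact (map_ne_zero (algebraMap ℂ L)).2 (by norm_num)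
  have o4 : Q.ord (4 : L) = 0 := by
    have e4 : (4 : L) = algebraMap ℂ L 4 := (map_ofNat (algebraMap ℂ L) 4).symm
    rw [e4]
    exact Q.ord_const (by norm_num)
  have hm0 : (4 * a ^ 3 : L) ≠ 0 := mul_ne_zero h4 (pow_ne_zero 3 ha0)
  have om : Q.ord (4 * a ^ 3) = 3 * Q.ord a := by
    rw [Q.ord_mul h4 (pow_ne_zero 3 ha0), o4, Q.ord_pow]
    push_cast
    ring
  obtain ⟨ρ, hρ⟩ : ∃ x, x = -(algebraMap ℂ L Λ.g₂ * a) - algebraMap ℂ L Λ.g₃ := ⟨_, rfl⟩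
  have hρG : Ge Q (Q.ord a) ρ := by
    rw [hρ]
    have t1 : Ge Q (Q.ord a) (algebraMap ℂ L Λ.g₂ * a) := by
      have := (Ge.const (P := Q) Λ.g₂).mul (Or.inr le_rfl : Ge Q (Q.ord a) a)
      rwa [zero_add] at this
    exact t1.neg.sub ((Ge.const Λ.g₃).mono han.le)
  have hb2 : b ^ 2 = 4 * a ^ 3 + ρ := by rw [hab, hρ]; ring
  have ob2 : Q.ord (b ^ 2) = 3 * Q.ord a := by
    by_cases hρ0 : ρ = 0
    · rw [hb2, hρ0, add_zero, om]
    · have h5 := hρG.resolve_left hρ0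
      have h6 := Q.ord_add_eq (f := 4 * a ^ 3) (g := ρ) hm0 hρ0 (by rw [om]; omega)
      rw [hb2, h6.2, om]
  rw [Q.ord_pow] at ob2
  push_cast at ob2
  obtain ⟨-, oDa⟩ := ord_der Q hD (f := a) (by omega)
  rw [hDa, h0] at oDa
  have oa : Q.ord a = -2 := by omega
  have ob : Q.ord b = -3 := by omega
  -- the parameter
  obtain ⟨u, hu⟩ : ∃ u : L, u * b = a := ⟨a / b, div_mul_cancel₀ a hb⟩
  have hu0 : u ≠ 0 := by
    rintro rfl
    rw [zero_mul] at hu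
    exact ha0 hu.symm
  have ou : Q.ord u = 1 := by
    have h5 := Q.ord_mul hu0 hb
    rw [hu] at h5
    omega
  -- the local coordinate
  have mP : MeromorphicAt Λ.weierstrassP s := Λ.meromorphic_weierstrassP s
  have mP' : MeromorphicAt Λ.derivWeierstrassP s := Λ.meromorphic_derivWeierstrassP s
  have oP : meromorphicOrderAt Λ.weierstrassP s = ((-2 : ℤ) : WithTop ℤ) := by
    rw [Λ.order_weierstrassP s hs]; rfl
  have oP' := ord_dwp Λ hs
  have oq : meromorphicOrderAt (Λ.weierstrassP / Λ.derivWeierstrassP) s = ((1 : ℤ) : WithTop ℤ) := by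
    rw [meromorphicOrderAt_div mP mP', oP, oP']
    rfl
  obtain ⟨g, hg, hgs, hgq⟩ := (meromorphicOrderAt_eq_int_iff (mP.div mP')).1 oq
  let φ : ℂ → ℂ := fun t => (t - s) * g t
  have hφa : AnalyticAt ℂ φ s := (analyticAt_id.sub analyticAt_const).mul hg
  have hφ0 : φ s = 0 := by
    show (s - s) * g s = 0
    rw [sub_self, zero_mul]
  have hφd : HasDerivAt φ (g s) s := by
    have h5 := ((hasDerivAt_id s).sub_const s).mul hg.differentiableAt.hasDerivAt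
    have e5 : 1 * g s + (id s - s) * deriv g s = g s := by simp
    rw [e5] at h5
    exact h5
  have hφq : ∀ᶠ t in 𝓝[≠] s, φ t = Λ.weierstrassP t / Λ.derivWeierstrassP t := by
    filter_upwards [hgq] with t ht
    rw [zpow_one, smul_eq_mul] at ht
    exact ht.symm
  have hgne : ∀ᶠ t in 𝓝[≠] s, g t ≠ 0 :=
    (hg.continuousAt.eventually_ne hgs).filter_mono nhdsWithin_le_nhds
  have hφne : ∀ᶠ t in 𝓝[≠] s, φ t ≠ 0 := by
    filter_upwards [hgne, self_mem_nhdsWithin] with t h1 h2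
    exact mul_ne_zero (sub_ne_zero.2 h2) h1
  have hφt : Tendsto φ (𝓝[≠] s) (𝓝[≠] 0) := by
    refine tendsto_nhdsWithin_iff.2 ⟨?_, hφne⟩
    have := hφa.continuousAt.tendsto
    rw [hφ0] at this
    exact this.mono_left nhdsWithin_le_nhds
  refine ⟨u, φ, ou, hφa, hφ0, by rw [hφd.deriv]; exact hgs, fun σ hσ => ?_⟩
  -- the relations between the germs
  have oσ : meromorphicOrderAt (σ a) 0 < 0 := by
    rw [hσ.ord a ha0, oa]
    exact WithTop.coe_lt_coe.2 (by norm_num : ((1 : ℕ) : ℤ) * (-2) < 0)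
  have oσb : meromorphicOrderAt (σ b) 0 < 0 := by
    rw [hσ.ord b hb, ob]
    exact WithTop.coe_lt_coe.2 (by norm_num : ((1 : ℕ) : ℤ) * (-3) < 0)
  have tA : Tendsto (σ a) (𝓝[≠] 0) (Bornology.cobounded ℂ) :=
    (tendsto_cobounded_iff_meromorphicOrderAt_neg (hσ.mer a)).2 oσ
  have tB : Tendsto (σ b) (𝓝[≠] 0) (Bornology.cobounded ℂ) :=
    (tendsto_cobounded_iff_meromorphicOrderAt_neg (hσ.mer b)).2 oσb
  have tP : Tendsto Λ.weierstrassP (𝓝[≠] s) (Bornology.cobounded ℂ) :=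
    (tendsto_cobounded_iff_meromorphicOrderAt_neg mP).2
      (by rw [oP]; exact WithTop.coe_lt_coe.2 (by norm_num))
  have tP' : Tendsto Λ.derivWeierstrassP (𝓝[≠] s) (Bornology.cobounded ℂ) :=
    (tendsto_cobounded_iff_meromorphicOrderAt_neg mP').2
      (by rw [oP']; exact WithTop.coe_lt_coe.2 (by norm_num))
  have hcob : ∀ᶠ z : ℂ in Bornology.cobounded ℂ, z ≠ 0 := by
    have h5 : Bornology.IsBounded ({0} : Set ℂ) := Bornology.isBounded_singleton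
    exact Bornology.isBounded_def.1 h5
  have habL : b * b + (algebraMap ℂ L Λ.g₂ * a + algebraMap ℂ L Λ.g₃) =
      algebraMap ℂ L 4 * (a * (a * a)) := by
    have e4 : algebraMap ℂ L 4 = (4 : L) := map_ofNat (algebraMap ℂ L) 4
    rw [e4]
    linear_combination hab
  have E1 : ∀ᶠ v in 𝓝[≠] (0:ℂ), σ b v ^ 2 = 4 * σ a v ^ 3 - Λ.g₂ * σ a v - Λ.g₃ := by
    filter_upwards [hσ.mul b b, hσ.mul (algebraMap ℂ L Λ.g₂) a, hσ.const Λ.g₂, hσ.const Λ.g₃,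
      hσ.const 4, hσ.add (algebraMap ℂ L Λ.g₂ * a) (algebraMap ℂ L Λ.g₃),
      hσ.add (b * b) (algebraMap ℂ L Λ.g₂ * a + algebraMap ℂ L Λ.g₃),
      hσ.mul (algebraMap ℂ L 4) (a * (a * a)), hσ.mul a (a * a), hσ.mul a a]
      with v k1 k2 k3 k4 k5 k6 k7 k8 k9 k10
    have k11 : σ (b * b + (algebraMap ℂ L Λ.g₂ * a + algebraMap ℂ L Λ.g₃)) v =
      σ (algebraMap ℂ L 4 * (a * (a * a))) v := by rw [habL]
    rw [k7, k1, k6, k2, k3, k4, k8, k5, k9, k10] at k11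
    linear_combination k11
  have E2 : ∀ᶠ v in 𝓝[≠] (0:ℂ), σ a v = v * σ b v := by
    filter_upwards [hσ.mul u b, hσ.unif] with v k1 k2
    rw [hu, k2] at k1
    exact k1
  have E3 : ∀ᶠ v in 𝓝[≠] (0:ℂ), σ a v ≠ 0 := tA.eventually hcob
  have E4 : ∀ᶠ v in 𝓝[≠] (0:ℂ), σ b v ≠ 0 := tB.eventually hcob
  -- limits
  have lx : Tendsto (fun t => (σ a (φ t))⁻¹) (𝓝[≠] s) (𝓝 0) :=
    tendsto_inv₀_cobounded.comp (tA.comp hφt)
  have lx' : Tendsto (fun t => (Λ.weierstrassP t)⁻¹) (𝓝[≠] s) (𝓝 0) :=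
    tendsto_inv₀_cobounded.comp tP
  have lw : Tendsto φ (𝓝[≠] s) (𝓝 0) := hφt.mono_right nhdsWithin_le_nhds
  have lim : Tendsto (fun t => 1 + φ t ^ 2 * (Λ.g₂ * ((σ a (φ t))⁻¹ + (Λ.weierstrassP t)⁻¹) +
      Λ.g₃ * ((σ a (φ t))⁻¹ ^ 2 + (σ a (φ t))⁻¹ * (Λ.weierstrassP t)⁻¹ +
        (Λ.weierstrassP t)⁻¹ ^ 2))) (𝓝[≠] s)
      (𝓝 (1 + 0 ^ 2 * (Λ.g₂ * (0 + 0) + Λ.g₃ * (0 ^ 2 + 0 * 0 + 0 ^ 2)))) :=
    ((lw.pow 2).mul (((lx.add lx').const_mul _).add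
      ((((lx.pow 2).add (lx.mul lx')).add (lx'.pow 2)).const_mul _))).const_add 1
  have hlim := lim.eventually_ne (by norm_num :
    (1 + 0 ^ 2 * (Λ.g₂ * (0 + 0) + Λ.g₃ * (0 ^ 2 + 0 * 0 + 0 ^ 2)) : ℂ) ≠ 0)
  filter_upwards [hφt.eventually E1, hφt.eventually E2, hφt.eventually E3, hφt.eventually E4,
    hφq, hφne, tP.eventually hcob, tP'.eventually hcob, ne_lat Λ s, hlim]
    with t k1 k2 k3 k4 k5 k6 k7 k8 k9 k10
  have k11 : Λ.weierstrassP t = φ t * Λ.derivWeierstrassP t := by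
    rw [k5]; field_simp
  have k12 := eq_inv k3 k2 k1
  have k13 := eq_inv k7 k11 (Λ.derivWeierstrassP_sq t k9)
  have k14 := root_unique k12 k13 k10
  have k15 : σ a (φ t) = Λ.weierstrassP t := inv_injective k14
  refine ⟨k15, ?_⟩
  have k16 : φ t * σ b (φ t) = φ t * Λ.derivWeierstrassP t := by
    rw [← k2, ← k11, k15]
  exact mul_left_cancel₀ k6 k16

end Pool.Agent.H918.AH
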