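import Pool.Agent.H918.H.Defs
import Pool.Agent.H918.G.EtaReg
import Pool.Agent.H918.G.DiscrNe
import Pool.Graph.R_seed8.W603.LV.Hgt

/-! PROJECT AH: the task AH-LOS (helper349). -/

set_option autoImplicit false

open Polynomial FF Pool.Agent.W603.LV Pool.Agent.W603.PV Pool.Agent.W602.GT Pool.Agent.N154.GG
open Filter Topology Metric
open Pool.Agent.Y216 (OnVar CurveBound)
open Pool.Agent.H918.SS (ProjVariety HasReduction)
open Pool.Agent.H918.PF
open scoped Polynomial.Bivariate LinearAlgebra.Projectivization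

namespace Pool.Agent.H918.AH

variable {L : Type} [Field L] [Algebra ℂ L] {Λ : PeriodPair} {a b : L} {D : Derivation ℂ L L}
  {ev : ℂ[X][Y] →ₐ[ℂ] L} {P : ℂ[X][Y]} {B₀ : Finset ℂ}

namespace H349

theorem D_ne (hE : EllData Λ a b D) : D ≠ 0 := by
  rintro rfl
  apply hE.ne
  rw [← hE.der]
  rfl

theorem vo_le [IsFF ℂ L] (hE : EllData Λ a b D) (Q : Place ℂ L) : vo Q D ≤ 0 := by
  have h := eta_reg (D_ne hE) (discr_ne Λ) hE.eq hE.ne (η := 1) (by rw [one_mul, hE.der]) Q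
  rcases h with h | h
  · exact absurd h one_ne_zero
  · rwa [Q.ord_one] at h

theorem comb [IsFF ℂ L] (hE : EllData Λ a b D) (s : ℂ) (Z : Finset (Place ℂ L))
    (m : Place ℂ L → ℤ) (h1 : hgt ℂ a ≤ ∑ Q ∈ Z, m Q)
    (h2 : ∀ Q ∈ Z, ((Over Λ a b Q s ∨ Over Λ a b Q (-s)) ∧ m Q = 1 - vo Q D) ∨
      ((Over Λ a b Q s ∧ Over Λ a b Q (-s)) ∧ m Q = 2 * (1 - vo Q D))) :
    ∃ T₁ T₂ : Finset (Place ℂ L), (∀ Q ∈ T₁, vo Q D = 0 ∧ Over Λ a b Q s) ∧
      (∀ Q ∈ T₂, vo Q D = 0 ∧ Over Λ a b Q (-s)) ∧ ∃ T₃ : Finset (Place ℂ L),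
      (∀ Q ∈ T₃, vo Q D ≠ 0 ∧ (Over Λ a b Q s ∨ Over Λ a b Q (-s))) ∧
      hgt ℂ a ≤ T₁.card + T₂.card + 4 * ∑ Q ∈ T₃, -vo Q D := by
  classical
  refine ⟨Z.filter fun Q => vo Q D = 0 ∧ Over Λ a b Q s,
    Z.filter fun Q => vo Q D = 0 ∧ Over Λ a b Q (-s), ?_, ?_, Z.filter fun Q => vo Q D ≠ 0, ?_, ?_⟩
  · intro Q hQ
    exact (Finset.mem_filter.1 hQ).2
  · intro Q hQ
    exact (Finset.mem_filter.1 hQ).2
  · intro Q hQ
    obtain ⟨hQ, hv⟩ := Finset.mem_filter.1 hQ
    refine ⟨hv, ?_⟩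
    rcases h2 Q hQ with h | h
    · exact h.1
    · exact Or.inl h.1.1
  · refine h1.trans ?_
    rw [Finset.card_filter, Finset.card_filter, Finset.sum_filter, Finset.mul_sum]
    push_cast
    rw [← Finset.sum_add_distrib, ← Finset.sum_add_distrib]
    refine Finset.sum_le_sum fun Q hQ => ?_
    have hv := vo_le hE Q
    by_cases h0 : vo Q D = 0
    · have e3 : ¬ vo Q D ≠ 0 := fun h => h h0
      rcases h2 Q hQ with ⟨h | h, hm⟩ | ⟨⟨h, h'⟩, hm⟩
      · rw [if_pos ⟨h0, h⟩, if_neg e3, hm, h0]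
        split_ifs <;> norm_num
      · rw [if_pos (⟨h0, h⟩ : vo Q D = 0 ∧ Over Λ a b Q (-s)), if_neg e3, hm, h0]
        split_ifs <;> norm_num
      · rw [if_pos ⟨h0, h⟩, if_pos (⟨h0, h'⟩ : vo Q D = 0 ∧ Over Λ a b Q (-s)), if_neg e3, hm, h0]
        norm_num
    · have e1 : ¬ (vo Q D = 0 ∧ Over Λ a b Q s) := fun h => h0 h.1
      have e2 : ¬ (vo Q D = 0 ∧ Over Λ a b Q (-s)) := fun h => h0 h.1
      rw [if_neg e1, if_neg e2, if_pos h0]
      rcases h2 Q hQ with ⟨_, hm⟩ | ⟨_, hm⟩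
      · rw [hm]; omega
      · rw [hm]; omega

/-- a constant with value: if `f` is a constant `c ≠ 0` plus something of positive order, the order is `0` -/
theorem ord_zero_of {Q : Place ℂ L} {f : L} {c : ℂ} (hc : c ≠ 0) (h : Ge Q 1 (f - algebraMap ℂ L c)) :
    f ≠ 0 ∧ Q.ord f = 0 := by
  have hc' : algebraMap ℂ L c ≠ 0 := (map_ne_zero (algebraMap ℂ L)).2 hc
  have e : f = algebraMap ℂ L c + (f - algebraMap ℂ L c) := by ring
  by_cases h0 : f - algebraMap ℂ L c = 0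
  · rw [e, h0, add_zero]
    exact ⟨hc', Q.ord_const hc⟩
  · have h1 := h.resolve_left h0
    have h2 := Q.ord_add_eq (f := algebraMap ℂ L c) (g := f - algebraMap ℂ L c) hc' h0
      (by rw [Q.ord_const hc]; omega)
    rw [← e, Q.ord_const hc] at h2
    exact h2

/-- at a pole -/
theorem pole_ord (hE : EllData Λ a b D) {Q : Place ℂ L} (han : Q.ord a < 0) :
    2 * Q.ord b = 3 * Q.ord a := by
  have ha0 : a ≠ 0 := by
    rintro rfl
    rw [Q.ord_zero] at han
    exact lt_irrefl _ han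
  have hab := hE.eq
  have h4 : (4 : L) ≠ 0 := by
    have e4 : (4 : L) = algebraMap ℂ L 4 := (map_ofNat (algebraMap ℂ L) 4).symm
    rw [e4]
    exact (map_ne_zero (algebraMap ℂ L)).2 (by norm_num)
  have o4 : Q.ord (4 : L) = 0 := by
    have e4 : (4 : L) = algebraMap ℂ L 4 := (map_ofNat (algebraMap ℂ L) 4).symm
    rw [e4]
    exact Q.ord_const (by norm_num)
  have hm0 : (4 * a ^ 3 : L) ≠ 0 := mul_ne_zero h4 (pow_ne_zero 3 ha0)
  have om : Q.ord (4 * a ^ 3) = 3 * Q.ord a := by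
    rw [Q.ord_mul h4 (pow_ne_zero 3 ha0), o4, Q.ord_pow]
    push_cast
    ring
  obtain ⟨ρ, hρ⟩ : ∃ x, x = -(algebraMap ℂ L Λ.g₂ * a) - algebraMap ℂ L Λ.g₃ := ⟨_, rfl⟩
  have hρG : Ge Q (Q.ord a) ρ := by
    rw [hρ]
    have t1 : Ge Q (Q.ord a) (algebraMap ℂ L Λ.g₂ * a) := by
      have := (Ge.const (P := Q) Λ.g₂).mul (Or.inr le_rfl : Ge Q (Q.ord a) a)
      rwa [zero_add] at this
    exact t1.neg.sub ((Ge.const Λ.g₃).mono han.le)
  have hb2 : b ^ 2 = 4 * a ^ 3 + ρ := by rw [hab, hρ]; ring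
  have ob2 : Q.ord (b ^ 2) = 3 * Q.ord a := by
    by_cases hρ0 : ρ = 0
    · rw [hb2, hρ0, add_zero, om]
    · have h5 := hρG.resolve_left hρ0
      have h6 := Q.ord_add_eq (f := 4 * a ^ 3) (g := ρ) hm0 hρ0 (by rw [om]; omega)
      rw [hb2, h6.2, om]
  rw [Q.ord_pow] at ob2
  push_cast at ob2
  exact ob2

/-- the values at a zero of `a - c` -/
theorem split (hE : EllData Λ a b D) {Q : Place ℂ L} {c c' : ℂ}
    (hc : c' ^ 2 = 4 * c ^ 3 - Λ.g₂ * c - Λ.g₃) (h : Ge Q 1 (a - algebraMap ℂ L c)) :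
    Ge Q 1 (b - algebraMap ℂ L c') ∨ Ge Q 1 (b - algebraMap ℂ L (-c')) := by
  have hc2 : algebraMap ℂ L c' ^ 2 = 4 * algebraMap ℂ L c ^ 3 - algebraMap ℂ L Λ.g₂ * algebraMap ℂ L c -
      algebraMap ℂ L Λ.g₃ := by
    have := congrArg (algebraMap ℂ L) hc
    simpa [map_sub, map_mul, map_pow, map_ofNat] using this
  have ha : Ge Q 0 a := by
    have h1 := (h.mono (by norm_num : (0 : ℤ) ≤ 1)).add (Ge.const (P := Q) c)
    rwa [sub_add_cancel] at h1
  obtain ⟨C, hC⟩ : ∃ x, x = algebraMap ℂ L c := ⟨_, rfl⟩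
  obtain ⟨C', hC'⟩ : ∃ x, x = algebraMap ℂ L c' := ⟨_, rfl⟩
  obtain ⟨G, hG⟩ : ∃ x, x = algebraMap ℂ L Λ.g₂ := ⟨_, rfl⟩
  have rC : Ge Q 0 C := by rw [hC]; exact Ge.const c
  have rG : Ge Q 0 G := by rw [hG]; exact Ge.const _
  have r4 : Ge Q 0 (4 : L) := by
    have := Ge.natCast (P := Q) 4
    simpa using this
  have hab := hE.eq
  rw [map_neg, sub_neg_eq_add]
  rw [← hC] at h hc2
  rw [← hC', ← hG] at hc2
  rw [← hG] at hab
  rw [← hC']
  have key : (b - C') * (b + C') = (a - C) * (4 * (a ^ 2 + a * C + C ^ 2) - G) := by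
    linear_combination hab - hc2
  have h0 : ∀ {x y : L}, Ge Q 0 x → Ge Q 0 y → Ge Q 0 (x * y) := by
    intro x y hx hy
    have := hx.mul hy
    rwa [add_zero] at this
  have hr : Ge Q 0 (4 * (a ^ 2 + a * C + C ^ 2) - G) := by
    refine (h0 r4 ?_).sub rG
    rw [pow_two, pow_two]
    exact ((h0 ha ha).add (h0 ha rC)).add (h0 rC rC)
  have h2 := h.mul hr
  rw [← key, add_zero] at h2
  by_cases h3 : b - C' = 0
  · exact Or.inl (Or.inl h3)
  by_cases h4 : b + C' = 0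
  · exact Or.inr (Or.inl h4)
  have h5 := h2.resolve_left (mul_ne_zero h3 h4)
  rw [Q.ord_mul h3 h4] at h5
  by_cases h6 : 1 ≤ Q.ord (b - C')
  · exact Or.inl (Or.inr h6)
  · exact Or.inr (Or.inr (by omega))

/-- the order of `a - c` at a double value -/
theorem double (hE : EllData Λ a b D) {Q : Place ℂ L} {c : ℂ}
    (hc : 4 * c ^ 3 - Λ.g₂ * c - Λ.g₃ = 0) (hne : a - algebraMap ℂ L c ≠ 0)
    (h : Ge Q 1 (a - algebraMap ℂ L c)) : Q.ord (a - algebraMap ℂ L c) = 2 * Q.ord b := by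
  have hc2 : 4 * algebraMap ℂ L c ^ 3 - algebraMap ℂ L Λ.g₂ * algebraMap ℂ L c -
      algebraMap ℂ L Λ.g₃ = 0 := by
    have := congrArg (algebraMap ℂ L) hc
    simpa [map_sub, map_mul, map_pow, map_ofNat] using this
  have hd : 12 * c ^ 2 - Λ.g₂ ≠ 0 := by
    intro h0
    apply discr_ne Λ
    have e2 : Λ.g₂ = 12 * c ^ 2 := by linear_combination -h0
    have e3 : Λ.g₃ = -8 * c ^ 3 := by
      rw [e2] at hc
      linear_combination -hc
    rw [e2, e3]
    ring
  have ha : Ge Q 0 a := by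
    have h1 := (h.mono (by norm_num : (0 : ℤ) ≤ 1)).add (Ge.const (P := Q) c)
    rwa [sub_add_cancel] at h1
  have hval : Ge Q 1 ((4 * (a ^ 2 + a * algebraMap ℂ L c + algebraMap ℂ L c ^ 2) -
      algebraMap ℂ L Λ.g₂) - algebraMap ℂ L (12 * c ^ 2 - Λ.g₂)) := by
    have e : (4 * (a ^ 2 + a * algebraMap ℂ L c + algebraMap ℂ L c ^ 2) -
        algebraMap ℂ L Λ.g₂) - algebraMap ℂ L (12 * c ^ 2 - Λ.g₂) =
        (a - algebraMap ℂ L c) * (4 * (a + 2 * algebraMap ℂ L c)) := by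
      rw [map_sub, map_mul, map_pow, map_ofNat]
      ring
    rw [e]
    have h0 : ∀ {x y : L}, Ge Q 0 x → Ge Q 0 y → Ge Q 0 (x * y) := by
      intro x y hx hy
      have := hx.mul hy
      rwa [add_zero] at this
    have r4 : Ge Q 0 (4 : L) := by
      have := Ge.natCast (P := Q) 4
      simpa using this
    have r2 : Ge Q 0 (2 : L) := by
      have := Ge.natCast (P := Q) 2
      simpa using this
    have h2 := h.mul (h0 r4 (ha.add (h0 r2 (Ge.const c))))
    rwa [add_zero] at h2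
  obtain ⟨k0, k1⟩ := ord_zero_of hd hval
  have key : b ^ 2 = (a - algebraMap ℂ L c) * (4 * (a ^ 2 + a * algebraMap ℂ L c + algebraMap ℂ L c ^ 2) -
      algebraMap ℂ L Λ.g₂) := by
    linear_combination hE.eq + hc2
  have h3 := congrArg Q.ord key
  rw [Q.ord_pow, Q.ord_mul hne k0, k1, add_zero] at h3
  push_cast at h3
  exact h3.symm

end H349

open H349 in
/-- AH-LOS -/
theorem loss [IsFF ℂ L] (hE : EllData Λ a b D) (s : ℂ) :
    ∃ T₁ T₂ : Finset (Place ℂ L), (∀ Q ∈ T₁, vo Q D = 0 ∧ Over Λ a b Q s) ∧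
      (∀ Q ∈ T₂, vo Q D = 0 ∧ Over Λ a b Q (-s)) ∧ ∃ T₃ : Finset (Place ℂ L),
      (∀ Q ∈ T₃, vo Q D ≠ 0 ∧ (Over Λ a b Q s ∨ Over Λ a b Q (-s))) ∧
      hgt ℂ a ≤ T₁.card + T₂.card + 4 * ∑ Q ∈ T₃, -vo Q D := by
  classical
  have hD := D_ne hE
  by_cases hs : s ∈ Λ.lattice
  · have hs' : -s ∈ Λ.lattice := Λ.lattice.neg_mem hs
    obtain ⟨T, hT⟩ := exists_supp (k := ℂ) (Finset.univ : Finset (Fin 1)) ![a]
    have hT1 : ∀ Q : Place ℂ L, Q.ord a ≠ 0 → Q ∈ T := fun Q => hT 0 (Finset.mem_univ _) Q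
    refine comb hE s (T.filter fun Q => Q.ord a < 0) (fun Q => -Q.ord a) ?_ ?_
    · rw [hgt_finset a T hT1, Finset.sum_filter]
      refine Finset.sum_le_sum fun Q _ => ?_
      split_ifs with h <;> omega
    · intro Q hQ
      have han := (Finset.mem_filter.1 hQ).2
      refine Or.inr ⟨⟨Or.inl ⟨hs, han⟩, Or.inl ⟨hs', han⟩⟩, ?_⟩
      have h1 := pole_ord hE han
      have h2 := (ord_der Q hD (f := a) han.ne).2
      rw [hE.der] at h2
      show -Q.ord a = 2 * (1 - vo Q D)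
      omega
  · have hs' : -s ∉ Λ.lattice := fun h => hs (by simpa using Λ.lattice.neg_mem h)
    obtain ⟨f, hf⟩ : ∃ x, x = a - algebraMap ℂ L (Λ.weierstrassP s) := ⟨_, rfl⟩
    have hf0 : f ≠ 0 := by
      rw [hf]
      intro h
      have h1 : a = algebraMap ℂ L (Λ.weierstrassP s) := sub_eq_zero.1 h
      apply hE.tr
      rw [h1]
      exact isAlgebraic_algebraMap _
    have hP : Λ.derivWeierstrassP s ^ 2 = 4 * Λ.weierstrassP s ^ 3 - Λ.g₂ * Λ.weierstrassP s - Λ.g₃ :=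
      Λ.derivWeierstrassP_sq s hs
    obtain ⟨T, hT⟩ := exists_supp (k := ℂ) (Finset.univ : Finset (Fin 2)) ![a, f]
    have hT1 : ∀ Q : Place ℂ L, Q.ord a ≠ 0 → Q ∈ T := fun Q => hT 0 (Finset.mem_univ _) Q
    have hT2 : ∀ Q : Place ℂ L, Q.ord f ≠ 0 → Q ∈ T := fun Q => hT 1 (Finset.mem_univ _) Q
    have hDf : D f = b := by
      rw [hf, map_sub, D.map_algebraMap, sub_zero, hE.der]
    refine comb hE s (T.filter fun Q => 0 < Q.ord f) (fun Q => Q.ord f) ?_ ?_
    · have h1 : hgt ℂ a ≤ hgt ℂ f := by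
        rw [hgt_finset a T hT1, hgt_finset f T hT2]
        refine Finset.sum_le_sum fun Q _ => ?_
        by_cases h0 : Q.ord a < 0
        · have hge : ¬ (0 ≤ Q.ord f) := by
            intro h2
            have h3 : Ge Q 0 f := Or.inr h2
            have h4 := h3.add (Ge.const (P := Q) (Λ.weierstrassP s))
            rw [hf, sub_add_cancel] at h4
            rcases h4 with h4 | h4
            · rw [h4, Q.ord_zero] at h0
              exact lt_irrefl _ h0
            · omega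
          have h5 : Q.ord f = Q.ord a := by
            have ha0 : a ≠ 0 := by
              rintro rfl
              rw [Q.ord_zero] at h0
              exact lt_irrefl _ h0
            by_cases hc : Λ.weierstrassP s = 0
            · rw [hf, hc, map_zero, sub_zero]
            · have hc' : -algebraMap ℂ L (Λ.weierstrassP s) ≠ 0 :=
                neg_ne_zero.2 ((map_ne_zero (algebraMap ℂ L)).2 hc)
              have h6 := Q.ord_add_eq (f := a) (g := -algebraMap ℂ L (Λ.weierstrassP s)) ha0 hc'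
                (by rw [Q.ord_neg, Q.ord_const hc]; exact h0)
              rw [hf, sub_eq_add_neg]
              exact h6.2
          rw [h5]
        · have : max (-Q.ord a) 0 = 0 := max_eq_right (by omega)
          rw [this]
          exact le_max_right _ _
      refine h1.trans ?_
      rw [← hgt_inv (k := ℂ) f, hgt_finset f⁻¹ T (by
        intro Q hQ
        rw [Q.ord_inv] at hQ
        exact hT2 Q fun h => hQ (by rw [h, neg_zero])), Finset.sum_filter]
      refine Finset.sum_le_sum fun Q _ => ?_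
      rw [Q.ord_inv]
      split_ifs with h <;> omega
    · intro Q hQ
      have hfp := (Finset.mem_filter.1 hQ).2
      have hGe : Ge Q 1 (a - algebraMap ℂ L (Λ.weierstrassP s)) := by
        rw [← hf]
        exact Or.inr (by omega)
      have hd := (ord_der Q hD (f := f) hfp.ne').2
      rw [hDf] at hd
      have hwP : Λ.weierstrassP (-s) = Λ.weierstrassP s := Λ.weierstrassP_neg s
      have hwD : Λ.derivWeierstrassP (-s) = -Λ.derivWeierstrassP s := Λ.derivWeierstrassP_neg s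
      have hsp := split hE hP hGe
      by_cases h0 : Λ.derivWeierstrassP s = 0
      · right
        have hb : Ge Q 1 (b - algebraMap ℂ L 0) := by
          rw [h0, neg_zero] at hsp
          exact hsp.elim id id
        refine ⟨⟨Or.inr ⟨hs, hGe, ?_⟩, Or.inr ⟨hs', ?_, ?_⟩⟩, ?_⟩
        · rw [h0]; exact hb
        · rw [hwP]; exact hGe
        · rw [hwD, h0, neg_zero]; exact hb
        · have hdo := double hE (Q := Q) (c := Λ.weierstrassP s) (by rw [← hP, h0]; ring)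
            (by rw [← hf]; exact hf0) hGe
          rw [← hf] at hdo
          show Q.ord f = 2 * (1 - vo Q D)
          omega
      · left
        have hb0 : Q.ord b = 0 := by
          rcases hsp with h | h
          · exact (ord_zero_of h0 h).2
          · exact (ord_zero_of (neg_ne_zero.2 h0) h).2
        refine ⟨?_, ?_⟩
        · rcases hsp with h | h
          · exact Or.inl (Or.inr ⟨hs, hGe, h⟩)
          · refine Or.inr (Or.inr ⟨hs', ?_, ?_⟩)
            · rw [hwP]; exact hGe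
            · rw [hwD]; exact h
        · show Q.ord f = 1 - vo Q D
          omega

end Pool.Agent.H918.AH
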