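import Pool.Agent.H918.H.Defs
import Pool.Agent.H918.G.DiscDeriv

/-! PROJECT AH, AH-BIG (by helper390): discs of large radius do not lift to the surface. -/

set_option autoImplicit false

namespace Pool.Agent.H918.AH.H390

open Filter Topology Metric Set LinearAlgebra.Projectivization
open FF Pool.Agent.Y190.OP Pool.Agent.W602.GT Pool.Agent.N154.GG Pool.Agent.H918.SS
open Pool.Agent.H918.PF.H59 (cost_le)

variable {m n : ℕ} {ι ι' : Type} {F : ι → MvPolynomial (Fin (n + 1)) ℂ}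
  {F1 : ι' → MvPolynomial (Fin (m + 1)) ℂ} {L : PeriodPair}
  {α : (Fin (n + 1) → ℂ) → ℂ ⧸ L.lattice} {α1 : (Fin (m + 1) → ℂ) → ℂ ⧸ L.lattice}
  {B : Set (ℂ ⧸ L.lattice)} {ρ : (Fin (n + 1) → ℂ) → Fin (m + 1) → ℂ}

theorem holMapOn_comp {f : ℂ → ℙ ℂ (Fin (n + 1) → ℂ)} {U V : Set ℂ} (hf : HolMapOn U f) {φ : ℂ → ℂ}
    (hφ : Differentiable ℂ φ) (h : ∀ z ∈ V, φ z ∈ U) : HolMapOn V fun z => f (φ z) := by
  intro z hz
  obtain ⟨W, G, hW, hzW, hd, h'⟩ := hf (φ z) (h z hz)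
  exact ⟨φ ⁻¹' W, G ∘ φ, hW.preimage hφ.continuous, hzW,
    hd.comp hφ.differentiableOn (fun _ h => h), fun w hw => h' (φ w) hw⟩

/-- there are no sections on the model -/
theorem no_curve (hF : ∀ i, IsForm (F i)) (hα : HolToTorus (Cone F) L α) (hB : B.Finite)
    (hF1 : ∀ i, IsForm (F1 i)) (hα1 : HolToTorus (Cone F1) L α1) (hI : IsoOff F F1 α α1 B ρ)
    (hS : ∀ g, HolIn F g → ¬ ∀ z, α (g z).rep = Submodule.Quotient.mk z)
    {z0 : ℂ} (hz0 : (Submodule.Quotient.mk z0 : ℂ ⧸ L.lattice) ∉ B) :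
    ∀ g, HolIn F1 g → ¬ ∀ z, α1 (g z).rep = Submodule.Quotient.mk z := by
  intro g hg hgα
  obtain ⟨σ, hσmap, -, hσreg⟩ := H662.exists_inv hI
  obtain ⟨g', hg1, hg2, -⟩ := push_curve hF1 hF hα1 hα hB hσmap hσreg isOpen_univ
    isPreconnected_univ (fun z _ => hg.1 z) (fun z _ => hg.2 z) (mem_univ z0)
    (by rw [hgα]; exact hz0)
  exact hS g' ⟨fun z => hg1 z (mem_univ z), fun z => (hg2 z (mem_univ z)).1⟩
    (fun z => by rw [(hg2 z (mem_univ z)).2, hgα z])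

theorem main (hF : ∀ i, IsForm (F i)) (hα : HolToTorus (Cone F) L α) (hB : B.Finite)
    (h : HasReduction F α B)
    (hS : ∀ g, HolIn F g → ¬ ∀ z, α (g z).rep = Submodule.Quotient.mk z) :
    ∃ r : ℝ, 0 < r ∧ ∀ φ : ℂ → ℙ ℂ (Fin (n + 1) → ℂ), HolMapOn (ball 0 r) φ →
      (∀ z ∈ ball (0 : ℂ) r, (φ z).rep ∈ Cone F) →
        ¬ ∀ z ∈ ball (0 : ℂ) r, α (φ z).rep = Submodule.Quotient.mk z := by
  classical
  by_contra hcon
  push Not at hcon
  obtain ⟨n1, ι1, F1, α1, ρ, hF1, hα1, hI, d1, k1, m1, ι', F', α', Q, κ, η, hSR⟩ := h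
  obtain ⟨hR, hf⟩ := red_rig hF1 hα1 hB hSR
  have hT := tdF hF1 hα1
  obtain ⟨δB, hBd⟩ := bdF hT hB
  obtain ⟨z0, hz0⟩ := H662.exists_good hBd
  have hS1 := no_curve hF hα hB hF1 hα1 hI hS hz0
  -- the rescaled discs in the model
  have hdisc : ∀ k : ℕ, ∃ g : ℂ → ℙ ℂ (Fin (n1 + 1) → ℂ), HolMapOn (ball 0 1) g ∧
      ∀ z ∈ ball (0 : ℂ) 1, (g z).rep ∈ Cone F1 ∧
        α1 (g z).rep = Submodule.Quotient.mk (z0 + ((k : ℂ) + 1) * z) := by
    intro k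
    obtain ⟨φ, hφ1, hφ2, hφ3⟩ := hcon ((k : ℝ) + 1 + ‖z0‖) (by positivity)
    have hin : ∀ z ∈ ball (0 : ℂ) 1, z0 + ((k : ℂ) + 1) * z ∈ ball (0 : ℂ) ((k : ℝ) + 1 + ‖z0‖) := by
      intro z hz
      rw [mem_ball_zero_iff] at hz ⊢
      have h1 : ‖((k : ℂ) + 1) * z‖ < (k : ℝ) + 1 := by
        rw [norm_mul]
        have h2 : ‖(k : ℂ) + 1‖ = (k : ℝ) + 1 := by
          have : ((k : ℂ) + 1) = (((k : ℝ) + 1 : ℝ) : ℂ) := by push_cast; rfl
          rw [this, Complex.norm_real, Real.norm_of_nonneg (by positivity)]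
        rw [h2]
        have h3 : (0 : ℝ) < (k : ℝ) + 1 := by positivity
        nlinarith
      calc ‖z0 + ((k : ℂ) + 1) * z‖ ≤ ‖z0‖ + ‖((k : ℂ) + 1) * z‖ := norm_add_le _ _
        _ < _ := by linarith
    have hd : Differentiable ℂ fun z : ℂ => z0 + ((k : ℂ) + 1) * z := by fun_prop
    obtain ⟨g, hg1, hg2, -⟩ := push_curve hF hF1 hα hα1 hB hI.map hI.regular isOpen_ball
      (convex_ball (0 : ℂ) 1).isPreconnected (holMapOn_comp hφ1 hd hin)
      (fun z hz => hφ2 _ (hin z hz)) (mem_ball_self one_pos)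
      (by
        rw [hφ3 _ (hin 0 (mem_ball_self one_pos)), mul_zero, add_zero]
        exact hz0)
    refine ⟨g, hg1, fun z hz => ⟨(hg2 z hz).1, ?_⟩⟩
    rw [(hg2 z hz).2, hφ3 _ (hin z hz)]
  choose g hg1 hg2 using hdisc
  have h0 : (0 : ℂ) ∈ ball (0 : ℂ) 1 := mem_ball_self one_pos
  have hTF : ∀ k, ∀ z ∈ ball (0 : ℂ) 1, Phi (g k z).rep ∈ TF F1 := fun k z hz =>
    mem_TF (hg2 k z hz).1
  obtain ⟨M, hM, s, hs, hlim⟩ := (isCompact_TF hF1).tendsto_subseq (fun k => hTF k 0 h0)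
  have hp1F := rep_toProjF hF1 hM
  have hPhi := Phi_rep_toProj (TF_PM hM)
  obtain ⟨O, w, hO, hMO, hc, ha, hd⟩ := hT.loc M hM
  have hwc : ContinuousAt w M := (hc M hMO).continuousAt
  have hlimO : ∀ᶠ j in atTop, Phi (g (s j) 0).rep ∈ O := hlim.eventually (hO.mem_nhds hMO)
  have hval : α1 (toProj M).rep = Submodule.Quotient.mk z0 := by
    rw [← aM_repF hF1 hα1 hM]
    have h1 : ∀ᶠ j in atTop, w (Phi (g (s j) 0).rep) - z0 ∈ La L := by
      filter_upwards [hlimO] with j hj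
      have h2 := ha _ ⟨hj, hTF (s j) 0 h0⟩
      have h3 : aM L α1 F1 (Phi (g (s j) 0).rep) - z0 ∈ La L := by
        rw [mem_La, ← Submodule.Quotient.eq, aM_Phi hα1 (hg2 (s j) 0 h0).1, (hg2 (s j) 0 h0).2,
          mul_zero, add_zero]
      have h4 := (La L).sub_mem h3 h2
      have h5 : w (Phi (g (s j) 0).rep) - z0 = aM L α1 F1 (Phi (g (s j) 0).rep) - z0 -
          (aM L α1 F1 (Phi (g (s j) 0).rep) - w (Phi (g (s j) 0).rep)) := by ring
      rw [h5]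
      exact h4
    have h2 : Tendsto (fun j => w (Phi (g (s j) 0).rep) - z0) atTop (𝓝 (w M - z0)) :=
      (hwc.tendsto.comp hlim).sub_const z0
    have h3 := (hT.mem_lim h1 h2).2
    have h4 := ha M ⟨hMO, hM⟩
    have h5 := (La L).add_mem h3 h4
    rw [Submodule.Quotient.eq, ← mem_La]
    have h6 : aM L α1 F1 M - z0 = w M - z0 + (aM L α1 F1 M - w M) := by ring
    rw [h6]
    exact h5
  have hp1B : α1 (toProj M).rep ∉ B := by
    rw [hval]
    exact hz0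
  obtain ⟨A, r, hA, hr, -, hlip⟩ := kobX hF1 hR hα1 hB hf hp1F hp1B
    (fun g' hg' hgα => absurd hgα (hS1 g' hg'))
  rw [hPhi] at hlip
  have h1 : ∀ᶠ M' in 𝓝 M, M' ∈ O ∧ dist (w M') (w M) < 1 :=
    (show ∀ᶠ M' in 𝓝 M, M' ∈ O from hO.mem_nhds hMO).and
      (Metric.tendsto_nhds.1 hwc.tendsto 1 one_pos)
  obtain ⟨δ, hδ, h2⟩ := Metric.mem_nhds_iff.1 h1
  have h3 : ∀ M', ‖M' - M‖ < δ → M' ∈ O ∧ ‖w M' - w M‖ ≤ 1 := fun M' h => by
    have h4 := h2 (show M' ∈ ball M δ by rwa [mem_ball, dist_eq_norm])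
    refine ⟨h4.1, ?_⟩
    rw [← dist_eq_norm]
    exact h4.2.le
  -- the radius
  obtain ⟨κ', hκ'⟩ : ∃ κ' : ℝ, κ' = min (1 / 2) (min r δ / (16 * A)) := ⟨_, rfl⟩
  have hrδ : 0 < min r δ := lt_min hr hδ
  have hκ0 : 0 < κ' := by
    rw [hκ']
    exact lt_min (by norm_num) (by positivity)
  have hκ2 : κ' ≤ 1 / 2 := by
    rw [hκ']
    exact min_le_left _ _
  have hκA : A * (4 * κ') < min r δ / 2 := by
    have h1 : κ' ≤ min r δ / (16 * A) := by
      rw [hκ']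
      exact min_le_right _ _
    rw [le_div_iff₀ (by positivity)] at h1
    linarith
  -- the choice of the disc
  have he1 : ∀ᶠ j in atTop, ‖Phi (g (s j) 0).rep - M‖ < min r δ / 2 := by
    have := Metric.tendsto_nhds.1 hlim (min r δ / 2) (by positivity)
    filter_upwards [this] with j hj
    rwa [dist_eq_norm] at hj
  have he2 : ∀ᶠ j : ℕ in atTop, 2 / κ' < ((s j : ℕ) : ℝ) + 1 := by
    have h4 : Tendsto (fun j : ℕ => ((s j : ℕ) : ℝ) + 1) atTop atTop :=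
      tendsto_atTop_add_const_right _ _ (tendsto_natCast_atTop_atTop.comp hs.tendsto_atTop)
    exact h4.eventually_gt_atTop _
  obtain ⟨j, hj1, hj2⟩ := (he1.and he2).exists
  generalize s j = k at hj1 hj2
  have hP : HolP (ball 0 1) fun z => Phi (g k z).rep := holP_of_on (hg1 k)
  have hnear : ∀ z ∈ ball (0 : ℂ) κ', z ∈ ball (0 : ℂ) 1 ∧ ‖Phi (g k z).rep - M‖ < δ := by
    intro z hz
    rw [mem_ball_zero_iff] at hz
    have hz1 : z ∈ ball (0 : ℂ) 1 := by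
      rw [mem_ball_zero_iff]
      linarith
    refine ⟨hz1, ?_⟩
    have h1 := hlip _ hP (hTF k) 0 h0 z hz1
    have h2 : A * Pool.Agent.Helper206.cost 0 z ≤ A * (4 * κ') := by
      refine mul_le_mul_of_nonneg_left ((cost_le (by linarith)).trans ?_) hA.le
      linarith
    rw [Real.dist_eq] at h1
    have h5 := (abs_le.1 (h1.trans h2)).2
    have h6 : min ‖Phi (g k 0).rep - M‖ r ≤ ‖Phi (g k 0).rep - M‖ := min_le_left _ _
    have h7 : min ‖Phi (g k z).rep - M‖ r < min r δ := by linarith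
    have h8 : ¬ r ≤ ‖Phi (g k z).rep - M‖ := by
      intro h9
      rw [min_eq_right h9] at h7
      exact absurd (min_le_left r δ) (not_le.2 h7)
    rw [min_eq_left (not_le.1 h8).le] at h7
    exact h7.trans_le (min_le_right _ _)
  -- the lift
  obtain ⟨φ, hφ⟩ : ∃ φ : ℂ → ℂ, φ = fun z => w (Phi (g k z).rep) := ⟨_, rfl⟩
  have hφd : DifferentiableOn ℂ φ (ball 0 κ') := fun z hz => by
    obtain ⟨h1, h2⟩ := hnear z hz
    rw [hφ]
    exact (hd (ball 0 1) (fun z => Phi (g k z).rep) z isOpen_ball h1 hP (h3 _ h2).1).differentiableWithinAt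
  have h0κ : (0 : ℂ) ∈ ball (0 : ℂ) κ' := mem_ball_self hκ0
  have hφa : AnalyticAt ℂ φ 0 := hφd.analyticAt (isOpen_ball.mem_nhds h0κ)
  have hφe : ∀ᶠ z in 𝓝 (0 : ℂ), α1 (g k z).rep = Submodule.Quotient.mk (φ z) := by
    filter_upwards [isOpen_ball.mem_nhds h0κ] with z hz
    obtain ⟨h1, h2⟩ := hnear z hz
    rw [← aM_Phi hα1 (hg2 k z h1).1, hφ]
    exact (Submodule.Quotient.eq _).2 (ha _ ⟨(h3 _ h2).1, hTF k z h1⟩)
  have hβa : AnalyticAt ℂ (fun z : ℂ => z0 + ((k : ℂ) + 1) * z) 0 := by fun_prop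
  have hβe : ∀ᶠ z in 𝓝 (0 : ℂ), α1 (g k z).rep =
      Submodule.Quotient.mk ((fun z : ℂ => z0 + ((k : ℂ) + 1) * z) z) := by
    filter_upwards [isOpen_ball.mem_nhds h0] with z hz
    exact (hg2 k z hz).2
  have hder := Pool.Agent.H918.PF.H795.deriv_eq L (t := fun z => α1 (g k z).rep) hφa hβa hφe hβe
  have hβd : deriv (fun z : ℂ => z0 + ((k : ℂ) + 1) * z) 0 = (k : ℂ) + 1 := by
    rw [deriv_const_add, deriv_const_mul_field, deriv_id'', mul_one]
  rw [hβd] at hder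
  have h5 : deriv φ 0 = deriv (fun z => φ z - w M) 0 := by
    rw [deriv_sub_const]
  have hsub : closedBall (0 : ℂ) (κ' / 2) ⊆ ball (0 : ℂ) κ' :=
    closedBall_subset_ball (by linarith)
  have h6 : DiffContOnCl ℂ (fun z => φ z - w M) (ball 0 (κ' / 2)) := by
    refine DifferentiableOn.diffContOnCl ?_
    rw [closure_ball _ (by positivity)]
    exact (hφd.mono hsub).sub_const _
  have h7 := Complex.norm_deriv_le_of_forall_mem_sphere_norm_le (C := 1) (by positivity) h6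
    (fun z hz => by
      rw [hφ]
      exact (h3 _ (hnear z (hsub (sphere_subset_closedBall hz))).2).2)
  rw [← h5, hder, one_div_div] at h7
  have h8 : ‖(k : ℂ) + 1‖ = (k : ℝ) + 1 := by
    have : ((k : ℂ) + 1) = (((k : ℝ) + 1 : ℝ) : ℂ) := by push_cast; rfl
    rw [this, Complex.norm_real, Real.norm_of_nonneg (by positivity)]
  rw [h8] at h7
  linarith

end Pool.Agent.H918.AH.H390

open Polynomial FF Pool.Agent.W603.LV Pool.Agent.W603.PV Pool.Agent.W602.GT Pool.Agent.N154.GG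
open Filter Topology Metric
open Pool.Agent.Y216 (OnVar CurveBound)
open Pool.Agent.H918.SS (ProjVariety HasReduction)
open Pool.Agent.H918.PF
open scoped Polynomial.Bivariate LinearAlgebra.Projectivization

namespace Pool.Agent.H918.AH

variable {Λ : PeriodPair} {n : ℕ} {ι : Type} {F : ι → MvPolynomial (Fin (n + 1)) ℂ}
  {α : (Fin (n + 1) → ℂ) → ℂ ⧸ Λ.lattice} {A : Fin 3 → MvPolynomial (Fin (n + 1)) ℂ}

/-- AH-BIG -/
theorem no_big_disc (hF : ∀ i, IsForm (F i)) (hα : HolToTorus (Cone F) Λ α)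
    {B : Set (ℂ ⧸ Λ.lattice)} (hB : B.Finite) (h : HasReduction F α B)
    (hS : ∀ g, HolIn F g → ¬ ∀ z, α (g z).rep = Submodule.Quotient.mk z) :
    ∃ r : ℝ, 0 < r ∧ ∀ φ : ℂ → ℙ ℂ (Fin (n + 1) → ℂ), HolMapOn (ball 0 r) φ →
      (∀ z ∈ ball (0 : ℂ) r, (φ z).rep ∈ Cone F) →
        ¬ ∀ z ∈ ball (0 : ℂ) r, α (φ z).rep = Submodule.Quotient.mk z :=
  H390.main hF hα hB h hS

end Pool.Agent.H918.AH
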