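import Pool.Agent.H918.H.Defs
import Pool.Agent.H918.G.EtaReg
import Pool.Agent.H918.G.DiscrNe

/-! PROJECT AH, task vo_nonpos (helper640, for helper918): the differential `da / b` has no poles. -/

set_option autoImplicit false

open Polynomial FF Pool.Agent.W603.LV Pool.Agent.W603.PV Pool.Agent.W602.GT Pool.Agent.N154.GG
open Filter Topology Metric
open Pool.Agent.Y216 (OnVar CurveBound)
open Pool.Agent.H918.SS (ProjVariety HasReduction)
open Pool.Agent.H918.PF
open scoped Polynomial.Bivariate LinearAlgebra.Projectivization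

namespace Pool.Agent.H918.AH

variable {L : Type} [Field L] [Algebra ℂ L] {Λ : PeriodPair} {a b : L} {D : Derivation ℂ L L}
  {ev : ℂ[X][Y] →ₐ[ℂ] L} {P : ℂ[X][Y]} {B₀ : Finset ℂ}

/-- AH-VO: the differential `da / b` has no poles. -/
theorem vo_nonpos [IsFF ℂ L] (hE : EllData Λ a b D) (Q : Place ℂ L) : vo Q D ≤ 0 := by
  have hD : D ≠ 0 := by
    intro h
    have h1 := hE.der
    rw [h] at h1
    exact hE.ne h1.symm
  have h := eta_reg hD (discr_ne Λ) hE.eq hE.ne (η := 1) (by rw [one_mul]; exact hE.der.symm) Q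
  rcases h with h | h
  · exact absurd h one_ne_zero
  · rwa [Q.ord_one] at h

end Pool.Agent.H918.AH
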