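import Pool.Agent.H918.H.Defs
import Pool.Graph.R_seed8.H667R3.W4

/-! PROJECT AH (helper918): task AH-WP (helper548). The functions `℘` and `℘'` separate the points of
`ℂ / Λ`. -/

set_option autoImplicit false

open Polynomial FF Pool.Agent.W603.LV Pool.Agent.W603.PV Pool.Agent.W602.GT Pool.Agent.N154.GG
open Filter Topology Metric
open Pool.Agent.Y216 (OnVar CurveBound)
open Pool.Agent.H918.PF
open scoped Polynomial.Bivariate LinearAlgebra.Projectivization

namespace Pool.Agent.H918.AH

/-- AH-WP -/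
theorem wp_pair (Λ : PeriodPair) {s s' : ℂ} (hs : s ∉ Λ.lattice) (hs' : s' ∉ Λ.lattice)
    (h : Λ.weierstrassP s = Λ.weierstrassP s') (h' : Λ.derivWeierstrassP s = Λ.derivWeierstrassP s') :
    s - s' ∈ Λ.lattice := by
  rcases (H667R3.wp_eq_iff Λ hs hs').1 h with h1 | h1
  · have e : s' = -s + ((⟨s + s', h1⟩ : Λ.lattice) : ℂ) := by
      show s' = -s + (s + s')
      ring
    have h3 : Λ.derivWeierstrassP s' = -Λ.derivWeierstrassP s := by
      rw [e, Λ.derivWeierstrassP_add_coe, Λ.derivWeierstrassP_neg]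
    have h4 : Λ.derivWeierstrassP s = 0 := by
      rw [← h'] at h3
      linear_combination (1 / 2 : ℂ) * h3
    have h5 : 2 * s ∈ Λ.lattice := by
      by_contra hc
      exact H667R3.wp'_ne_zero Λ hc h4
    have e2 : s - s' = 2 * s - (s + s') := by ring
    rw [e2]
    exact sub_mem h5 h1
  · exact h1

end Pool.Agent.H918.AH
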