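import Pool.Agent.H918.H.ExistsPm
import Pool.Agent.H918.H.PmZeros
import Pool.Agent.H918.H.BadFinite
import Pool.Agent.H918.H.CosetCount
import Pool.Agent.H918.H.WpPair
import Pool.Agent.H918.H.CntGood
import Pool.Agent.H918.H.CntUnion
import Pool.Agent.H918.H.ExistsGerm
import Pool.Agent.H918.H.ChartOfGerm
import Pool.Agent.H918.H.GoodA
import Pool.Agent.H918.H.GoodB
import Pool.Agent.H918.H.GoodC
import Pool.Agent.H918.H.LocSec
import Pool.Agent.H918.H.Loss
import Pool.Agent.H918.H.VoNonpos
import Pool.Agent.H918.H.SecMer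
import Pool.Agent.H918.H.NoBigDisc
import Pool.Agent.H918.H.CurveBd

/-! PROJECT AH: the first group of lemmas. -/
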