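import Pool.Agent.H918.H.L1

/-! PROJECT AH: pair_inj (helper268). -/

set_option autoImplicit false

open Polynomial FF Pool.Agent.W603.LV Pool.Agent.W603.PV Pool.Agent.W602.GT Pool.Agent.N154.GG
open Filter Topology Metric
open Pool.Agent.Y216 (OnVar CurveBound)
open Pool.Agent.H918.SS (ProjVariety HasReduction)
open Pool.Agent.H918.PF
open scoped Polynomial.Bivariate LinearAlgebra.Projectivization

namespace Pool.Agent.H918.AH

variable {L : Type} [Field L] [Algebra ℂ L] {Λ : PeriodPair} {a b : L} {D : Derivation ℂ L L}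
  {ev : ℂ[X][Y] →ₐ[ℂ] L} {P : ℂ[X][Y]} {B₀ : Finset ℂ}

namespace H268

theorem const_eq {Q : Place ℂ L} {f : L} {c c' : ℂ} (h : Ge Q 1 (f - algebraMap ℂ L c))
    (h' : Ge Q 1 (f - algebraMap ℂ L c')) : c = c' := by
  by_contra hne
  have h1 : Ge Q 1 (algebraMap ℂ L (c' - c)) := by
    have h2 := h.sub h'
    have h3 : f - algebraMap ℂ L c - (f - algebraMap ℂ L c') = algebraMap ℂ L (c' - c) := by
      rw [map_sub]
      ring
    rwa [h3] at h2
  have hc : c' - c ≠ 0 := fun h0 => hne (sub_eq_zero.1 h0).symm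
  rcases h1 with h1 | h1
  · exact hc ((map_eq_zero_iff _ (algebraMap ℂ L).injective).1 h1)
  · rw [Q.ord_const hc] at h1
    omega

theorem no_pole {Q : Place ℂ L} {f : L} {c : ℂ} (h : Ge Q 1 (f - algebraMap ℂ L c)) : ¬ Q.ord f < 0 := by
  intro h0
  have h1 : Ge Q 0 f := by
    have h2 := (h.mono (by norm_num : (0 : ℤ) ≤ 1)).add (Ge.const (P := Q) c)
    rwa [sub_add_cancel] at h2
  rcases h1 with h1 | h1
  · rw [h1, Q.ord_zero] at h0
    omega
  · omega

end H268

/-- AH-INJ -/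
theorem pair_inj [IsFF ℂ L] {Q : Place ℂ L} {s s' : ℂ} (h : Over Λ a b Q s)
    (h' : Over Λ a b Q s') : s - s' ∈ Λ.lattice := by
  rcases h with ⟨hs, ha⟩ | ⟨hs, ha, hb⟩
  · rcases h' with ⟨hs', ha'⟩ | ⟨hs', ha', hb'⟩
    · exact sub_mem hs hs'
    · exact absurd ha (H268.no_pole ha')
  · rcases h' with ⟨hs', ha'⟩ | ⟨hs', ha', hb'⟩
    · exact absurd ha' (H268.no_pole ha)
    · exact wp_pair Λ hs hs' (H268.const_eq ha ha') (H268.const_eq hb hb')

end Pool.Agent.H918.AH
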