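import Pool.Agent.H918.H.L1
import Pool.Agent.H918.G.Unif
import Pool.Agent.H918.G.EqOfTau

/-! PROJECT AH (helper918), task sec_disc (helper51). -/

set_option autoImplicit false

open Polynomial FF Pool.Agent.W603.LV Pool.Agent.W603.PV Pool.Agent.W602.GT Pool.Agent.N154.GG
open Filter Topology Metric
open scoped Polynomial.Bivariate LinearAlgebra.Projectivization

namespace Pool.Agent.H918.AH

namespace H51

theorem mk_eq_of {n : ℕ} {u v : Fin (n + 1) → ℂ} (hu : u ≠ 0) (hv : v ≠ 0)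
    (h : ∀ i j, u i * v j = u j * v i) :
    Projectivization.mk ℂ u hu = Projectivization.mk ℂ v hv := by
  rw [Projectivization.mk_eq_mk_iff']
  obtain ⟨j, hj⟩ := Function.ne_iff.1 hv
  have hj : v j ≠ 0 := hj
  refine ⟨u j / v j, ?_⟩
  funext i
  rw [Pi.smul_apply, smul_eq_mul]
  field_simp
  linear_combination -(h i j)

/-- normal form of a meromorphic vector -/
theorem normal {n : ℕ} {v : ℂ → Fin (n + 1) → ℂ} {t : ℂ}
    (hv : ∀ i, MeromorphicAt (fun s => v s i) t) (hne : ¬ ∀ᶠ s in 𝓝[≠] t, v s = 0) :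
    ∃ w : ℂ → Fin (n + 1) → ℂ, AnalyticAt ℂ w t ∧ w t ≠ 0 ∧
      ∀ᶠ s in 𝓝[≠] t, ∃ c : ℂ, c ≠ 0 ∧ v s = c • w s := by
  have hm : MeromorphicAt v t := by
    choose N hN using hv
    refine ⟨Finset.univ.sup N, ?_⟩
    have : (fun z => (z - t) ^ (Finset.univ.sup N) • v z) =
        fun z i => (z - t) ^ (Finset.univ.sup N) • v z i := rfl
    rw [this]
    refine AnalyticAt.pi fun i => ?_
    have h1 : N i ≤ Finset.univ.sup N := Finset.le_sup (Finset.mem_univ i)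
    have h2 : (fun z => (z - t) ^ (Finset.univ.sup N) • v z i) =
        fun z => (z - t) ^ (Finset.univ.sup N - N i) * ((z - t) ^ (N i) • v z i) := by
      funext z
      rw [smul_eq_mul, smul_eq_mul, ← mul_assoc, ← pow_add, Nat.sub_add_cancel h1]
    rw [h2]
    exact ((analyticAt_id.sub analyticAt_const).pow _).mul (hN i)
  have ho : meromorphicOrderAt v t ≠ ⊤ := fun h => hne (meromorphicOrderAt_eq_top_iff.1 h)
  obtain ⟨g, hg, hg0, hgv⟩ := (meromorphicOrderAt_ne_top_iff hm).1 ho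
  refine ⟨g, hg, hg0, ?_⟩
  filter_upwards [hgv, self_mem_nhdsWithin] with s hs hst
  exact ⟨(s - t) ^ (meromorphicOrderAt v t).untop₀, zpow_ne_zero _ (sub_ne_zero.2 hst), hs⟩

/-- holomorphic maps from meromorphic vectors -/
theorem hol_of_mero {n : ℕ} {Ω : Set ℂ} (hΩ : IsOpen Ω) {v : ℂ → Fin (n + 1) → ℂ}
    (hv : ∀ t ∈ Ω, ∀ i, MeromorphicAt (fun s => v s i) t)
    (hne : ∀ t ∈ Ω, ¬ ∀ᶠ s in 𝓝[≠] t, v s = 0) :
    ∃ φ : ℂ → ℙ ℂ (Fin (n + 1) → ℂ), HolMapOn Ω φ ∧ ∀ t ∈ Ω, ∃ w : ℂ → Fin (n + 1) → ℂ,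
      AnalyticAt ℂ w t ∧ (∀ᶠ s in 𝓝 t, ∃ h : w s ≠ 0, φ s = Projectivization.mk ℂ (w s) h) ∧
      ∀ᶠ s in 𝓝[≠] t, ∃ c : ℂ, c ≠ 0 ∧ v s = c • w s := by
  classical
  have h1 : ∀ t, ∃ w : ℂ → Fin (n + 1) → ℂ, w t ≠ 0 ∧ (t ∈ Ω → AnalyticAt ℂ w t ∧
      ∀ᶠ s in 𝓝[≠] t, ∃ c : ℂ, c ≠ 0 ∧ v s = c • w s) := by
    intro t
    by_cases ht : t ∈ Ω
    · obtain ⟨w, hw1, hw2, hw3⟩ := normal (hv t ht) (hne t ht)
      exact ⟨w, hw2, fun _ => ⟨hw1, hw3⟩⟩
    · refine ⟨fun _ _ => 1, ?_, fun h => absurd h ht⟩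
      intro h
      have := congrFun h 0
      simp at this
  choose w hw0 hw using h1
  -- comparison
  have h2 : ∀ t ∈ Ω, ∀ᶠ s in 𝓝 t, ∃ h : w t s ≠ 0,
      Projectivization.mk ℂ (w s s) (hw0 s) = Projectivization.mk ℂ (w t s) h := by
    intro t ht
    obtain ⟨ha, hc⟩ := hw t ht
    have h3 : ∀ᶠ s in 𝓝[≠] t, ∃ h : w t s ≠ 0,
        Projectivization.mk ℂ (w s s) (hw0 s) = Projectivization.mk ℂ (w t s) h := by
      have h4 : ∀ᶠ s in 𝓝[≠] t, ∀ᶠ z in 𝓝 s, ∃ c : ℂ, c ≠ 0 ∧ v z = c • w t z := by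
        rw [eventually_nhdsWithin_iff] at hc ⊢
        filter_upwards [hc.eventually_nhds] with s hs hst
        filter_upwards [hs, isOpen_ne.mem_nhds hst] with z hz hzt
        exact hz hzt
      filter_upwards [h4, nhdsWithin_le_nhds (hΩ.mem_nhds ht),
        nhdsWithin_le_nhds (ha.eventually_analyticAt),
        nhdsWithin_le_nhds (ha.continuousAt.eventually_ne (hw0 t))] with s hs hsΩ hsa hs0
      obtain ⟨ha', hc'⟩ := hw s hsΩ
      refine ⟨hs0, mk_eq_of _ _ fun i j => ?_⟩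
      have h5 : ∀ᶠ z in 𝓝[≠] s, w s z i * w t z j - w s z j * w t z i = 0 := by
        filter_upwards [hc', nhdsWithin_le_nhds hs] with z hz1 hz2
        obtain ⟨c, hc0, hcz⟩ := hz1
        obtain ⟨c', hc0', hcz'⟩ := hz2
        have e : ∀ k, c * w s z k = c' * w t z k := by
          intro k
          have := congrFun (hcz.symm.trans hcz') k
          exact this
        have h6 : c * (w s z i * w t z j - w s z j * w t z i) = 0 := by
          linear_combination w t z j * e i - w t z i * e j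
        exact (mul_eq_zero.1 h6).resolve_left hc0
      have hci : ∀ k, ContinuousAt (fun z => w s z k) s := fun k =>
        (continuous_apply k).continuousAt.comp ha'.continuousAt
      have hci' : ∀ k, ContinuousAt (fun z => w t z k) s := fun k =>
        (continuous_apply k).continuousAt.comp hsa.continuousAt
      have h7 : ContinuousAt (fun z => w s z i * w t z j - w s z j * w t z i) s :=
        ((hci i).mul (hci' j)).sub ((hci j).mul (hci' i))
      have h8 := tendsto_nhds_unique (h7.tendsto.mono_left nhdsWithin_le_nhds)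
        ((tendsto_const_nhds (x := (0 : ℂ))).congr' (h5.mono fun z hz => hz.symm))
      exact sub_eq_zero.1 h8
    rw [eventually_nhdsWithin_iff] at h3
    filter_upwards [h3] with s hs
    by_cases hst : s = t
    · subst hst
      exact ⟨hw0 s, rfl⟩
    · exact hs hst
  refine ⟨fun s => Projectivization.mk ℂ (w s s) (hw0 s), fun t ht => ?_, fun t ht => ?_⟩
  · obtain ⟨ha, hc⟩ := hw t ht
    have h3 := (h2 t ht).and ha.eventually_analyticAt
    obtain ⟨V, hVs, hVo, htV⟩ := _root_.mem_nhds_iff.1 h3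
    exact ⟨V, w t, hVo, htV, fun z hz => (hVs hz).2.differentiableAt.differentiableWithinAt,
      fun z hz => (hVs hz).1⟩
  · obtain ⟨ha, hc⟩ := hw t ht
    exact ⟨w t, ha, h2 t ht, hc⟩


theorem wp_not_const (Λ : PeriodPair) (w a : ℂ) :
    ¬ ∀ᶠ z in 𝓝[≠] w, Λ.weierstrassP z = a := by
  intro h
  have hf : Meromorphic (Λ.weierstrassP + fun _ => -a) :=
    fun x => (Λ.meromorphic_weierstrassP x).add (MeromorphicAt.const _ _)
  have h0 : meromorphicOrderAt (Λ.weierstrassP + fun _ => -a) 0 ≠ ⊤ := by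
    have h1 : meromorphicOrderAt Λ.weierstrassP 0 < meromorphicOrderAt (fun _ : ℂ => -a) 0 := by
      rw [Λ.order_weierstrassP 0 (zero_mem _)]
      refine lt_of_lt_of_le ?_ (AnalyticAt.meromorphicOrderAt_nonneg analyticAt_const)
      decide
    rw [meromorphicOrderAt_add_eq_left_of_lt (MeromorphicAt.const _ _) h1,
      Λ.order_weierstrassP 0 (zero_mem _)]
    decide
  have h2 := hf.exists_meromorphicOrderAt_ne_top_iff_forall.1 ⟨0, h0⟩ w
  apply h2
  rw [meromorphicOrderAt_eq_top_iff]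
  refine h.mono fun z hz => ?_
  change Λ.weierstrassP z + -a = 0
  rw [hz, add_neg_cancel]

/-- polynomials of meromorphic functions -/
theorem mero_poly {f : ℂ → ℂ} {t : ℂ} (hf : MeromorphicAt f t) (s : ℂ[X]) :
    MeromorphicAt (fun z => s.eval (f z)) t := by
  induction s using Polynomial.induction_on' with
  | add p q hp hq =>
    have : (fun z => (p + q).eval (f z)) = fun z => p.eval (f z) + q.eval (f z) := by
      funext z
      rw [eval_add]
    rw [this]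
    exact hp.fun_add hq
  | monomial k a =>
    have : (fun z => (monomial k a).eval (f z)) = fun z => a * f z ^ k := by
      funext z
      rw [eval_monomial]
    rw [this]
    exact (MeromorphicAt.const a t).fun_mul (hf.fun_pow k)

theorem mero_evalEval {f q : ℂ → ℂ} {t : ℂ} (hf : MeromorphicAt f t) (hq : MeromorphicAt q t)
    (W : ℂ[X][Y]) : MeromorphicAt (fun z => evalEval (f z) (q z) W) t := by
  induction W using Polynomial.induction_on' with
  | add p r hp hr =>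
    have : (fun z => evalEval (f z) (q z) (p + r)) =
        fun z => evalEval (f z) (q z) p + evalEval (f z) (q z) r := by
      funext z
      rw [evalEval_add]
    rw [this]
    exact hp.fun_add hr
  | monomial k a =>
    have : (fun z => evalEval (f z) (q z) (monomial k a)) = fun z => a.eval (f z) * q z ^ k := by
      funext z
      rw [evalEval, eval_monomial, eval_mul, eval_pow, eval_C]
    rw [this]
    exact (mero_poly hf a).fun_mul (hq.fun_pow k)

/-- the bad points are isolated -/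
theorem ev_not_bad (Λ : PeriodPair) (B₀ : Finset ℂ) (t₀ : ℂ) : ∀ᶠ t in 𝓝[≠] t₀, t ∉ Bad Λ B₀ := by
  have h1 := bad_finite Λ B₀ (‖t₀‖ + 1)
  have h2 : (Bad Λ B₀ ∩ closedBall 0 (‖t₀‖ + 1)) \ {t₀} |>.Finite := h1.subset Set.sdiff_subset
  have h3 : ((Bad Λ B₀ ∩ closedBall 0 (‖t₀‖ + 1)) \ {t₀})ᶜ ∈ 𝓝 t₀ :=
    h2.isClosed.isOpen_compl.mem_nhds fun h => h.2 rfl
  filter_upwards [nhdsWithin_le_nhds h3, nhdsWithin_le_nhds (ball_mem_nhds t₀ one_pos),
    self_mem_nhdsWithin] with t ht1 ht2 ht3 hb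
  apply ht1
  refine ⟨⟨hb, ?_⟩, ht3⟩
  rw [mem_closedBall_zero_iff]
  have h4 := norm_sub_norm_le t t₀
  rw [mem_ball, dist_eq_norm] at ht2
  linarith

/-- polynomials of `℘` are not zero near any point -/
theorem ev_poly_ne (Λ : PeriodPair) {s : ℂ[X]} (hs : s ≠ 0) (t₀ : ℂ) :
    ∀ᶠ t in 𝓝[≠] t₀, s.eval (Λ.weierstrassP t) ≠ 0 := by
  have hm := Λ.meromorphic_weierstrassP t₀
  have h1 : ∀ r ∈ s.roots.toFinset, ∀ᶠ t in 𝓝[≠] t₀, Λ.weierstrassP t ≠ r := by
    intro r _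
    have h2 : MeromorphicAt (fun t => Λ.weierstrassP t - r) t₀ :=
      hm.fun_sub (MeromorphicAt.const r t₀)
    rcases h2.eventually_eq_zero_or_eventually_ne_zero with h | h
    · exfalso
      exact wp_not_const Λ t₀ r (h.mono fun z hz => sub_eq_zero.1 hz)
    · exact h.mono fun z hz => sub_ne_zero.1 hz
  have h2 := (Filter.eventually_all_finset s.roots.toFinset).2 h1
  filter_upwards [h2] with t ht h0
  refine ht (Λ.weierstrassP t) ?_ rfl
  rw [Multiset.mem_toFinset, mem_roots hs]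
  exact h0

section main

variable {L : Type} [Field L] [Algebra ℂ L] {Λ : PeriodPair} {a b : L} {D : Derivation ℂ L L}
  {ev : ℂ[X][Y] →ₐ[ℂ] L} {P : ℂ[X][Y]} {B₀ : Finset ℂ}

theorem zero_of_ev (hM : PM a ev P) {Ω : Set ℂ} {q : ℂ → ℂ} (hq : Sec Λ P B₀ Ω q) {W : ℂ[X][Y]}
    (hW : ev W = 0) {t : ℂ} (ht : t ∈ Ω) (htB : t ∉ Bad Λ B₀) :
    evalEval (Λ.weierstrassP t) (q t) W = 0 := by
  obtain ⟨V, rfl⟩ := (hM.ker W).1 hW
  rw [evalEval_mul, (hq t ht htB).2, zero_mul]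

theorem ne_of_ev (hM : PM a ev P) {Ω : Set ℂ} (hΩ : IsOpen Ω) {q : ℂ → ℂ} (hq : Sec Λ P B₀ Ω q)
    {W : ℂ[X][Y]} (hW : ev W ≠ 0) {t₀ : ℂ} (ht : t₀ ∈ Ω) :
    ∀ᶠ t in 𝓝[≠] t₀, evalEval (Λ.weierstrassP t) (q t) W ≠ 0 := by
  obtain ⟨s, hs, hs'⟩ := pm_zeros hM hW
  filter_upwards [ev_not_bad Λ B₀ t₀, ev_poly_ne Λ hs t₀, nhdsWithin_le_nhds (hΩ.mem_nhds ht)]
    with t h1 h2 h3 h4
  exact h2 (hs' _ _ (hq t h3 h1).2 h4)

theorem ev_C_ne (hM : PM a ev P) {S : ℂ[X]} (hS : S ≠ 0) : ev (C S) ≠ 0 := by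
  intro h
  have h1 := (hM.ker _).1 h
  have h2 := hM.pos
  have h3 := Polynomial.natDegree_le_of_dvd h1 (C_ne_zero.2 hS)
  rw [natDegree_C] at h3
  omega

/-- common denominators -/
theorem common (hM : PM a ev P) {g : ℕ} (e : Fin g → L) :
    ∃ (R : Fin g → ℂ[X][Y]) (S : ℂ[X]), S ≠ 0 ∧ ∀ i, e i * ev (C S) = ev (R i) := by
  choose R S hS hR using fun i => hM.frac (e i)
  refine ⟨fun i => R i * C (∏ j ∈ Finset.univ.erase i, S j), ∏ j, S j,
    Finset.prod_ne_zero_iff.2 fun j _ => hS j, fun i => ?_⟩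
  rw [map_mul ev, ← hR i, ← Finset.mul_prod_erase Finset.univ S (Finset.mem_univ i), C_mul,
    map_mul ev, mul_assoc]

theorem val_homL {n : ℕ} {G : MvPolynomial (Fin (n + 1)) ℂ} {e : ℕ} (hG : G.IsHomogeneous e)
    (c : L) (u : Fin (n + 1) → L) : val (fun i => u i * c) G = c ^ e * val u G := by
  unfold val
  rw [MvPolynomial.aeval_def, MvPolynomial.aeval_def, MvPolynomial.eval₂_eq,
    MvPolynomial.eval₂_eq, Finset.mul_sum]
  refine Finset.sum_congr rfl fun m hm => ?_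
  have h1 : ∏ i ∈ m.support, (u i * c) ^ m i = c ^ e * ∏ i ∈ m.support, u i ^ m i := by
    simp only [mul_pow]
    rw [Finset.prod_mul_distrib, Finset.prod_pow_eq_pow_sum, mul_comm]
    congr 2
    have h2 := hG (MvPolynomial.mem_support_iff.1 hm)
    rw [← h2, Finsupp.weight_apply]
    simp [Finsupp.sum]
  rw [h1]
  ring

end main

end H51

open Pool.Agent.H918.PF

variable {L : Type} [Field L] [Algebra ℂ L] {Λ : PeriodPair} {a b : L} {D : Derivation ℂ L L}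
  {ev : ℂ[X][Y] →ₐ[ℂ] L} {P : ℂ[X][Y]} {B₀ : Finset ℂ}

variable {n : ℕ} {ι : Type} {F : ι → MvPolynomial (Fin (n + 1)) ℂ}
  {α : (Fin (n + 1) → ℂ) → ℂ ⧸ Λ.lattice} {A : Fin 3 → MvPolynomial (Fin (n + 1)) ℂ}

namespace H51

/-- the sign of the second coordinate -/
theorem sign (hE : EllData Λ a b D) (hM : PM a ev P) {R : ℝ} (hR : 0 < R) {q : ℂ → ℂ}
    (hq : Sec Λ P B₀ (ball 0 R) q) {Rb : ℂ[X][Y]} {Sb : ℂ[X]} (hb : b * ev (C Sb) = ev Rb) :
    ∃ e : ℂ, (e = 1 ∨ e = -1) ∧ ∀ t₀ ∈ ball (0 : ℂ) R, ∀ᶠ t in 𝓝[≠] t₀,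
      evalEval (Λ.weierstrassP t) (q t) Rb =
        e * (Sb.eval (Λ.weierstrassP t) * Λ.derivWeierstrassP t) := by
  -- the equation
  have hW : ev (Rb ^ 2 - C Sb ^ 2 * (C (4 * X ^ 3 - C Λ.g₂ * X - C Λ.g₃))) = 0 := by
    have hCC : ∀ c : ℂ, ev (C (C c)) = algebraMap ℂ L c := fun c => by
      have : (C (C c) : ℂ[X][Y]) = algebraMap ℂ ℂ[X][Y] c := rfl
      rw [this, AlgHom.commutes]
    have h4 : ev (C (4 : ℂ[X])) = 4 := by
      have : (C (4 : ℂ[X]) : ℂ[X][Y]) = 4 := by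
        rw [map_ofNat]
      rw [this, map_ofNat]
    rw [map_sub ev, map_mul ev, map_pow ev, map_pow ev, ← hb]
    have h5 : ev (C (4 * X ^ 3 - C Λ.g₂ * X - C Λ.g₃)) = b ^ 2 := by
      rw [hE.eq]
      simp only [map_sub, map_mul, map_pow]
      rw [h4, hM.coord, hCC, hCC]
    rw [h5]
    ring
  have hmw : ∀ t, MeromorphicAt Λ.weierstrassP t := Λ.meromorphic_weierstrassP
  have hmd : ∀ t, MeromorphicAt Λ.derivWeierstrassP t := Λ.meromorphic_derivWeierstrassP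
  have hmq : ∀ t ∈ ball (0 : ℂ) R, MeromorphicAt q t := fun t ht =>
    sec_mer hM.monic isOpen_ball hq ht
  obtain ⟨up, hup⟩ : ∃ up : ℂ → ℂ, up = fun t => evalEval (Λ.weierstrassP t) (q t) Rb -
    Sb.eval (Λ.weierstrassP t) * Λ.derivWeierstrassP t := ⟨_, rfl⟩
  have hupm : MeromorphicOn up (ball (0 : ℂ) R) := by
    intro t ht
    rw [hup]
    exact (mero_evalEval (hmw t) (hmq t ht) Rb).fun_sub ((mero_poly (hmw t) Sb).fun_mul (hmd t))
  have hprod : ∀ t₀ ∈ ball (0 : ℂ) R, ∀ᶠ t in 𝓝[≠] t₀,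
      up t * (evalEval (Λ.weierstrassP t) (q t) Rb +
        Sb.eval (Λ.weierstrassP t) * Λ.derivWeierstrassP t) = 0 := by
    intro t₀ ht₀
    filter_upwards [ev_not_bad Λ B₀ t₀, nhdsWithin_le_nhds (isOpen_ball.mem_nhds ht₀)] with t h1 h2
    have h3 := zero_of_ev hM hq hW h2 h1
    have htΛ : t ∉ Λ.lattice := fun h => h1 (Or.inl h)
    have h4 := Λ.derivWeierstrassP_sq t htΛ
    rw [evalEval_sub, evalEval_mul, evalEval_pow, evalEval_pow, evalEval_C, evalEval_C] at h3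
    simp only [eval_sub, eval_mul, eval_pow, eval_X, eval_C, eval_ofNat] at h3
    rw [hup]
    linear_combination h3 - Sb.eval (Λ.weierstrassP t) ^ 2 * h4
  have hconn : IsConnected (ball (0 : ℂ) R) :=
    ⟨⟨0, mem_ball_self hR⟩, (convex_ball _ _).isPreconnected⟩
  by_cases hall : ∀ t ∈ ball (0 : ℂ) R, meromorphicOrderAt up t = ⊤
  · refine ⟨1, Or.inl rfl, fun t₀ ht₀ => ?_⟩
    have h1 := meromorphicOrderAt_eq_top_iff.1 (hall t₀ ht₀)
    filter_upwards [h1] with t ht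
    rw [hup] at ht
    rw [one_mul]
    exact sub_eq_zero.1 ht
  · push Not at hall
    have hall2 := (hupm.exists_meromorphicOrderAt_ne_top_iff_forall_mem hconn).1 hall
    refine ⟨-1, Or.inr rfl, fun t₀ ht₀ => ?_⟩
    have h1 : ∀ᶠ t in 𝓝[≠] t₀, up t ≠ 0 := by
      rcases (hupm t₀ ht₀).eventually_eq_zero_or_eventually_ne_zero with h | h
      · exact absurd (meromorphicOrderAt_eq_top_iff.2 h) (hall2 t₀ ht₀)
      · exact h
    filter_upwards [h1, hprod t₀ ht₀] with t h2 h3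
    have h4 := (mul_eq_zero.1 h3).resolve_left h2
    linear_combination h4


/-- the point of the torus at a generic point -/
theorem generic (hA : WForms F Λ α A) {u v : Fin (n + 1) → ℂ} (hu : u ∈ Cone F) {c t e B : ℂ}
    (hc : c ≠ 0) (huv : u = c • v) (he : e = 1 ∨ e = -1) (ht : t ∉ Λ.lattice) (hB : B ≠ 0)
    (h0 : val v (A 0) ≠ 0) (h1 : val v (A 1) = Λ.weierstrassP t * val v (A 0))
    (h2 : B * val v (A 2) = e * (B * Λ.derivWeierstrassP t) * val v (A 0)) :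
    α u = Submodule.Quotient.mk (e * t) := by
  obtain ⟨d, hd⟩ := hA.form
  have hcd : c ^ d ≠ 0 := pow_ne_zero _ hc
  obtain ⟨w, hw⟩ := Submodule.Quotient.mk_surjective _ (α u)
  have hA0 : val u (A 0) ≠ 0 := by
    rw [huv, H264.val_hom (hd 0)]
    exact mul_ne_zero hcd h0
  have hwΛ : w ∉ Λ.lattice := by
    intro h4
    apply hA0
    refine hA.zero u hu ?_
    rw [← hw]
    exact (Submodule.Quotient.mk_eq_zero _).2 h4
  obtain ⟨h5, h6⟩ := hA.eq u hu w hwΛ hw.symm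
  rw [huv, H264.val_hom (hd 1), H264.val_hom (hd 0), h1] at h5
  rw [huv, H264.val_hom (hd 2), H264.val_hom (hd 0)] at h6
  have h7 : Λ.weierstrassP w = Λ.weierstrassP t := by
    have h8 : (c ^ d * val v (A 0)) * (Λ.weierstrassP w - Λ.weierstrassP t) = 0 := by
      linear_combination -h5
    exact sub_eq_zero.1 ((mul_eq_zero.1 h8).resolve_left (mul_ne_zero hcd h0))
  have h9 : Λ.derivWeierstrassP w = e * Λ.derivWeierstrassP t := by
    have h8 : (B * (c ^ d * val v (A 0))) *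
        (Λ.derivWeierstrassP w - e * Λ.derivWeierstrassP t) = 0 := by
      linear_combination -B * h6 + c ^ d * h2
    exact sub_eq_zero.1 ((mul_eq_zero.1 h8).resolve_left
      (mul_ne_zero hB (mul_ne_zero hcd h0)))
  rw [← hw, Submodule.Quotient.eq]
  rcases he with rfl | rfl
  · rw [one_mul] at h9 ⊢
    exact wp_pair Λ hwΛ ht h7 h9
  · rw [neg_one_mul] at h9 ⊢
    have hnt : -t ∉ Λ.lattice := fun h => ht (by simpa using neg_mem h)
    refine wp_pair Λ hwΛ hnt ?_ ?_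
    · rw [Λ.weierstrassP_neg, h7]
    · rw [Λ.derivWeierstrassP_neg, h9]

end H51

open H51 in
/-- AH-DISC -/
theorem sec_disc [IsFF ℂ L] (hF : ∀ i, IsForm (F i)) (hα : HolToTorus (Cone F) Λ α)
    (hA : WForms F Λ α A) {f : Fin (n + 1) → L} (hf : f ≠ 0) (hfF : ∀ i, val f (F i) = 0)
    (h0 : val f (A 0) ≠ 0) (ha : a = val f (A 1) / val f (A 0)) (hb : b = val f (A 2) / val f (A 0))
    (hE : EllData Λ a b D) (hM : PM a ev P) (hs : SepOff P B₀) {R : ℝ} (hR : 0 < R) {q : ℂ → ℂ}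
    (hq : Sec Λ P B₀ (ball 0 R) q) :
    ∃ φ : ℂ → ℙ ℂ (Fin (n + 1) → ℂ), HolMapOn (ball 0 R) φ ∧
      (∀ z ∈ ball (0 : ℂ) R, (φ z).rep ∈ Cone F) ∧
      ∀ z ∈ ball (0 : ℂ) R, α (φ z).rep = Submodule.Quotient.mk z := by
  obtain ⟨Rr, d, hd, hRr⟩ := common hM f
  have hc0 : ev (C d) ≠ 0 := ev_C_ne hM hd
  have hvalg : ∀ {G : MvPolynomial (Fin (n + 1)) ℂ} {e : ℕ}, G.IsHomogeneous e →
      ev (MvPolynomial.aeval Rr G) = ev (C d) ^ e * val f G := by
    intro G e hG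
    rw [H264.ev_aeval, ← val_homL hG]
    congr 1
    funext k
    exact (hRr k).symm
  obtain ⟨dA, hdA⟩ := hA.form
  have hA0 : ev (MvPolynomial.aeval Rr (A 0)) ≠ 0 := by
    rw [hvalg (hdA 0)]
    exact mul_ne_zero (pow_ne_zero _ hc0) h0
  -- the map
  have hmw : ∀ t, MeromorphicAt Λ.weierstrassP t := Λ.meromorphic_weierstrassP
  have hmq : ∀ t ∈ ball (0 : ℂ) R, MeromorphicAt q t := fun t ht =>
    sec_mer hM.monic isOpen_ball hq ht
  have hvm : ∀ t ∈ ball (0 : ℂ) R, ∀ i,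
      MeromorphicAt (fun s => vec Rr (Λ.weierstrassP s) (q s) i) t := fun t ht i =>
    mero_evalEval (hmw t) (hmq t ht) (Rr i)
  have hne : ∀ t ∈ ball (0 : ℂ) R,
      ¬ ∀ᶠ s in 𝓝[≠] t, vec Rr (Λ.weierstrassP s) (q s) = 0 := by
    intro t ht hcon
    obtain ⟨k, hk⟩ := Function.ne_iff.1 hf
    have hk : f k ≠ 0 := hk
    have hk' : ev (Rr k) ≠ 0 := by
      rw [← hRr k]
      exact mul_ne_zero hk hc0
    obtain ⟨s, hs1, hs2⟩ := (hcon.and (ne_of_ev hM isOpen_ball hq hk' ht)).exists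
    exact hs2 (congrFun hs1 k)
  obtain ⟨φ, hφ, hφw⟩ := hol_of_mero isOpen_ball hvm hne
  -- the forms at the points
  have hval : ∀ (G : MvPolynomial (Fin (n + 1)) ℂ) (t : ℂ),
      val (vec Rr (Λ.weierstrassP t) (q t)) G =
        evalEval (Λ.weierstrassP t) (q t) (MvPolynomial.aeval Rr G) := fun G t =>
    (H264.evalEval_aeval Rr G _ _).symm
  have hcone : ∀ t₀ ∈ ball (0 : ℂ) R, (φ t₀).rep ∈ Cone F := by
    intro t₀ ht₀
    obtain ⟨w, hwa, hwφ, hwc⟩ := hφw t₀ ht₀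
    obtain ⟨hw0, hw1⟩ := hwφ.self_of_nhds
    obtain ⟨c', hc', hrep⟩ := Pool.Agent.H918.SS.rep_mk hw0
    rw [hw1, hrep]
    refine Pool.Agent.H918.SS.cone_smulF hF ⟨hw0, fun i => ?_⟩ hc'
    obtain ⟨e, he⟩ := hF i
    have h1 : ∀ᶠ s in 𝓝[≠] t₀, val (w s) (F i) = 0 := by
      filter_upwards [hwc, ev_not_bad Λ B₀ t₀, nhdsWithin_le_nhds (isOpen_ball.mem_nhds ht₀)]
        with s hs1 hs2 hs3
      obtain ⟨c, hc, hv⟩ := hs1
      have h2 : val (vec Rr (Λ.weierstrassP s) (q s)) (F i) = 0 := by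
        rw [hval]
        refine zero_of_ev hM hq ?_ hs3 hs2
        rw [hvalg he, hfF i, mul_zero]
      rw [hv, H264.val_hom he] at h2
      exact (mul_eq_zero.1 h2).resolve_left (pow_ne_zero _ hc)
    have h2 : ContinuousAt (fun s => val (w s) (F i)) t₀ := H415.continuousAt_val hwa.continuousAt
    exact tendsto_nhds_unique (h2.tendsto.mono_left nhdsWithin_le_nhds)
      ((tendsto_const_nhds (x := (0 : ℂ))).congr' (h1.mono fun z hz => hz.symm))
  -- the second coordinate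
  obtain ⟨Rb, Sb, hSb, hbS⟩ := hM.frac b
  obtain ⟨e, he, hsign⟩ := sign hE hM hR hq hbS
  have hgen : ∀ t₀ ∈ ball (0 : ℂ) R, ∀ᶠ t in 𝓝[≠] t₀,
      α (φ t).rep = Submodule.Quotient.mk (e * t) := by
    intro t₀ ht₀
    obtain ⟨w, hwa, hwφ, hwc⟩ := hφw t₀ ht₀
    filter_upwards [hwc, ev_not_bad Λ B₀ t₀, nhdsWithin_le_nhds (isOpen_ball.mem_nhds ht₀),
      nhdsWithin_le_nhds hwφ, ne_of_ev hM isOpen_ball hq hA0 ht₀, ev_poly_ne Λ hSb t₀,
      hsign t₀ ht₀] with t h1 h2 h3 h4 h5 h6 h7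
    obtain ⟨c, hc, hv⟩ := h1
    obtain ⟨hw0, hw1⟩ := h4
    obtain ⟨c', hc', hrep⟩ := Pool.Agent.H918.SS.rep_mk hw0
    have hu : (φ t).rep = (c' * c⁻¹) • vec Rr (Λ.weierstrassP t) (q t) := by
      rw [hw1, hrep, hv, smul_smul, mul_assoc, inv_mul_cancel₀ hc, mul_one]
    have h1' : evalEval (Λ.weierstrassP t) (q t)
        (MvPolynomial.aeval Rr (A 1) - C X * MvPolynomial.aeval Rr (A 0)) = 0 := by
      refine zero_of_ev hM hq ?_ h3 h2
      rw [map_sub ev, map_mul ev, hM.coord, hvalg (hdA 1), hvalg (hdA 0), ha]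
      field_simp
      ring
    have h2' : evalEval (Λ.weierstrassP t) (q t)
        (C Sb * MvPolynomial.aeval Rr (A 2) - Rb * MvPolynomial.aeval Rr (A 0)) = 0 := by
      refine zero_of_ev hM hq ?_ h3 h2
      rw [map_sub ev, map_mul ev, map_mul ev, ← hbS, hvalg (hdA 2), hvalg (hdA 0), hb]
      field_simp
      ring
    rw [evalEval_sub, evalEval_mul, evalEval_C, eval_X] at h1'
    rw [evalEval_sub, evalEval_mul, evalEval_mul, evalEval_C, h7] at h2'
    refine generic hA (hcone t h3) (mul_ne_zero hc' (inv_ne_zero hc)) hu he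
      (fun h => h2 (Or.inl h)) h6 ?_ ?_ ?_
    · rw [hval]
      exact h5
    · rw [hval, hval]
      exact sub_eq_zero.1 h1'
    · rw [hval, hval]
      exact sub_eq_zero.1 h2'
  have hall : ∀ t₀ ∈ ball (0 : ℂ) R, α (φ t₀).rep = Submodule.Quotient.mk (e * t₀) := by
    intro t₀ ht₀
    obtain ⟨β, hβ, hβe⟩ := tor_lift hF hα isOpen_ball hφ hcone ht₀
    have h1 : ∀ᶠ t in 𝓝[≠] t₀, β t - e * t ∈ (Λ.lattice : Set ℂ) := by
      filter_upwards [hgen t₀ ht₀, nhdsWithin_le_nhds hβe] with t h2 h3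
      exact (Submodule.Quotient.eq _).1 (h3.symm.trans h2)
    have h2 : ContinuousAt (fun t => β t - e * t) t₀ :=
      hβ.continuousAt.sub (continuousAt_const.mul continuousAt_id)
    have h3 := (Pool.Agent.H918.SS.H665p.lat_closed Λ).mem_of_tendsto
      (h2.tendsto.mono_left nhdsWithin_le_nhds) h1
    rw [hβe.self_of_nhds]
    exact (Submodule.Quotient.eq _).2 h3
  rcases he with rfl | rfl
  · refine ⟨φ, hφ, hcone, fun z hz => ?_⟩
    rw [hall z hz, one_mul]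
  · have hneg : ∀ z ∈ ball (0 : ℂ) R, -z ∈ ball (0 : ℂ) R := by
      intro z hz
      rw [mem_ball_zero_iff] at hz ⊢
      rwa [norm_neg]
    refine ⟨fun z => φ (-z), ?_, fun z hz => hcone _ (hneg z hz), fun z hz => ?_⟩
    · intro z hz
      obtain ⟨V, g, hV, hzV, hg, hgf⟩ := hφ _ (hneg z hz)
      refine ⟨(fun t : ℂ => -t) ⁻¹' V, fun t => g (-t), hV.preimage continuous_neg, hzV, ?_,
        fun w hw => hgf _ hw⟩
      exact hg.comp differentiable_neg.differentiableOn fun w hw => hw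
    · rw [hall _ (hneg z hz), neg_mul_neg, one_mul]

end Pool.Agent.H918.AH
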