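import Pool.Agent.H918.H.L1
import Pool.Agent.H918.H.PairInj
import Pool.Agent.H918.H.CntOne
import Pool.Agent.H918.H.CntLocal
import Pool.Agent.H918.H.SecDisc

/-! PROJECT AH: the second group of lemmas. -/
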