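import Pool.Agent.H918.H.L3
import Pool.Agent.H918.H.ExistsSec
import Pool.Agent.H918.G.Tower

/-!
# PROJECT AH: the degrees of the curves in surfaces over elliptic curves
-/

set_option autoImplicit false

open Polynomial FF Pool.Agent.W603.LV Pool.Agent.W603.PV Pool.Agent.W602.GT Pool.Agent.N154.GG
open Filter Topology Metric
open Pool.Agent.Y216 (OnVar CurveBound)
open Pool.Agent.H918.SS (ProjVariety HasReduction)
open Pool.Agent.H918.PF
open Pool.Agent.H916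
open scoped Polynomial.Bivariate LinearAlgebra.Projectivization

namespace Pool.Agent.H918.AH

variable {L : Type} [Field L] [Algebra ℂ L] {Λ : PeriodPair} {a b : L}
  {n : ℕ} {ι : Type} {F : ι → MvPolynomial (Fin (n + 1)) ℂ}
  {α : (Fin (n + 1) → ℂ) → ℂ ⧸ Λ.lattice} {A : Fin 3 → MvPolynomial (Fin (n + 1)) ℂ}

theorem hgt_of_alg [IsFF ℂ L] {x : L} (hx : ¬ Transcendental ℂ x) : hgt ℂ x = 0 := by
  have h1 : ∀ Q : Place ℂ L, Q.ord x = 0 := by
    intro Q
    by_contra h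
    exact hx (Q.transcendental_of_ord_ne h)
  unfold hgt
  rw [finsum_eq_zero_of_forall_eq_zero]
  intro Q
  rw [h1 Q]
  rfl

theorem ne_b [IsFF ℂ L] (ha : Transcendental ℂ a)
    (h : b ^ 2 = 4 * a ^ 3 - algebraMap ℂ L Λ.g₂ * a - algebraMap ℂ L Λ.g₃) : b ≠ 0 := by
  rintro rfl
  apply ha
  refine ⟨4 * Polynomial.X ^ 3 - Polynomial.C Λ.g₂ * Polynomial.X - Polynomial.C Λ.g₃, ?_, ?_⟩
  · intro h4
    have h5 := congrArg (fun p : ℂ[X] => p.coeff 3) h4
    simp only [coeff_sub, coeff_C_mul, coeff_X, coeff_C, coeff_zero] at h5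
    rw [show (4 : ℂ[X]) = C 4 from rfl, coeff_C_mul, coeff_X_pow] at h5
    norm_num at h5
  · simp only [map_sub, map_mul, map_pow, aeval_X, aeval_C, map_ofNat]
    rw [← h]
    ring

theorem alg_b (ha : ¬ Transcendental ℂ a)
    (h : b ^ 2 = 4 * a ^ 3 - algebraMap ℂ L Λ.g₂ * a - algebraMap ℂ L Λ.g₃) :
    ¬ Transcendental ℂ b := by
  unfold Transcendental at ha ⊢
  push Not at ha ⊢
  have h1 : IsAlgebraic ℂ (b ^ 2) := by
    rw [h]
    have h4 : IsAlgebraic ℂ (4 : L) := by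
      have := isAlgebraic_algebraMap (R := ℂ) (A := L) (4 : ℂ)
      rwa [map_ofNat] at this
    exact ((h4.mul (ha.pow 3)).sub ((isAlgebraic_algebraMap _).mul ha)).sub
      (isAlgebraic_algebraMap _)
  exact h1.of_pow (by norm_num)

/-- the height of `b` -/
theorem hgt_b [IsFF ℂ L] (ha : Transcendental ℂ a)
    (h : b ^ 2 = 4 * a ^ 3 - algebraMap ℂ L Λ.g₂ * a - algebraMap ℂ L Λ.g₃) :
    hgt ℂ b ≤ 2 * hgt ℂ a := by
  classical
  obtain ⟨T, hT⟩ := exists_supp (k := ℂ) (Finset.univ : Finset (Fin 2)) ![a, b]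
  have h1 : ∀ Q : Place ℂ L, Q.ord a ≠ 0 → Q ∈ T := fun Q => hT 0 (Finset.mem_univ _) Q
  have h2 : ∀ Q : Place ℂ L, Q.ord b ≠ 0 → Q ∈ T := fun Q => hT 1 (Finset.mem_univ _) Q
  rw [hgt_finset a T h1, hgt_finset b T h2, Finset.mul_sum]
  refine Finset.sum_le_sum fun Q _ => ?_
  have hb := ne_b ha h
  have hnat : ∀ n : ℕ, Ge Q 0 ((n : ℕ) : L) := fun n => Ge.natCast n
  have hc4 : Ge Q 0 (4 : L) := by simpa using hnat 4
  by_cases haQ : 0 ≤ Q.ord a
  · have ha0 : Ge Q 0 a := Or.inr haQ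
    have hb2 : Ge Q 0 (b ^ 2) := by
      rw [h]
      exact ((H807.ge_mul0 hc4 (H807.ge_pow0 ha0 3)).sub
        (H807.ge_mul0 (Ge.const Λ.g₂) ha0)).sub (Ge.const Λ.g₃)
    have h3 := hb2.resolve_left (pow_ne_zero 2 hb)
    rw [Q.ord_pow] at h3
    push_cast at h3
    rw [max_eq_right (by omega), max_eq_right (by omega)]
    norm_num
  · push Not at haQ
    have ha3 : Ge Q (3 * Q.ord a) (b ^ 2) := by
      rw [h]
      have e1 : Ge Q (Q.ord a) a := Or.inr le_rfl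
      have e3 : Ge Q (3 * Q.ord a) (a ^ 3) := by
        have := e1.pow 3
        push_cast at this
        exact this
      have e4 : Ge Q (3 * Q.ord a) (4 * a ^ 3) := by
        have := hc4.mul e3
        rwa [zero_add] at this
      have e5 : Ge Q (3 * Q.ord a) (algebraMap ℂ L Λ.g₂ * a) := by
        have := (Ge.const (P := Q) Λ.g₂).mul e1
        rw [zero_add] at this
        exact this.mono (by omega)
      have e6 : Ge Q (3 * Q.ord a) (algebraMap ℂ L Λ.g₃) := (Ge.const (P := Q) Λ.g₃).mono (by omega)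
      exact (e4.sub e5).sub e6
    have h3 := ha3.resolve_left (pow_ne_zero 2 hb)
    rw [Q.ord_pow] at h3
    push_cast at h3
    rw [max_eq_left (a := -Q.ord a) (by omega)]
    rcases max_cases (-Q.ord b) 0 with ⟨h4, -⟩ | ⟨h4, -⟩ <;> rw [h4] <;> omega

/-- **The bound of the degrees of the maps to the elliptic curve.** -/
theorem hgt_bound {K : Type} [Field K] [Algebra ℂ K] {y : Fin (n + 1) → K} {d : ℕ}
    (hX : ProjVariety F d y) (hα : HolToTorus (Cone F) Λ α) (hA : WForms F Λ α A)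
    {B : Set (ℂ ⧸ Λ.lattice)} (hB : B.Finite) (hR : HasReduction F α B)
    (hS : ∀ g, HolIn F g → ¬ ∀ z, α (g z).rep = Submodule.Quotient.mk z) :
    ∃ N : ℕ, ∀ (L : Type) [Field L] [Algebra ℂ L] [IsFF ℂ L] (f : Fin (n + 1) → L),
      OnVar ℂ y f → val f (A 0) ≠ 0 →
      hgt ℂ (val f (A 1) / val f (A 0)) ≤ N * max (canDeg ℂ L) 0 ∧
      hgt ℂ (val f (A 2) / val f (A 0)) ≤ N * max (canDeg ℂ L) 0 := by
  obtain ⟨r, hr, hno⟩ := no_big_disc hX.form hα hB hR hS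
  obtain ⟨N, hN⟩ := exists_sec Λ hr
  refine ⟨2 * N, fun L _ _ _ f hf h0 => ?_⟩
  obtain ⟨a, ha⟩ : ∃ a, a = val f (A 1) / val f (A 0) := ⟨_, rfl⟩
  obtain ⟨b, hb⟩ : ∃ b, b = val f (A 2) / val f (A 0) := ⟨_, rfl⟩
  have hab : b ^ 2 = 4 * a ^ 3 - algebraMap ℂ L Λ.g₂ * a - algebraMap ℂ L Λ.g₃ := by
    rw [ha, hb]
    exact weier_rel hX hA hf h0
  rw [← ha, ← hb]
  have hmax : (0 : ℤ) ≤ max (canDeg ℂ L) 0 := le_max_right _ _
  by_cases htr : Transcendental ℂ a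
  · have hbne := ne_b htr hab
    obtain ⟨D₀, hD₀⟩ := exists_der (k := ℂ) (K := L)
    have hDa := der_ne_zero hD₀ htr
    have hE : EllData Λ a b ((b / D₀ a) • D₀) := ⟨htr, hbne, hab, by
      rw [Derivation.coe_smul, Pi.smul_apply, smul_eq_mul, div_mul_cancel₀ _ hDa]⟩
    obtain ⟨ev, P, B₀, hM, hs⟩ := exists_pm htr
    have h1 : hgt ℂ a ≤ N * canDeg ℂ L := by
      by_contra hcon
      push Not at hcon
      obtain ⟨q, hq⟩ := hN L a b _ ev P B₀ hE hM hs hcon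
      have hf0 : f ≠ 0 := by
        obtain ⟨j, hj⟩ := hf.1
        exact fun h => hj (congrFun h j)
      obtain ⟨φ, hφ, hφF, hφα⟩ := sec_disc hX.form hα hA hf0
        (fun i => hf.2 (F i) (hX.form i) (hX.sub.mem i)) h0 ha hb hE hM hs hr hq
      exact hno φ hφ hφF hφα
    have h2 : (N : ℤ) * canDeg ℂ L ≤ N * max (canDeg ℂ L) 0 :=
      mul_le_mul_of_nonneg_left (le_max_left _ _) (Int.natCast_nonneg _)
    have h3 := hgt_b htr hab
    have h4 : (0 : ℤ) ≤ N * max (canDeg ℂ L) 0 := mul_nonneg (Int.natCast_nonneg _) hmax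
    push_cast
    constructor <;> linarith
  · rw [hgt_of_alg htr, hgt_of_alg (alg_b htr hab)]
    have h4 : (0 : ℤ) ≤ (2 * N : ℕ) * max (canDeg ℂ L) 0 := mul_nonneg (Int.natCast_nonneg _) hmax
    exact ⟨h4, h4⟩

/-- **The degrees of the curves in surfaces over elliptic curves.** -/
theorem curves_bounded {K : Type} [Field K] [Algebra ℂ K] {y : Fin (n + 1) → K}
    (hX : ProjVariety F 2 y) (hK : GeneralType ℂ K 2)
    (hα : HolToTorus (Cone F) Λ α) (hA : WForms F Λ α A) (h0 : val y (A 0) ≠ 0)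
    {B : Set (ℂ ⧸ Λ.lattice)} (hB : B.Finite) (hR : HasReduction F α B)
    {H : MvPolynomial (Fin (n + 1)) ℂ} (hH : IsForm H) (hy : val y H ≠ 0)
    (hHB : ∀ u ∈ Cone F, α u ∈ B → val u H = 0)
    (hS : ∀ g, HolIn F g → ¬ ∀ z, α (g z).rep = Submodule.Quotient.mk z) : CurveBound ℂ y :=
  curve_bound hX.sub.ne hX.sub.gen hA.form h0 hK (alpha_trans hX hα hA h0 hB hR hH hy hHB)
    (hgt_bound hX hα hA hB hR hS)

end Pool.Agent.H918.AH
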