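import Pool.Agent.H918.H.Defs

/-! PROJECT AH (helper918), task AH-MER: the sections are meromorphic at all points. -/

set_option autoImplicit false

open Polynomial FF Pool.Agent.W603.LV Pool.Agent.W603.PV Pool.Agent.W602.GT Pool.Agent.N154.GG
open Filter Topology Metric
open Pool.Agent.Y216 (OnVar CurveBound)
open Pool.Agent.H918.SS (ProjVariety HasReduction)
open Pool.Agent.H918.PF
open scoped Polynomial.Bivariate LinearAlgebra.Projectivization

namespace Pool.Agent.H918.AH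

namespace H101

/-- The Weierstrass function is not constant near any point. -/
theorem wp_not_const (Λ : PeriodPair) (w a : ℂ) :
    ¬ ∀ᶠ z in 𝓝[≠] w, Λ.weierstrassP z = a := by
  intro h
  have hf : Meromorphic (Λ.weierstrassP + fun _ => -a) :=
    fun x => (Λ.meromorphic_weierstrassP x).add (MeromorphicAt.const _ _)
  have h0 : meromorphicOrderAt (Λ.weierstrassP + fun _ => -a) 0 ≠ ⊤ := by
    have h1 : meromorphicOrderAt Λ.weierstrassP 0 < meromorphicOrderAt (fun _ : ℂ => -a) 0 := by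
      rw [Λ.order_weierstrassP 0 (zero_mem _)]
      refine lt_of_lt_of_le ?_ (AnalyticAt.meromorphicOrderAt_nonneg analyticAt_const)
      decide
    rw [meromorphicOrderAt_add_eq_left_of_lt (MeromorphicAt.const _ _) h1,
      Λ.order_weierstrassP 0 (zero_mem _)]
    decide
  have h2 := hf.exists_meromorphicOrderAt_ne_top_iff_forall.1 ⟨0, h0⟩ w
  apply h2
  rw [meromorphicOrderAt_eq_top_iff]
  refine h.mono fun z hz => ?_
  change Λ.weierstrassP z + -a = 0
  rw [hz, add_neg_cancel]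

/-- the Weierstrass function omits a given value near every point -/
theorem wp_ne (Λ : PeriodPair) (w a : ℂ) : ∀ᶠ z in 𝓝[≠] w, Λ.weierstrassP z ≠ a := by
  have hf : MeromorphicAt (fun z => Λ.weierstrassP z + -a) w :=
    (Λ.meromorphic_weierstrassP w).add (MeromorphicAt.const _ _)
  rcases hf.eventually_eq_zero_or_eventually_ne_zero with h | h
  · exfalso
    apply wp_not_const Λ w a
    refine h.mono fun z hz => ?_
    linear_combination hz
  · refine h.mono fun z hz hz2 => hz ?_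
    rw [hz2, add_neg_cancel]

/-- the bad points are isolated -/
theorem not_bad (Λ : PeriodPair) (B₀ : Finset ℂ) (t : ℂ) : ∀ᶠ z in 𝓝[≠] t, z ∉ Bad Λ B₀ := by
  have h1 : ∀ᶠ z in 𝓝[≠] t, z ∉ Λ.lattice := by
    have h := Λ.isClosed_of_subset_lattice (s := (Λ.lattice : Set ℂ) \ {t}) Set.sdiff_subset
    have h2 : ((Λ.lattice : Set ℂ) \ {t})ᶜ ∈ 𝓝 t := h.isOpen_compl.mem_nhds fun h3 => h3.2 rfl
    rw [eventually_nhdsWithin_iff]
    filter_upwards [h2] with z hz hzt hzl
    exact hz ⟨hzl, hzt⟩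
  have h2 : ∀ᶠ z in 𝓝[≠] t, ∀ b ∈ B₀, Λ.weierstrassP z ≠ b := by
    rw [eventually_all_finset]
    exact fun b _ => wp_ne Λ t b
  filter_upwards [h1, h2] with z hz1 hz2 hz3
  rcases hz3 with h | h
  · exact hz1 h
  · exact hz2 _ h rfl

/-- a function bounded by a power of `|z - t|` near `t` is meromorphic at `t` -/
theorem mer_of_bound {q : ℂ → ℂ} {t : ℂ} {M : ℕ} {C : ℝ} (h1 : ∀ᶠ z in 𝓝[≠] t, AnalyticAt ℂ q z)
    (h2 : ∀ᶠ z in 𝓝[≠] t, ‖(z - t) ^ M * q z‖ ≤ C) : MeromorphicAt q t := by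
  have h := h1.and h2
  rw [eventually_nhdsWithin_iff] at h
  obtain ⟨s, hs1, hs2⟩ := h.exists_mem
  have hd : DifferentiableOn ℂ (fun z => (z - t) ^ M * q z) (s \ {t}) := fun z hz =>
    (((differentiableAt_id.sub_const t).pow M).mul
      (hs2 z hz.1 hz.2).1.differentiableAt).differentiableWithinAt
  have hb : BddAbove (norm ∘ (fun z => (z - t) ^ M * q z) '' (s \ {t})) := by
    refine ⟨C, ?_⟩
    rintro _ ⟨z, hz, rfl⟩
    exact (hs2 z hz.1 hz.2).2
  have hg := Complex.differentiableOn_update_limUnder_of_bddAbove hs1 hd hb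
  have hga := hg.analyticAt hs1
  have hf : MeromorphicAt (fun z => (z - t) ^ M * q z) t := by
    refine hga.meromorphicAt.congr ?_
    filter_upwards [self_mem_nhdsWithin] with z hz
    exact Function.update_of_ne hz _ _
  have hp : MeromorphicAt (fun z : ℂ => (z - t) ^ M) t :=
    ((analyticAt_id.sub analyticAt_const).pow M).meromorphicAt
  refine (hp.inv.mul hf).congr ?_
  filter_upwards [self_mem_nhdsWithin] with z hz
  change ((z - t) ^ M)⁻¹ * ((z - t) ^ M * q z) = q z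
  rw [inv_mul_cancel_left₀ (pow_ne_zero _ (sub_ne_zero.2 hz))]

/-- meromorphic functions are bounded by powers of `|z - t|` -/
theorem bound_of_mer {f : ℂ → ℂ} {t : ℂ} (hf : MeromorphicAt f t) :
    ∃ (M : ℕ) (C : ℝ), ∀ᶠ z in 𝓝[≠] t, ‖z - t‖ ^ M * ‖f z‖ ≤ C := by
  obtain ⟨n, hn⟩ := hf
  refine ⟨n, ‖(t - t) ^ n • f t‖ + 1, ?_⟩
  have h1 := hn.continuousAt.norm
  have h2 := h1.eventually (gt_mem_nhds (lt_add_one _))
  filter_upwards [h2.filter_mono nhdsWithin_le_nhds] with z hz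
  rw [norm_smul, norm_pow] at hz
  exact hz.le

/-- finite sums of meromorphic functions -/
theorem bound_sum {f : ℕ → ℂ → ℂ} {t : ℂ} (S : Finset ℕ) (hf : ∀ i, MeromorphicAt (f i) t) :
    ∃ (M : ℕ) (C : ℝ), ∀ᶠ z in 𝓝[≠] t, ‖z - t‖ ^ M * (1 + ∑ i ∈ S, ‖f i z‖) ≤ C := by
  classical
  choose n c h using fun i => bound_of_mer (hf i)
  refine ⟨∑ i ∈ S, n i, 1 + ∑ i ∈ S, c i, ?_⟩
  have h1 : ∀ᶠ z in 𝓝[≠] t, ‖z - t‖ < 1 := by
    have h2 : ball t 1 ∈ 𝓝 t := ball_mem_nhds _ one_pos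
    filter_upwards [nhdsWithin_le_nhds h2] with z hz
    exact mem_ball_iff_norm.1 hz
  have h3 : ∀ᶠ z in 𝓝[≠] t, ∀ i ∈ S, ‖z - t‖ ^ n i * ‖f i z‖ ≤ c i := by
    rw [eventually_all_finset]
    exact fun i _ => h i
  filter_upwards [h1, h3] with z hz1 hz2
  rw [mul_add, mul_one, Finset.mul_sum]
  refine add_le_add (pow_le_one₀ (norm_nonneg _) hz1.le) (Finset.sum_le_sum fun i hi => ?_)
  refine le_trans ?_ (hz2 i hi)
  refine mul_le_mul_of_nonneg_right ?_ (norm_nonneg _)
  exact pow_le_pow_of_le_one (norm_nonneg _) hz1.le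
    (Finset.single_le_sum (f := n) (fun _ _ => Nat.zero_le _) hi)

/-- the roots of a monic polynomial of positive degree are bounded by `1 + ∑ |a_i|` -/
theorem root_le {q : ℂ[X]} (hq : q.Monic) {v : ℂ} (hv : q.eval v = 0) :
    ‖v‖ ≤ 1 + ∑ i ∈ Finset.range q.natDegree, ‖q.coeff i‖ := by
  by_contra hcon
  push Not at hcon
  have hS : 0 ≤ ∑ i ∈ Finset.range q.natDegree, ‖q.coeff i‖ :=
    Finset.sum_nonneg fun _ _ => norm_nonneg _
  have hv1 : 1 < ‖v‖ := by linarith
  rw [eval_eq_sum_range, Finset.sum_range_succ, hq.coeff_natDegree, one_mul] at hv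
  have h1 : v ^ q.natDegree = - ∑ i ∈ Finset.range q.natDegree, q.coeff i * v ^ i := by
    linear_combination hv
  by_cases hd : q.natDegree = 0
  · rw [hd] at h1
    simp at h1
  have h2 : ‖v‖ ^ q.natDegree ≤ (∑ i ∈ Finset.range q.natDegree, ‖q.coeff i‖) *
      ‖v‖ ^ (q.natDegree - 1) := by
    rw [← norm_pow, h1, norm_neg, Finset.sum_mul]
    refine (norm_sum_le _ _).trans (Finset.sum_le_sum fun i hi => ?_)
    rw [norm_mul, norm_pow]
    refine mul_le_mul_of_nonneg_left ?_ (norm_nonneg _)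
    exact pow_le_pow_right₀ hv1.le (Nat.le_sub_one_of_lt (Finset.mem_range.mp hi))
  have h3 : ‖v‖ ^ q.natDegree = ‖v‖ * ‖v‖ ^ (q.natDegree - 1) := by
    rw [← pow_succ', Nat.sub_add_cancel (Nat.one_le_iff_ne_zero.mpr hd)]
  rw [h3] at h2
  have h4 := le_of_mul_le_mul_right h2 (pow_pos (by linarith) _)
  linarith

/-- a polynomial in a meromorphic function is meromorphic -/
theorem eval_mer {f : ℂ → ℂ} {t : ℂ} (hf : MeromorphicAt f t) (p : ℂ[X]) :
    MeromorphicAt (fun z => p.eval (f z)) t := by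
  have h : (fun z => p.eval (f z)) =
      fun z => ∑ i ∈ Finset.range (p.natDegree + 1), p.coeff i * f z ^ i := by
    funext z
    rw [eval_eq_sum_range]
  rw [h]
  exact MeromorphicAt.fun_sum fun i _ => (MeromorphicAt.const (p.coeff i) t).mul (hf.pow i)

end H101

variable {L : Type} [Field L] [Algebra ℂ L] {Λ : PeriodPair} {a b : L} {D : Derivation ℂ L L}
  {ev : ℂ[X][Y] →ₐ[ℂ] L} {P : ℂ[X][Y]} {B₀ : Finset ℂ}

/-- AH-MER -/
theorem sec_mer (hP : P.Monic) {Ω : Set ℂ} (hΩ : IsOpen Ω) {q : ℂ → ℂ} (hq : Sec Λ P B₀ Ω q)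
    {t : ℂ} (ht : t ∈ Ω) : MeromorphicAt q t := by
  have hbad := H101.not_bad Λ B₀ t
  have hmem : ∀ᶠ z in 𝓝[≠] t, z ∈ Ω := nhdsWithin_le_nhds (hΩ.mem_nhds ht)
  obtain ⟨M, C, hMC⟩ := H101.bound_sum (f := fun i z => (P.coeff i).eval (Λ.weierstrassP z))
    (t := t) (Finset.range P.natDegree)
    fun i => H101.eval_mer (Λ.meromorphic_weierstrassP t) (P.coeff i)
  refine H101.mer_of_bound (M := M) (C := C) ?_ ?_
  · filter_upwards [hbad, hmem] with z hz1 hz2
    exact (hq z hz2 hz1).1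
  · filter_upwards [hbad, hmem, hMC] with z hz1 hz2 hz3
    have h1 := (hq z hz2 hz1).2
    have h2 : (P.map (evalRingHom (Λ.weierstrassP z))).eval (q z) = 0 := by
      rw [← h1]
      exact (map_evalRingHom_eval _ _ _)
    have h3 := H101.root_le (hP.map (evalRingHom (Λ.weierstrassP z))) h2
    rw [hP.natDegree_map] at h3
    have h4 : ∀ i, (P.map (evalRingHom (Λ.weierstrassP z))).coeff i =
        (P.coeff i).eval (Λ.weierstrassP z) := by
      intro i
      rw [coeff_map, coe_evalRingHom]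
    simp only [h4] at h3
    rw [norm_mul, norm_pow]
    exact (mul_le_mul_of_nonneg_left h3 (pow_nonneg (norm_nonneg _) _)).trans hz3

end Pool.Agent.H918.AH
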