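import Pool.Agent.H918.H.Alg
import Pool.Graph.R_pool_sql_team_seeded_64922ed1.X180.CD.Can
import Pool.Graph.R_pool_sql_team_seeded_64922ed1.X180.CD.Fin

/-!
# PROJECT AH: towers, and the canonical degrees of all curves
-/

set_option autoImplicit false
set_option linter.overlappingInstances false

open FF Pool.Agent.W603.LV Pool.Agent.W603.PV Pool.Agent.W602.GT Pool.Agent.N154.GG
open Pool.Agent.Y216 (OnVar CurveBound)
open Pool.Agent.X180.CD (IsCanDegree exists_bound can_bound)
open Pool.Agent.H918.SS (ProjVariety HasReduction)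
open Pool.Agent.H918.PF
open Pool.Agent.H916

namespace Pool.Agent.H918.AH

/-- `K` is the function field of a projective surface `X = {F = 0}` of general type (which may be
singular) with a holomorphic map `α` to an elliptic curve `ℂ / Λ`, given by the Weierstrass forms `A`,
such that `X` has, for a finite set `B` of points of the elliptic curve, a semistable reduction which
is unramified outside of the fibres over `B` (`HasReduction`); the form `H` is not identically zero on
`X` and is zero on the fibres over `B`; and all closed curves of geometric genus at most one in `X` are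
contained in fibres of `α`. -/
def LowFibred (K : Type) [Field K] [Algebra ℂ K] : Prop :=
  ∃ (n : ℕ) (ι : Type) (F : ι → MvPolynomial (Fin (n + 1)) ℂ) (y : Fin (n + 1) → K)
    (Λ : PeriodPair) (α : (Fin (n + 1) → ℂ) → ℂ ⧸ Λ.lattice)
    (A : Fin 3 → MvPolynomial (Fin (n + 1)) ℂ) (B : Set (ℂ ⧸ Λ.lattice))
    (H : MvPolynomial (Fin (n + 1)) ℂ), ProjVariety F 2 y ∧ GeneralType ℂ K 2 ∧
    HolToTorus (Cone F) Λ α ∧ WForms F Λ α A ∧ val y (A 0) ≠ 0 ∧ B.Finite ∧ HasReduction F α B ∧
    IsForm H ∧ val y H ≠ 0 ∧ (∀ u ∈ Cone F, α u ∈ B → val u H = 0) ∧ LowInFibres F α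

/-- The smallest class of function fields `K` of varieties over `ℂ` which contains the function fields
of the surfaces in `LowFibred`, such that `K` belongs to the class whenever there are finitely many
members `B l` of the class with embeddings `B l → K` (dominant rational maps from the variety `X` to
the varieties `Y l`) such that the map from `X` to the product of the `Y l` has relative dimension zero
over its image, or its geometric generic fibre is a curve of genus at least two (`HypFibres`; this is
the case if `X` is of general type and the relative dimension is at most one). -/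
inductive HypTower : ∀ (K : Type) [Field K] [Algebra ℂ K], Prop
  | base {K : Type} [Field K] [Algebra ℂ K] (h : LowFibred K) : HypTower K
  | step {K : Type} [Field K] [Algebra ℂ K] {r : ℕ} {B : Fin r → Type} [iB : ∀ l, Field (B l)]
      [iA : ∀ l, Algebra ℂ (B l)] (hess : Algebra.EssFiniteType ℂ K) (φ : ∀ l, B l →ₐ[ℂ] K)
      (hB : ∀ l, HypTower (B l)) (h : HypFibres (⨆ l, (φ l).fieldRange)) : HypTower K

theorem LowFibred.ess {K : Type} [Field K] [Algebra ℂ K] (h : LowFibred K) :
    Algebra.EssFiniteType ℂ K := by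
  obtain ⟨n, ι, F, y, Λ, α, A, B, H, hX, -⟩ := h
  exact Pool.Agent.H918.PF.H643.ess_coords hX.sub.gen

theorem LowFibred.curveBound {K : Type} [Field K] [Algebra ℂ K] (h : LowFibred K) {M : ℕ}
    {x : Fin (M + 1) → K} (hx : x ≠ 0) (hgen : coords ℂ x = ⊤) : CurveBound ℂ x := by
  obtain ⟨n, ι, F, y, Λ, α, A, B, H, hX, hK, hα, hA, h0, hB, hR, hH, hy, hHB, hL⟩ := h
  have h1 := curves_bounded hX hK hα hA h0 hB hR hH hy hHB
    (no_horizontal hX hα hB hR hH hy hHB hL)
  refine curveBound_multi (r := 1) (N := fun _ => n) (y := fun _ => y) hx hgen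
    (fun _ => hX.sub.ne) ?_ fun _ => h1
  have h2 : (⨆ _ : Fin 1, coords ℂ y) = ⊤ := by
    rw [hX.sub.gen]
    simp
  rw [h2]
  refine Or.inl ⟨fun z => ?_⟩
  exact isAlgebraic_algebraMap (⟨z, IntermediateField.mem_top⟩ : (⊤ : IntermediateField ℂ K))

theorem HypTower.ess {K : Type} [Field K] [Algebra ℂ K] (h : HypTower K) :
    Algebra.EssFiniteType ℂ K := by
  cases h with
  | base h => exact h.ess
  | step hess φ hB h => exact hess

/-- **Towers.** -/
theorem HypTower.curveBound {K : Type} [Field K] [Algebra ℂ K] (h : HypTower K) :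
    ∀ (M : ℕ) (x : Fin (M + 1) → K), x ≠ 0 → coords ℂ x = ⊤ → CurveBound ℂ x := by
  induction h with
  | base h => exact fun M x hx hgen => h.curveBound hx hgen
  | @step K _ _ r B iB iA hess φ hB h ih =>
    intro M x hx hgen
    choose N y' hy' hgen' using fun l => exists_model_ess (hB l).ess
    have hy : ∀ l, (fun i => φ l (y' l i)) ≠ 0 := by
      intro l h0
      apply hy' l
      funext i
      have h1 := congrFun h0 i
      exact (φ l).injective (by rw [Pi.zero_apply, map_zero]; exact h1)
    have hC : (⨆ l, coords ℂ fun i => φ l (y' l i)) = ⨆ l, (φ l).fieldRange := by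
      congr 1
      funext l
      rw [coords_map, hgen', ← AlgHom.fieldRange_eq_map]
    exact curveBound_multi hx hgen (y := fun l i => φ l (y' l i)) hy (by rw [hC]; exact h)
      fun l => curveBound_hom (φ l) (ih l (N l) (y' l) (hy' l) (hgen' l))

/-- **The inequality of the question**, for all curves in the surface with the generic point `x`: there
are `A` and `B` such that the degree and the canonical degree of all curves of geometric genus `g` are
at most `A (2 g - 2) + B`. -/
def DegreesBounded {c : ℕ} {K : Type} [Field K] [Algebra ℂ K] (x : Fin (c + 2 + 1) → K) : Prop :=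
  ∃ A B : ℕ, ∀ (E : Type) [Field E] [Algebra ℂ E] [IsFF ℂ E] (z : Fin (c + 2 + 1) → E),
    OnVar ℂ x z → coords ℂ z = ⊤ → pht ℂ z ≤ A * canDeg ℂ E + B ∧
      ∀ κ, IsCanDegree ℂ x z κ → κ ≤ A * canDeg ℂ E + B

/-- from the bound outside of a proper closed subset to all curves (the proof of helper910 in
`Results/MP_308c18_ag/SurfacesOverBinaryForms.lean`) -/
theorem degreesBounded {K : Type} [Field K] [Algebra ℂ K] {c : ℕ} {x : Fin (c + 2 + 1) → K}
    (hgen : coords ℂ x = ⊤) (hdim : Algebra.trdeg ℂ K = (2 : ℕ)) (h : CurveBound ℂ x) :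
    DegreesBounded x := by
  obtain ⟨G, hG, hGx, A, hA⟩ := h
  obtain ⟨B, hB⟩ := exists_bound hgen hdim hG hGx
  obtain ⟨D, hD⟩ := can_bound (k := ℂ) x
  refine ⟨(D + 1) * A, (D + 1) * (2 * A + B), fun E _ _ _ z hz hgz => ?_⟩
  have hcan : -2 ≤ canDeg ℂ E := Pool.Agent.H916.canDeg_ge_neg_two
  have hA0 : (0 : ℤ) ≤ A := Int.natCast_nonneg _
  have hB0 : (0 : ℤ) ≤ B := Int.natCast_nonneg _
  have hD0 : (0 : ℤ) ≤ D := Int.natCast_nonneg _
  have h1 : pht ℂ z ≤ A * canDeg ℂ E + (2 * A + B) := by
    by_cases hzG : val z G = 0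
    · have h2 := hB E z (Function.ne_iff.2 hz.1) hgz hzG hz.2
      nlinarith
    · have h2 := hA E z hz hzG
      rcases max_cases (canDeg ℂ E) 0 with ⟨h3, h4⟩ | ⟨h3, h4⟩ <;> rw [h3] at h2 <;> nlinarith
  have h2 : (0 : ℤ) ≤ A * canDeg ℂ E + (2 * A + B) := by nlinarith
  have h3 : (D : ℤ) * pht ℂ z ≤ D * (A * canDeg ℂ E + (2 * A + B)) :=
    mul_le_mul_of_nonneg_left h1 hD0
  have h4 : (0 : ℤ) ≤ D * (A * canDeg ℂ E + (2 * A + B)) := mul_nonneg hD0 h2
  push_cast
  constructor
  · nlinarith
  · intro κ hκ
    have h5 := hD E z κ hz hκ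
    nlinarith

end Pool.Agent.H918.AH
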